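import Mathlib

/-!
Project MP_edf562_an (helper31): three-space theorem for admissible topological vector spaces.
-/

set_option autoImplicit false

open Topology Set

namespace Pool.Agent.H31.AD

universe u v

/-- `K` is approximable: it can be moved into finite-dimensional subspaces by continuous maps
arbitrarily close to the identity. -/
def Approximable {E : Type u} [AddCommGroup E] [Module ℝ E] [TopologicalSpace E]
    (K : Set E) : Prop :=
  ∀ U ∈ 𝓝 (0 : E), ∃ h : E → E, ContinuousOn h K ∧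
    FiniteDimensional ℝ (Submodule.span ℝ (h '' K)) ∧ ∀ x ∈ K, x - h x ∈ U

/-- Admissible in the sense of Klee: all compact sets are approximable. -/
def Admissible (E : Type u) [AddCommGroup E] [Module ℝ E] [TopologicalSpace E] : Prop :=
  ∀ K : Set E, IsCompact K → Approximable K

/-- The simplex property: finitely many points `m i` can be spanned by a continuous finite-rank map `φ`
of the simplex so that `φ t` is close to `m i` (`i` in the support of `t`) if all `m j`, `j` in the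
support of `t`, are close to `m i`; how close does not depend on the number of points. -/
def SimplexProp (M : Type u) [AddCommGroup M] [Module ℝ M] [TopologicalSpace M] : Prop :=
  ∀ U ∈ 𝓝 (0 : M), ∃ V ∈ 𝓝 (0 : M), ∀ (n : ℕ) (m : Fin n → M),
    ∃ φ : (Fin n → ℝ) → M, ContinuousOn φ (stdSimplex ℝ (Fin n)) ∧
      FiniteDimensional ℝ (Submodule.span ℝ (φ '' stdSimplex ℝ (Fin n))) ∧
      ∀ t ∈ stdSimplex ℝ (Fin n), ∀ i, t i ≠ 0 → (∀ j, t j ≠ 0 → m j - m i ∈ V) → φ t - m i ∈ U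

section Basic

variable {E : Type u} [AddCommGroup E] [TopologicalSpace E] [IsTopologicalAddGroup E]

theorem exists_nhds_add_sub {U : Set E} (hU : U ∈ 𝓝 (0 : E)) :
    ∃ W : Set E, IsOpen W ∧ (0 : E) ∈ W ∧ W ⊆ U ∧ (∀ a ∈ W, ∀ b ∈ W, ∀ c ∈ W, a + b - c ∈ U) ∧
      (∀ a ∈ W, ∀ b ∈ W, a + b ∈ U) ∧ ∀ a ∈ W, ∀ b ∈ W, ∀ c ∈ W, ∀ d ∈ W,
        (a + b) - (c + d) ∈ U := by
  have h : Filter.Tendsto (fun p : (E × E) × (E × E) => (p.1.1 + p.1.2) - (p.2.1 + p.2.2))
      (𝓝 ((0, 0), (0, 0))) (𝓝 0) := by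
    have hc : Continuous (fun p : (E × E) × (E × E) => (p.1.1 + p.1.2) - (p.2.1 + p.2.2)) := by
      fun_prop
    have := hc.tendsto ((0, 0), (0, 0))
    simpa using this
  have h1 := h hU
  rw [Filter.mem_map, nhds_prod_eq, nhds_prod_eq] at h1
  obtain ⟨A, hA, B, hB, hAB⟩ := Filter.mem_prod_iff.1 h1
  obtain ⟨A1, hA1, A2, hA2, hA12⟩ := Filter.mem_prod_iff.1 hA
  obtain ⟨B1, hB1, B2, hB2, hB12⟩ := Filter.mem_prod_iff.1 hB
  obtain ⟨W, hW, hWo, hW0⟩ := mem_nhds_iff.1
    (Filter.inter_mem (Filter.inter_mem hA1 hA2) (Filter.inter_mem hB1 hB2))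
  have key : ∀ a ∈ W, ∀ b ∈ W, ∀ c ∈ W, ∀ d ∈ W, (a + b) - (c + d) ∈ U := by
    intro a ha b hb c hc d hd
    have h2 : ((a, b), (c, d)) ∈ A ×ˢ B :=
      ⟨hA12 ⟨(hW ha).1.1, (hW hb).1.2⟩, hB12 ⟨(hW hc).2.1, (hW hd).2.2⟩⟩
    exact hAB h2
  refine ⟨W, hWo, hW0, ?_, ?_, ?_, key⟩
  · intro a ha
    have := key a ha 0 hW0 0 hW0 0 hW0
    simpa using this
  · intro a ha b hb c hc
    have := key a ha b hb c hc 0 hW0
    simpa using this
  · intro a ha b hb
    have := key a ha b hb 0 hW0 0 hW0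
    simpa using this

end Basic

/-- A locally convex space has the simplex property. -/
theorem simplexProp_of_locallyConvex {M : Type u} [AddCommGroup M] [Module ℝ M]
    [TopologicalSpace M] [IsTopologicalAddGroup M] [ContinuousSMul ℝ M] [LocallyConvexSpace ℝ M] :
    SimplexProp M := by
  intro U hU
  obtain ⟨V, ⟨hV, hVc⟩, hVU⟩ := (LocallyConvexSpace.convex_basis_zero ℝ M).mem_iff.1 hU
  refine ⟨V, hV, fun n m => ⟨fun t => ∑ j, t j • m j, ?_, ?_, ?_⟩⟩
  · exact Continuous.continuousOn (by fun_prop)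
  · have h1 : Submodule.span ℝ ((fun t : Fin n → ℝ => ∑ j, t j • m j) '' stdSimplex ℝ (Fin n)) ≤
        Submodule.span ℝ (range m) := by
      rw [Submodule.span_le]
      rintro _ ⟨t, -, rfl⟩
      exact Submodule.sum_mem _ fun j _ => Submodule.smul_mem _ _ (Submodule.subset_span ⟨j, rfl⟩)
    have h2 : FiniteDimensional ℝ (Submodule.span ℝ (range m)) :=
      FiniteDimensional.span_of_finite ℝ (Set.finite_range m)
    exact Submodule.finiteDimensional_of_le h1
  · intro t ht i _ hj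
    apply hVU
    have h1 : (∑ j, t j • m j) - m i = ∑ j ∈ Finset.univ.filter (fun j => t j ≠ 0),
        t j • (m j - m i) := by
      rw [Finset.sum_filter_of_ne (p := fun j => t j ≠ 0)
        (f := fun j => t j • (m j - m i)) (fun j _ h h0 => h (by simp only [h0, zero_smul]))]
      simp only [smul_sub, Finset.sum_sub_distrib]
      rw [← Finset.sum_smul, ht.2, one_smul]
    show (∑ j, t j • m j) - m i ∈ V
    rw [h1]
    refine hVc.sum_mem (fun j _ => ht.1 j) ?_ fun j hj' => hj j (Finset.mem_filter.1 hj').2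
    rw [Finset.sum_filter_ne_zero, ht.2]

/-- **Lifting theorem.** -/
theorem approximable_of_ker {E : Type u} [AddCommGroup E] [Module ℝ E] [TopologicalSpace E]
    [IsTopologicalAddGroup E] [ContinuousSMul ℝ E] [T2Space E]
    {F : Type v} [AddCommGroup F] [Module ℝ F] [TopologicalSpace F]
    [IsTopologicalAddGroup F] [ContinuousSMul ℝ F] [T2Space F]
    (π : E →ₗ[ℝ] F) (hc : Continuous π) (ho : IsOpenMap π) (hs : Function.Surjective π)
    (hM : SimplexProp (LinearMap.ker π)) {K : Set E} (hK : IsCompact K)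
    (hF : Approximable (π '' K)) : Approximable K := by
  classical
  intro U hU
  obtain ⟨U2, hU2o, hU20, hU2U, hU2, -, -⟩ := exists_nhds_add_sub hU
  have hU2n : U2 ∈ 𝓝 (0 : E) := hU2o.mem_nhds hU20
  have hUM : ((↑) : LinearMap.ker π → E) ⁻¹' U2 ∈ 𝓝 (0 : LinearMap.ker π) :=
    continuous_subtype_val.continuousAt.preimage_mem_nhds (by simpa using hU2n)
  obtain ⟨V, hV, hVφ⟩ := hM _ hUM
  rw [nhds_subtype_eq_comap, Filter.mem_comap] at hV
  obtain ⟨V', hV', hV'V⟩ := hV
  obtain ⟨W, hWo, hW0, hWI, -, -, hW4⟩ := exists_nhds_add_sub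
    (Filter.inter_mem hU2n (by simpa using hV') : U2 ∩ V' ∈ 𝓝 (0 : E))
  have hWU2 : W ⊆ U2 := fun a ha => (hWI ha).1
  have hπW : π '' W ∈ 𝓝 (0 : F) := by
    have := ho.image_mem_nhds (hWo.mem_nhds hW0)
    rwa [map_zero] at this
  obtain ⟨v, hv1, hv2, hv3⟩ := hF _ hπW
  obtain ⟨s, hs'⟩ := LinearMap.exists_rightInverse_of_surjective π (LinearMap.range_eq_top.2 hs)
  have hsπ : ∀ z, π (s z) = z := fun z => LinearMap.congr_fun hs' z
  obtain ⟨Fv, hFv⟩ : ∃ Fv, Fv = Submodule.span ℝ (v '' (π '' K)) := ⟨_, rfl⟩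
  have hfd : FiniteDimensional ℝ Fv := by rw [hFv]; exact hv2
  have hvm : ∀ x ∈ K, v (π x) ∈ Fv := fun x hx => by
    rw [hFv]
    exact Submodule.subset_span ⟨π x, ⟨x, hx, rfl⟩, rfl⟩
  -- the lifted map
  have hg : Continuous (fun x : K => s (v (π x))) := by
    have h1 : Continuous (fun x : K => (⟨v (π x), hvm x x.2⟩ : Fv)) := by
      refine Continuous.subtype_mk ?_ _
      have h2 : ContinuousOn (fun x => v (π x)) K :=
        hv1.comp hc.continuousOn (fun x hx => ⟨x, hx, rfl⟩)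
      exact continuousOn_iff_continuous_domRestrict.1 h2
    have h3 : Continuous (s.domRestrict Fv) := LinearMap.continuous_of_finiteDimensional _
    exact h3.comp h1
  have hy : Continuous (fun x : K => (x : E) - s (v (π x))) := continuous_subtype_val.sub hg
  have hwm : ∀ x : K, ∃ w ∈ W, ∃ m : LinearMap.ker π, (x : E) - s (v (π x)) = w + m := by
    intro x
    obtain ⟨w, hw, hwx⟩ := hv3 (π x) ⟨x, x.2, rfl⟩
    refine ⟨w, hw, ⟨(x : E) - s (v (π x)) - w, ?_⟩, by simp⟩
    rw [LinearMap.mem_ker, map_sub, map_sub, hsπ, hwx, sub_self]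
  choose w hw m hm using hwm
  have hKc : CompactSpace K := isCompact_iff_compactSpace.1 hK
  -- cover
  have hOo : ∀ x : K, IsOpen {x' : K | ((x' : E) - s (v (π x'))) - ((x : E) - s (v (π x))) ∈ W} :=
    fun x => hWo.preimage (hy.sub continuous_const)
  obtain ⟨t, ht⟩ := isCompact_univ.elim_finite_subcover _ hOo (fun x _ => by
    rw [mem_iUnion]
    exact ⟨x, by simpa using hW0⟩)
  obtain ⟨n, hn⟩ : ∃ n, n = t.card := ⟨_, rfl⟩
  obtain ⟨e⟩ : Nonempty (Fin n ≃ t) := ⟨hn ▸ t.equivFin.symm⟩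
  obtain ⟨pt, hpt⟩ : ∃ pt : Fin n → K, ∀ x ∈ t, ∃ i, pt i = x :=
    ⟨fun i => (e i).1, fun x hx => ⟨e.symm ⟨x, hx⟩, by simp⟩⟩
  obtain ⟨f, hf⟩ := PartitionOfUnity.exists_isSubordinate (s := (univ : Set K)) isClosed_univ
    (fun i : Fin n => {x' : K | ((x' : E) - s (v (π x'))) - ((pt i : E) - s (v (π (pt i)))) ∈ W})
    (fun i => hOo (pt i)) (fun x hx => by
      obtain ⟨x0, hx0⟩ := mem_iUnion.1 (ht hx)
      obtain ⟨h1, h2⟩ := mem_iUnion.1 hx0
      obtain ⟨i, rfl⟩ := hpt x0 h1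
      exact mem_iUnion.2 ⟨i, h2⟩)
  have hfs : ∀ x : K, (fun i => f i x) ∈ stdSimplex ℝ (Fin n) := by
    intro x
    refine ⟨fun i => f.nonneg i x, ?_⟩
    rw [← f.sum_eq_one (mem_univ x), finsum_eq_sum_of_fintype]
  have hfc : Continuous (fun x : K => (fun i => f i x)) := continuous_pi fun i => (f i).continuous
  obtain ⟨φ, hφc, hφd, hφ⟩ := hVφ n (fun i => m (pt i))
  have hφT : Continuous (fun x : K => φ (fun i => f i x)) :=
    hφc.comp_continuous hfc hfs
  refine ⟨fun x => if hx : x ∈ K then s (v (π x)) + (φ (fun i => f i ⟨x, hx⟩) : E) else 0,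
    ?_, ?_, ?_⟩
  · rw [continuousOn_iff_continuous_domRestrict]
    have h1 : K.domRestrict (fun x => if hx : x ∈ K then s (v (π x)) +
        (φ (fun i => f i ⟨x, hx⟩) : E) else 0) =
        fun x : K => s (v (π x)) + (φ (fun i => f i x) : E) := by
      funext x
      simp only [Set.domRestrict_apply, x.2, dif_pos]
    rw [h1]
    exact hg.add (continuous_subtype_val.comp hφT)
  · have h1 : Submodule.span ℝ ((fun x => if hx : x ∈ K then s (v (π x)) +
        (φ (fun i => f i ⟨x, hx⟩) : E) else 0) '' K) ≤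
        Fv.map s ⊔ (Submodule.span ℝ (φ '' stdSimplex ℝ (Fin n))).map
          (LinearMap.ker π).subtype := by
      rw [Submodule.span_le]
      rintro _ ⟨x, hx, rfl⟩
      simp only [hx, dif_pos]
      refine Submodule.add_mem_sup (Submodule.mem_map_of_mem (hvm x hx)) ?_
      exact Submodule.mem_map_of_mem (Submodule.subset_span ⟨_, hfs ⟨x, hx⟩, rfl⟩)
    exact Submodule.finiteDimensional_of_le h1
  · intro x hx
    simp only [hx, dif_pos]
    obtain ⟨i, hi⟩ := f.exists_pos (mem_univ (⟨x, hx⟩ : K))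
    have hd : ∀ j, f j ⟨x, hx⟩ ≠ 0 →
        (x - s (v (π x))) - ((pt j : E) - s (v (π (pt j)))) ∈ W := fun j hj =>
      hf j (subset_tsupport _ hj)
    have hmj : ∀ j, f j ⟨x, hx⟩ ≠ 0 → m (pt j) - m (pt i) ∈ V := by
      intro j hj
      apply hV'V
      show ((m (pt j) - m (pt i) : LinearMap.ker π) : E) ∈ V'
      have h1 := hW4 _ (hw (pt i)) _ (hd i hi.ne') _ (hw (pt j)) _ (hd j hj)
      have h2 : ((m (pt j) - m (pt i) : LinearMap.ker π) : E) =
          (w (pt i) + ((x - s (v (π x))) - ((pt i : E) - s (v (π (pt i)))))) -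
            (w (pt j) + ((x - s (v (π x))) - ((pt j : E) - s (v (π (pt j)))))) := by
        rw [hm (pt i), hm (pt j), Submodule.coe_sub]
        abel
      rw [h2]
      exact h1.2
    have h3 : ((φ (fun i => f i ⟨x, hx⟩) - m (pt i) : LinearMap.ker π) : E) ∈ U2 :=
      hφ _ (hfs _) i hi.ne' hmj
    have h4 := hU2 _ (hWU2 (hw (pt i))) _ (hWU2 (hd i hi.ne')) _ h3
    have h5 : x - (s (v (π x)) + (φ (fun i => f i ⟨x, hx⟩) : E)) =
        w (pt i) + ((x - s (v (π x))) - ((pt i : E) - s (v (π (pt i))))) -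
          ((φ (fun i => f i ⟨x, hx⟩) - m (pt i) : LinearMap.ker π) : E) := by
      rw [hm (pt i), Submodule.coe_sub]
      abel
    rw [h5]
    exact h4

end Pool.Agent.H31.AD
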