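import Pool.Agent.H31.AD.Line

/-!
Project MP_edf562_an (helper31): uncountable sets of scalars.
-/

set_option autoImplicit false

open Topology Set Pointwise

namespace Pool.Agent.H31.AD

universe u

theorem exists_cantor_scalars {T : Set ℝ} (hT : IsCompact T) (hTu : ¬ T.Countable) :
    ∃ τ : (ℕ → Bool) → ℝ, Continuous τ ∧ Function.Injective τ ∧ (∀ c, τ c ∈ T) ∧
      ∀ c, τ c ≠ 0 := by
  obtain ⟨τ, hτT, hτ, hτi⟩ := hT.isClosed.exists_nat_bool_injection_of_not_countable hTu
  by_cases h : ∃ c0, τ c0 = 0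
  · obtain ⟨c0, hc0⟩ := h
    have hb : (!c0 0) ≠ c0 0 := by simp
    obtain ⟨b, hb'⟩ : ∃ b, b = !c0 0 := ⟨_, rfl⟩
    rw [← hb'] at hb
    let cs : (ℕ → Bool) → (ℕ → Bool) := fun c n => Nat.casesOn n b (fun k => c k)
    have hcs : Continuous cs := by
      refine continuous_pi fun n => ?_
      cases n with
      | zero => exact continuous_const
      | succ k => exact continuous_apply k
    have hcsi : Function.Injective cs := by
      intro c c' hcc
      funext k
      exact congrFun hcc (k + 1)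
    refine ⟨fun c => τ (cs c), hτ.comp hcs, hτi.comp hcsi, fun c => hτT ⟨_, rfl⟩, ?_⟩
    intro c hc
    have h1 : cs c = c0 := hτi (hc.trans hc0.symm)
    exact hb (congrFun h1 0)
  · push Not at h
    exact ⟨τ, hτ, hτi, fun c => hτT ⟨_, rfl⟩, h⟩

theorem not_countable_Icc : ¬ (Icc (0 : ℝ) 1).Countable := by
  intro h
  have h1 := h.measure_zero MeasureTheory.volume
  rw [Real.volume_Icc] at h1
  simp at h1

variable {E : Type u} [AddCommGroup E] [Module ℝ E] [TopologicalSpace E]
    [TopologicalSpace.MetrizableSpace E]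

/-- In the product with a line every compact set is part of the sum of a Cantor set and a copy of
the set `T` in the line, if `T` is uncountable. -/
theorem approximable_of_scalarSums {K : Set E} (hK : IsCompact K)
    {T : Set ℝ} (hT : IsCompact T) (hTu : ¬ T.Countable)
    (h : ∀ (β : (ℕ → Bool) → E × ℝ) (e : E × ℝ), Continuous β → Function.Injective β →
      Approximable (range β + (fun r : ℝ => r • e) '' T)) : Approximable K := by
  rcases K.eq_empty_or_nonempty with rfl | hne
  · exact approximable_empty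
  obtain ⟨f, hf, hfK⟩ := exists_cantor hK hne
  obtain ⟨τ, hτ, hτi, hτT, -⟩ := exists_cantor_scalars hT hTu
  refine approximable_of_prod' (0 : ℝ) ((h (fun c => (f c, -τ c)) ((0 : E), (1 : ℝ))
    ?_ ?_).mono ?_)
  · exact hf.prodMk hτ.neg
  · exact fun c c' hcc => hτi (neg_injective (congrArg Prod.snd hcc))
  · rintro _ ⟨x, hx, rfl⟩
    rw [← hfK] at hx
    obtain ⟨c, rfl⟩ := hx
    refine ⟨_, ⟨c, rfl⟩, _, ⟨τ c, hτT c, rfl⟩, ?_⟩
    show (f c, -τ c) + τ c • ((0 : E), (1 : ℝ)) = (f c, (0 : ℝ))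
    simp

/-- In the product with a line every compact set is part of a set `T • A`, `A` a Cantor set, if `T`
is uncountable. -/
theorem approximable_of_scalarMul [ContinuousSMul ℝ E] {K : Set E} (hK : IsCompact K)
    {T : Set ℝ} (hT : IsCompact T) (hTu : ¬ T.Countable)
    (h : ∀ (β : (ℕ → Bool) → E × ℝ), Continuous β → Function.Injective β →
      Approximable (T • range β)) : Approximable K := by
  rcases K.eq_empty_or_nonempty with rfl | hne
  · exact approximable_empty
  obtain ⟨f, hf, hfK⟩ := exists_cantor hK hne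
  obtain ⟨τ, hτ, hτi, hτT, hτ0⟩ := exists_cantor_scalars hT hTu
  refine approximable_of_prod' (1 : ℝ) ((h (fun c => (τ c)⁻¹ • (f c, (1 : ℝ)))
    ?_ ?_).mono ?_)
  · exact (hτ.inv₀ hτ0).smul (hf.prodMk continuous_const)
  · intro c c' hcc
    have h1 : (τ c)⁻¹ • (1 : ℝ) = (τ c')⁻¹ • (1 : ℝ) := congrArg Prod.snd hcc
    apply hτi
    simpa using h1
  · rintro _ ⟨x, hx, rfl⟩
    rw [← hfK] at hx
    obtain ⟨c, rfl⟩ := hx
    refine ⟨τ c, hτT c, _, ⟨c, rfl⟩, ?_⟩
    show τ c • ((τ c)⁻¹ • (f c, (1 : ℝ))) = (f c, (1 : ℝ))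
    rw [smul_smul, mul_inv_cancel₀ (hτ0 c), one_smul]

end Pool.Agent.H31.AD
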