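import Pool.Agent.H31.AD.Metr

/-!
Project MP_edf562_an (helper31): scattered form of the σ-ideal theorem, dense subspaces.
-/

set_option autoImplicit false

open Topology Set Pointwise

namespace Pool.Agent.H31.AD

universe u v

section

variable {E : Type u} [AddCommGroup E] [Module ℝ E] [TopologicalSpace E]
  [IsTopologicalAddGroup E] [ContinuousSMul ℝ E] [T2Space E]

/-- **Scattered form of the σ-ideal theorem.** -/
theorem approximable_of_scattered {K : Set E} (hK : IsCompact K)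
    (h : ∀ L ⊆ K, IsCompact L → L.Nonempty → ∃ G C : Set E, IsOpen G ∧ (L ∩ G).Nonempty ∧
      L ∩ G ⊆ C ∧ IsCompact C ∧ Approximable C) : Approximable K := by
  apply approximable_of_local hK
  by_contra hcon
  push Not at hcon
  obtain ⟨O, hO⟩ : ∃ O : Set E, O = {x | ∃ C : Set E, C ∈ 𝓝[K] x ∧ IsCompact C ∧
    Approximable C} := ⟨_, rfl⟩
  have hOo : IsOpen O := by
    rw [isOpen_iff_mem_nhds]
    intro x hx
    rw [hO] at hx
    obtain ⟨C, h1, h2, h3⟩ := hx
    obtain ⟨G, hG, hGx, hGC⟩ := mem_nhdsWithin.1 h1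
    refine Filter.mem_of_superset (hG.mem_nhds hGx) fun y hy => ?_
    rw [hO]
    exact ⟨C, mem_nhdsWithin.2 ⟨G, hG, hy, hGC⟩, h2, h3⟩
  obtain ⟨L, hLdef⟩ : ∃ L : Set E, L = K \ O := ⟨_, rfl⟩
  have hL : IsCompact L := hLdef ▸ hK.diff hOo
  have hLK : ∀ y ∈ L, y ∈ K \ O := fun y hy => by rw [← hLdef]; exact hy
  have hLne : L.Nonempty := by
    obtain ⟨x, hx, hx'⟩ := hcon
    refine ⟨x, ?_⟩
    rw [hLdef]
    refine ⟨hx, fun hxO => ?_⟩
    rw [hO] at hxO
    obtain ⟨C, h1, h2, h3⟩ := hxO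
    exact hx' C h1 h2 h3
  obtain ⟨G, C0, hG, ⟨x, hxL, hxG⟩, hLG, hC0, hC0a⟩ := h L (fun y hy => (hLK y hy).1) hL hLne
  obtain ⟨D, hD, hDc, hDG⟩ := exists_mem_nhds_isClosed_subset (hG.mem_nhds hxG)
  have hxK : x ∈ K \ O := hLK x hxL
  apply hxK.2
  rw [hO]
  have hKD : IsCompact (K ∩ D) := hK.inter_right hDc
  refine ⟨K ∩ D, Filter.inter_mem self_mem_nhdsWithin (mem_nhdsWithin_of_mem_nhds hD), hKD, ?_⟩
  refine approximable_of_rel (L := (K ∩ D) ∩ L) hKD (hKD.inter hL) (hC0a.mono ?_) ?_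
  · rintro y ⟨hy1, hy2⟩
    exact hLG ⟨hy2, hDG hy1.2⟩
  · intro C hC hCK hCL
    apply approximable_of_local hC
    intro y hy
    have hyO : y ∈ O := by
      by_contra h1
      refine Set.disjoint_left.1 hCL hy ⟨hCK hy, ?_⟩
      rw [hLdef]
      exact ⟨(hCK hy).1, h1⟩
    rw [hO] at hyO
    obtain ⟨C', h1, h2, h3⟩ := hyO
    exact ⟨C', nhdsWithin_mono y (fun z hz => (hCK hz).1) h1, h2, h3⟩

end

/-- Images under linear maps with continuous sections. -/
theorem approximable_of_section {E : Type u} [AddCommGroup E] [Module ℝ E] [TopologicalSpace E]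
    {F : Type v} [AddCommGroup F] [Module ℝ F] [TopologicalSpace F]
    (π : E →ₗ[ℝ] F) (hc : Continuous π) {K : Set F} (s : F → E) (hs : ContinuousOn s K)
    (hsπ : ∀ x ∈ K, π (s x) = x) (h : Approximable (s '' K)) : Approximable K := by
  intro U hU
  have hU' : π ⁻¹' U ∈ 𝓝 (0 : E) := hc.continuousAt.preimage_mem_nhds (by rwa [map_zero])
  obtain ⟨v, h1, h2, h3⟩ := h _ hU'
  refine ⟨fun x => π (v (s x)), ?_, ?_, ?_⟩
  · exact hc.comp_continuousOn (h1.comp hs fun x hx => ⟨x, hx, rfl⟩)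
  · have h4 : Submodule.span ℝ ((fun x => π (v (s x))) '' K) ≤
        (Submodule.span ℝ (v '' (s '' K))).map π := by
      rw [Submodule.span_le]
      rintro _ ⟨x, hx, rfl⟩
      exact Submodule.mem_map_of_mem (Submodule.subset_span ⟨_, ⟨x, hx, rfl⟩, rfl⟩)
    exact Submodule.finiteDimensional_of_le h4
  · intro x hx
    have h4 := h3 _ ⟨x, hx, rfl⟩
    have h5 : π (s x - v (s x)) = x - π (v (s x)) := by rw [map_sub, hsπ x hx]
    rw [← h5]
    exact h4

section Dense

variable {E : Type u} [AddCommGroup E] [Module ℝ E] [TopologicalSpace E]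
  [IsTopologicalAddGroup E] [ContinuousSMul ℝ E] [T2Space E]

omit [T2Space E] in
/-- Moving a finite-dimensional subspace into a dense subspace. -/
theorem exists_move {D : Submodule ℝ E} (hD : Dense (D : Set E)) {d : ℕ} (b : Fin d → E)
    {R : ℝ} (hR : 0 < R) {U : Set E} (hU : U ∈ 𝓝 (0 : E)) :
    ∃ b' : Fin d → D, ∀ c : Fin d → ℝ, (∀ i, |c i| ≤ R) → ∑ i, c i • ((b' i : E) - b i) ∈ U := by
  obtain ⟨W, hWo, hW0, hWb, hWU⟩ := exists_seq hU
  have h1 : ∀ i : Fin d, ∃ b' : D, R • ((b' : E) - b i) ∈ W i := by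
    intro i
    have hc : Continuous (fun z : E => R • (z - b i)) := by fun_prop
    have h2 : (fun z : E => R • (z - b i)) ⁻¹' W i ∈ 𝓝 (b i) :=
      hc.continuousAt.preimage_mem_nhds (by
        rw [sub_self, smul_zero]
        exact (hWo i).mem_nhds (hW0 i))
    obtain ⟨z, hz, hzD⟩ := hD.inter_nhds_nonempty h2
    exact ⟨⟨z, hz⟩, hzD⟩
  choose b' hb' using h1
  refine ⟨b', fun c hc => ?_⟩
  have h3 := hWU d (fun k => if h : k < d then c ⟨k, h⟩ • ((b' ⟨k, h⟩ : E) - b ⟨k, h⟩) else 0)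
    (fun k => by
      by_cases h : k < d
      · simp only [h, dif_pos]
        have h4 : c ⟨k, h⟩ • ((b' ⟨k, h⟩ : E) - b ⟨k, h⟩) =
            (c ⟨k, h⟩ / R) • (R • ((b' ⟨k, h⟩ : E) - b ⟨k, h⟩)) := by
          rw [smul_smul, div_mul_cancel₀ _ hR.ne']
        rw [h4]
        refine (hWb k).smul_mem ?_ (hb' ⟨k, h⟩)
        rw [Real.norm_eq_abs, abs_div, abs_of_pos hR, div_le_one hR]
        exact hc _
      · simp only [h, dif_neg, not_false_iff]
        exact hW0 k)
  rw [Finset.sum_range] at h3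
  simpa using h3

/-- A continuous finite-rank map on a compact space can be moved into a dense subspace. -/
theorem exists_dense_approx {D : Submodule ℝ E} (hD : Dense (D : Set E)) {X : Type v}
    [TopologicalSpace X] [CompactSpace X] {g : X → E} (hg : Continuous g)
    (hgd : FiniteDimensional ℝ (Submodule.span ℝ (range g))) {U : Set E} (hU : U ∈ 𝓝 (0 : E)) :
    ∃ g' : X → D, Continuous g' ∧ FiniteDimensional ℝ (Submodule.span ℝ (range g')) ∧
      ∀ x, (g' x : E) - g x ∈ U := by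
  obtain ⟨F, hF⟩ : ∃ F, F = Submodule.span ℝ (range g) := ⟨_, rfl⟩
  have hfd : FiniteDimensional ℝ F := by rw [hF]; exact hgd
  have hgm : ∀ x, g x ∈ F := fun x => by
    rw [hF]
    exact Submodule.subset_span ⟨x, rfl⟩
  obtain ⟨d, hd⟩ : ∃ d, d = Module.finrank ℝ F := ⟨_, rfl⟩
  have hfr : Module.finrank ℝ F = Module.finrank ℝ (Fin d → ℝ) := by
    rw [Module.finrank_fin_fun, hd]
  let e : F ≃L[ℝ] (Fin d → ℝ) := ContinuousLinearEquiv.ofFinrankEq hfr
  have hec : Continuous (fun x : X => e ⟨g x, hgm x⟩) :=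
    e.continuous.comp (Continuous.subtype_mk hg _)
  obtain ⟨R, hR⟩ := isCompact_univ.exists_bound_of_continuousOn hec.continuousOn
  have hR' : (0 : ℝ) < max R 1 := lt_max_of_lt_right one_pos
  obtain ⟨b', hb'⟩ := exists_move hD (fun i => ((e.symm (Pi.single i 1) : F) : E)) hR' hU
  refine ⟨fun x => ∑ i, e ⟨g x, hgm x⟩ i • b' i, ?_, ?_, ?_⟩
  · exact continuous_finsetSum _ fun i _ =>
      ((continuous_apply i).comp hec).smul continuous_const
  · have h2 : FiniteDimensional ℝ (Submodule.span ℝ (range b')) :=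
      FiniteDimensional.span_of_finite ℝ (Set.finite_range _)
    refine Submodule.finiteDimensional_of_le (S₂ := Submodule.span ℝ (range b')) ?_
    rw [Submodule.span_le]
    rintro _ ⟨x, rfl⟩
    exact Submodule.sum_mem _ fun i _ => Submodule.smul_mem _ _ (Submodule.subset_span ⟨i, rfl⟩)
  · intro x
    have h3 := hb' (e ⟨g x, hgm x⟩) (fun i => by
      have h4 := hR x (mem_univ x)
      have h5 := norm_le_pi_norm (e ⟨g x, hgm x⟩) i
      rw [Real.norm_eq_abs] at h5
      exact (h5.trans h4).trans (le_max_left _ _))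
    have h4 : ∑ i, e ⟨g x, hgm x⟩ i • ((e.symm (Pi.single i 1) : F) : E) = g x := by
      have h5 : e.symm (e ⟨g x, hgm x⟩) = ⟨g x, hgm x⟩ := e.symm_apply_apply _
      have h6 : e ⟨g x, hgm x⟩ = ∑ i, e ⟨g x, hgm x⟩ i • (Pi.single i (1 : ℝ) : Fin d → ℝ) := by
        ext j
        simp [Finset.sum_apply, Pi.single_apply]
      rw [h6, map_sum] at h5
      simp only [map_smul] at h5
      have h7 := congrArg (Subtype.val : F → E) h5
      rw [Submodule.coe_sum] at h7
      simpa using h7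
    have h5 : ((∑ i, e ⟨g x, hgm x⟩ i • b' i : D) : E) - g x =
        ∑ i, e ⟨g x, hgm x⟩ i • ((b' i : E) - ((e.symm (Pi.single i 1) : F) : E)) := by
      simp only [smul_sub, Finset.sum_sub_distrib]
      rw [h4, Submodule.coe_sum]
      simp
    show ((∑ i, e ⟨g x, hgm x⟩ i • b' i : D) : E) - g x ∈ U
    rw [h5]
    exact h3

/-- Approximability in a space gives approximability in its dense subspaces. -/
theorem approximable_of_dense {D : Submodule ℝ E} (hD : Dense (D : Set E)) {K : Set D}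
    (hK : IsCompact K) (h : Approximable (Subtype.val '' K : Set E)) : Approximable K := by
  have hKc : CompactSpace K := isCompact_iff_compactSpace.1 hK
  rw [approximable_iff]
  intro U hU
  rw [nhds_subtype_eq_comap, Filter.mem_comap] at hU
  obtain ⟨U', hU', hUU⟩ := hU
  obtain ⟨W, hWo, hW0, hWb, -, hW⟩ := exists_balanced hU'
  obtain ⟨v, h1, h2, h3⟩ := h W (hWo.mem_nhds hW0)
  have hg : Continuous (fun x : K => v ((x : D) : E)) := by
    have h4 : ContinuousOn (fun x : D => v (x : E)) K :=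
      h1.comp continuous_subtype_val.continuousOn fun x hx => ⟨x, hx, rfl⟩
    exact continuousOn_iff_continuous_domRestrict.1 h4
  have hgd : FiniteDimensional ℝ (Submodule.span ℝ (range (fun x : K => v ((x : D) : E)))) := by
    refine Submodule.finiteDimensional_of_le
      (S₂ := Submodule.span ℝ (v '' (Subtype.val '' K))) (Submodule.span_mono ?_)
    rintro _ ⟨x, rfl⟩
    exact ⟨_, ⟨x, x.2, rfl⟩, rfl⟩
  obtain ⟨g', hg', hgd', hgg⟩ := exists_dense_approx hD hg hgd (hWo.mem_nhds hW0)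
  refine ⟨g', hg', hgd', fun x => hUU ?_⟩
  show (((x : D) - g' x : D) : E) ∈ U'
  have h5 : (((x : D) - g' x : D) : E) =
      (((x : D) : E) - v ((x : D) : E)) + -((g' x : E) - v ((x : D) : E)) := by
    rw [Submodule.coe_sub]
    abel
  rw [h5]
  exact hW _ (h3 _ ⟨x, x.2, rfl⟩) _ (hWb.neg_mem_iff.2 (hgg x))

omit [IsTopologicalAddGroup E] [ContinuousSMul ℝ E] [T2Space E] in
/-- Maps on the simplex as a space. -/
theorem exists_phi {n : ℕ} {g : stdSimplex ℝ (Fin n) → E} (hg : Continuous g)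
    (hgd : FiniteDimensional ℝ (Submodule.span ℝ (range g))) :
    ∃ φ : (Fin n → ℝ) → E, ContinuousOn φ (stdSimplex ℝ (Fin n)) ∧
      FiniteDimensional ℝ (Submodule.span ℝ (φ '' stdSimplex ℝ (Fin n))) ∧
      ∀ x (hx : x ∈ stdSimplex ℝ (Fin n)), φ x = g ⟨x, hx⟩ := by
  classical
  refine ⟨fun x => if hx : x ∈ stdSimplex ℝ (Fin n) then g ⟨x, hx⟩ else 0, ?_, ?_, ?_⟩
  · rw [continuousOn_iff_continuous_domRestrict]
    have h4 : (stdSimplex ℝ (Fin n)).domRestrict
        (fun x => if hx : x ∈ stdSimplex ℝ (Fin n) then g ⟨x, hx⟩ else 0) = g := by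
      funext x
      simp only [Set.domRestrict_apply, x.2, dif_pos]
    rw [h4]
    exact hg
  · refine Submodule.finiteDimensional_of_le (S₂ := Submodule.span ℝ (range g))
      (Submodule.span_mono ?_)
    rintro _ ⟨x, hx, rfl⟩
    simp only [hx, dif_pos]
    exact ⟨_, rfl⟩
  · intro x hx
    simp only [hx, dif_pos]

/-- The simplex property passes to dense subspaces. -/
theorem SimplexProp.to_dense {D : Submodule ℝ E} (hD : Dense (D : Set E)) (h : SimplexProp E) :
    SimplexProp D := by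
  intro U hU
  rw [nhds_subtype_eq_comap, Filter.mem_comap] at hU
  obtain ⟨U', hU', hUU⟩ := hU
  obtain ⟨W, hWo, hW0, hWb, -, hW⟩ := exists_balanced hU'
  obtain ⟨V, hV, hVφ⟩ := h W (hWo.mem_nhds hW0)
  refine ⟨Subtype.val ⁻¹' V, continuous_subtype_val.continuousAt.preimage_mem_nhds hV,
    fun n m => ?_⟩
  obtain ⟨φ, h1, h2, h3⟩ := hVφ n (fun i => (m i : E))
  have hKc : CompactSpace (stdSimplex ℝ (Fin n)) :=
    isCompact_iff_compactSpace.1 (isCompact_stdSimplex ℝ (Fin n))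
  have hg : Continuous (fun x : stdSimplex ℝ (Fin n) => φ x.1) :=
    continuousOn_iff_continuous_domRestrict.1 h1
  have hgd : FiniteDimensional ℝ
      (Submodule.span ℝ (range (fun x : stdSimplex ℝ (Fin n) => φ x.1))) := by
    refine Submodule.finiteDimensional_of_le
      (S₂ := Submodule.span ℝ (φ '' stdSimplex ℝ (Fin n))) (Submodule.span_mono ?_)
    rintro _ ⟨x, rfl⟩
    exact ⟨_, x.2, rfl⟩
  obtain ⟨g', hg', hgd', hgg⟩ := exists_dense_approx hD hg hgd (hWo.mem_nhds hW0)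
  obtain ⟨ψ, hψ1, hψ2, hψ3⟩ := exists_phi hg' hgd'
  refine ⟨ψ, hψ1, hψ2, fun t ht i hi hj => hUU ?_⟩
  show ((ψ t - m i : D) : E) ∈ U'
  rw [hψ3 t ht]
  have h5 : ((g' ⟨t, ht⟩ - m i : D) : E) = ((g' ⟨t, ht⟩ : E) - φ t) + (φ t - m i) := by
    rw [Submodule.coe_sub]
    abel
  rw [h5]
  exact hW _ (hgg ⟨t, ht⟩) _ (h3 t ht i hi hj)

omit [T2Space E] in
/-- The simplex property passes from dense subspaces to the space. -/
theorem SimplexProp.of_dense {D : Submodule ℝ E} (hD : Dense (D : Set E)) (h : SimplexProp D) :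
    SimplexProp E := by
  intro U hU
  obtain ⟨W, hWo, hW0, hWb, -, hW⟩ := exists_balanced hU
  obtain ⟨V, hV, hVφ⟩ := h (Subtype.val ⁻¹' W)
    (continuous_subtype_val.continuousAt.preimage_mem_nhds (hWo.mem_nhds hW0))
  rw [nhds_subtype_eq_comap, Filter.mem_comap] at hV
  obtain ⟨V', hV', hVV⟩ := hV
  obtain ⟨V4, hV4o, hV40, hV4b, hV4V, hV4⟩ := exists_balanced4 hV'
  obtain ⟨T, hTo, hT0, hTb, hTI, -⟩ := exists_balanced
    (Filter.inter_mem (hWo.mem_nhds hW0) (hV4o.mem_nhds hV40))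
  refine ⟨T, hTo.mem_nhds hT0, fun n m => ?_⟩
  have hm : ∀ i, ∃ z : D, m i - z ∈ T := by
    intro i
    have hc : Continuous (fun z : E => m i - z) := by fun_prop
    have h2 : (fun z : E => m i - z) ⁻¹' T ∈ 𝓝 (m i) :=
      hc.continuousAt.preimage_mem_nhds (by
        rw [sub_self]
        exact hTo.mem_nhds hT0)
    obtain ⟨z, hz, hzD⟩ := hD.inter_nhds_nonempty h2
    exact ⟨⟨z, hz⟩, hzD⟩
  choose m' hm' using hm
  obtain ⟨φ, h1, h2, h3⟩ := hVφ n m'
  refine ⟨fun t => (φ t : E), ?_, ?_, ?_⟩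
  · exact continuous_subtype_val.comp_continuousOn h1
  · have h4 : Submodule.span ℝ ((fun t => (φ t : E)) '' stdSimplex ℝ (Fin n)) ≤
        (Submodule.span ℝ (φ '' stdSimplex ℝ (Fin n))).map D.subtype := by
      rw [Submodule.span_le]
      rintro _ ⟨x, hx, rfl⟩
      exact Submodule.mem_map_of_mem (f := D.subtype) (Submodule.subset_span ⟨x, hx, rfl⟩)
    exact Submodule.finiteDimensional_of_le h4
  · intro t ht i hi hj
    have h4 : φ t - m' i ∈ (Subtype.val ⁻¹' W : Set D) := by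
      refine h3 t ht i hi fun j hj' => hVV ?_
      show ((m' j - m' i : D) : E) ∈ V'
      have h5 : ((m' j - m' i : D) : E) =
          (m j - m i) + -(m j - m' j) + ((m i - m' i) + 0) := by
        rw [Submodule.coe_sub]
        abel
      rw [h5]
      exact hV4 _ (hTI (hj j hj')).2 _ (hV4b.neg_mem_iff.2 (hTI (hm' j)).2) _
        (hTI (hm' i)).2 _ hV40
    have h5 : (φ t : E) - m i = ((φ t - m' i : D) : E) + -(m i - m' i) := by
      rw [Submodule.coe_sub]
      abel
    rw [h5]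
    exact hW _ h4 _ (hWb.neg_mem_iff.2 (hTI (hm' i)).1)

end Dense

end Pool.Agent.H31.AD
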