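import Pool.Agent.H31.AD.PerSP
import Pool.Agent.H31.AD.Scat

/-!
Project MP_edf562_an (helper31): divisible spaces have the simplex property.
-/

set_option autoImplicit false

open Topology Set Pointwise

namespace Pool.Agent.H31.AD

universe u v

/-- If the topology is given by functions `p` such that finitely many vectors can be cut by linear
maps into `N` pieces of equal size, then the space has the simplex property. -/
theorem simplexProp_of_divisible {D : Type u} [AddCommGroup D] [Module ℝ D] [TopologicalSpace D]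
    [IsTopologicalAddGroup D] [ContinuousSMul ℝ D]
    (h : ∀ U ∈ 𝓝 (0 : D), ∃ p : D → ℝ, (∀ ε > 0, {x | p x < ε} ∈ 𝓝 (0 : D)) ∧
      (∃ ε > 0, {x | p x < ε} ⊆ U) ∧
      (∀ (n : ℕ) (x : Fin n → D), ∃ B : ℝ, ∀ c : Fin n → ℝ, (∀ i, c i ∈ Icc (0 : ℝ) 1) →
        p (∑ i, c i • x i) ≤ B) ∧
      ∀ (n : ℕ) (x : Fin n → D) (N : ℕ), 0 < N → ∃ P : ℕ → D →ₗ[ℝ] D,
        (∀ i, ∑ c ∈ Finset.range N, P c (x i) = x i) ∧
        ∀ y : ℕ → D, (∀ c, y c ∈ Submodule.span ℝ (range x)) →
          N * p (∑ c ∈ Finset.range N, P c (y c)) ≤ ∑ c ∈ Finset.range N, p (y c)) :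
    SimplexProp D := by
  classical
  intro U hU
  obtain ⟨p, hp1, ⟨ε, hε, hεU⟩, hB, hdiv⟩ := h U hU
  refine ⟨{x | p x < ε / 2}, hp1 _ (half_pos hε), fun n m => ?_⟩
  choose B hB using fun i : Fin n => hB n (fun j => m j - m i)
  obtain ⟨B', hB'⟩ : ∃ B' : ℝ, 0 ≤ B' ∧ ∀ i, B i ≤ B' :=
    ⟨∑ i, |B i|, Finset.sum_nonneg fun i _ => abs_nonneg _, fun i => (le_abs_self _).trans
      (Finset.single_le_sum (f := fun i => |B i|) (fun i _ => abs_nonneg _) (Finset.mem_univ i))⟩
  obtain ⟨N, hN⟩ := exists_nat_gt (2 * (n + 1) * B' / ε)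
  have hN0' : (0 : ℝ) < N := lt_of_le_of_lt (by have := hB'.1; positivity) hN
  have hN0 : 0 < N := by exact_mod_cast hN0'
  obtain ⟨P, hP1, hP2⟩ := hdiv n m N hN0
  refine ⟨fun t => ∑ c ∈ Finset.range N, ∑ j, coef N c t j • P c (m j), ?_, ?_, ?_⟩
  · refine Continuous.continuousOn ?_
    exact continuous_finsetSum _ fun c _ => continuous_finsetSum _ fun j _ =>
      (coef_continuous N c j).smul continuous_const
  · have h1 : Submodule.span ℝ ((fun t : Fin n → ℝ => ∑ c ∈ Finset.range N, ∑ j,
        coef N c t j • P c (m j)) '' stdSimplex ℝ (Fin n)) ≤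
        Submodule.span ℝ (range fun q : Fin n × Fin N => P q.2 (m q.1)) := by
      rw [Submodule.span_le]
      rintro _ ⟨t, -, rfl⟩
      refine Submodule.sum_mem _ fun c hc => Submodule.sum_mem _ fun j _ =>
        Submodule.smul_mem _ _ (Submodule.subset_span ⟨(j, ⟨c, Finset.mem_range.1 hc⟩), rfl⟩)
    have h2 : FiniteDimensional ℝ (Submodule.span ℝ (range fun q : Fin n × Fin N =>
        P q.2 (m q.1))) := FiniteDimensional.span_of_finite ℝ (Set.finite_range _)
    exact Submodule.finiteDimensional_of_le h1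
  · intro t ht i hi hj
    apply hεU
    show p (∑ c ∈ Finset.range N, ∑ j, coef N c t j • P c (m j) - m i) < ε
    have h1 : ∑ c ∈ Finset.range N, ∑ j, coef N c t j • P c (m j) - m i =
        ∑ c ∈ Finset.range N, P c (∑ j, coef N c t j • (m j - m i)) := by
      conv_lhs => rw [← hP1 i]
      rw [← Finset.sum_sub_distrib]
      refine Finset.sum_congr rfl fun c hc => ?_
      have h2 : ∑ j, coef N c t j • (m j - m i) = ∑ j, coef N c t j • m j - m i := by
        simp_rw [smul_sub]
        rw [Finset.sum_sub_distrib, ← Finset.sum_smul, sum_coef ht.2 (Finset.mem_range.1 hc),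
          one_smul]
      rw [h2, map_sub, map_sum]
      simp_rw [map_smul]
    rw [h1]
    have h3 := hP2 (fun c => ∑ j, coef N c t j • (m j - m i)) fun c =>
      Submodule.sum_mem _ fun j _ => Submodule.smul_mem _ _ (Submodule.sub_mem _
        (Submodule.subset_span ⟨j, rfl⟩) (Submodule.subset_span ⟨i, rfl⟩))
    have hcell : ∀ c ∈ Finset.range N, p (∑ j, coef N c t j • (m j - m i)) ≤
        (if Broken N c t then B' else 0) + ε / 2 := by
      intro c hc
      rw [Finset.mem_range] at hc
      by_cases hb : Broken N c t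
      · rw [if_pos hb]
        have hle : ∀ j, coef N c t j ≤ 1 := by
          intro j
          rw [← sum_coef ht.2 hc]
          exact Finset.single_le_sum (f := fun j => coef N c t j)
            (fun j _ => coef_nonneg ht.1 j) (Finset.mem_univ j)
        have h4 := hB i (fun j => coef N c t j) fun j => ⟨coef_nonneg ht.1 j, hle j⟩
        linarith [hB'.2 i]
      · rw [if_neg hb, zero_add]
        obtain ⟨j, hj1⟩ := exists_coef_eq_one ht.2 hc hb
        have htj : t j ≠ 0 := fun h => by
          rw [coef_eq_zero h] at hj1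
          exact zero_ne_one hj1
        have hother : ∀ k, k ≠ j → coef N c t k = 0 := by
          intro k hk
          have h1 := sum_coef ht.2 hc
          rw [← Finset.add_sum_erase _ _ (Finset.mem_univ j), hj1] at h1
          have h2 : ∑ x ∈ Finset.univ.erase j, coef N c t x = 0 := by linarith
          exact (Finset.sum_eq_zero_iff_of_nonneg fun x _ => coef_nonneg ht.1 x).1 h2 k
            (Finset.mem_erase.2 ⟨hk, Finset.mem_univ k⟩)
        have h5 : ∑ j, coef N c t j • (m j - m i) = m j - m i := by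
          rw [Finset.sum_eq_single_of_mem j (Finset.mem_univ j) fun k _ hk => by
            rw [hother k hk, zero_smul], hj1, one_smul]
        rw [h5]
        exact (hj j htj).le
    have h6 := h3.trans (Finset.sum_le_sum hcell)
    rw [Finset.sum_add_distrib, Finset.sum_const, Finset.card_range, ← Finset.sum_filter,
      Finset.sum_const, nsmul_eq_mul, nsmul_eq_mul] at h6
    have h7 : (((Finset.range N).filter (fun c => Broken N c t)).card : ℝ) ≤ n + 1 := by
      have := card_broken N t
      exact_mod_cast this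
    have h8 : (((Finset.range N).filter (fun c => Broken N c t)).card : ℝ) * B' ≤ (n + 1) * B' :=
      mul_le_mul_of_nonneg_right h7 hB'.1
    have h9 : 2 * ((n : ℝ) + 1) * B' < N * ε := by
      rwa [div_lt_iff₀ hε] at hN
    by_contra hcon
    push Not at hcon
    have h10 : (N : ℝ) * ε ≤ N * p (∑ c ∈ Finset.range N, P c (∑ j, coef N c t j • (m j - m i))) :=
      mul_le_mul_of_nonneg_left hcon hN0'.le
    linarith

/-- The simplex property passes from a space with a dense image (with the induced topology). -/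
theorem simplexProp_of_denseRange {D S : Type u} [AddCommGroup D] [Module ℝ D]
    [TopologicalSpace D] [AddCommGroup S] [Module ℝ S] [TopologicalSpace S]
    [IsTopologicalAddGroup S] [ContinuousSMul ℝ S] [T2Space S] (j : D →ₗ[ℝ] S)
    (hj : IsInducing j) (hd : DenseRange j) (h : SimplexProp D) : SimplexProp S := by
  have hR : Dense (LinearMap.range j : Set S) := by
    have h1 : (LinearMap.range j : Set S) = range j := LinearMap.coe_range j
    rw [h1]
    exact hd
  refine SimplexProp.of_dense hR ?_
  intro U hU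
  rw [nhds_subtype_eq_comap, Filter.mem_comap] at hU
  obtain ⟨U', hU', hUU⟩ := hU
  have h1 : j ⁻¹' U' ∈ 𝓝 (0 : D) := by
    rw [hj.nhds_eq_comap, map_zero]
    exact Filter.preimage_mem_comap hU'
  obtain ⟨V, hV, hφ⟩ := h _ h1
  rw [hj.nhds_eq_comap, map_zero, Filter.mem_comap] at hV
  obtain ⟨V', hV', hVV⟩ := hV
  refine ⟨Subtype.val ⁻¹' V', by
    rw [nhds_subtype_eq_comap]
    exact Filter.preimage_mem_comap hV', fun n m => ?_⟩
  choose m' hm' using fun i => (m i).2
  obtain ⟨φ, h2, h3, h4⟩ := hφ n m'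
  refine ⟨fun t => ⟨j (φ t), LinearMap.mem_range_self j _⟩, ?_, ?_, ?_⟩
  · rw [Topology.IsInducing.subtypeVal.continuousOn_iff]
    exact hj.continuous.comp_continuousOn h2
  · have h5 : Submodule.span ℝ ((fun t => (⟨j (φ t), LinearMap.mem_range_self j _⟩ :
        LinearMap.range j)) '' stdSimplex ℝ (Fin n)) ≤
        (Submodule.span ℝ (φ '' stdSimplex ℝ (Fin n))).map j.rangeRestrict := by
      rw [Submodule.span_le]
      rintro _ ⟨t, ht, rfl⟩
      exact Submodule.mem_map_of_mem (f := j.rangeRestrict) (Submodule.subset_span ⟨t, ht, rfl⟩)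
    exact Submodule.finiteDimensional_of_le h5
  · intro t ht i hi hij
    apply hUU
    show j (φ t) - (m i : S) ∈ U'
    rw [← hm' i, ← map_sub]
    refine h4 t ht i hi fun k hk => hVV ?_
    have h6 : (m k : S) - (m i : S) ∈ V' := hij k hk
    show j (m' k - m' i) ∈ V'
    rw [map_sub, hm' k, hm' i]
    exact h6

end Pool.Agent.H31.AD
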