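import Pool.Agent.H31.AD.Scat

/-!
Project MP_edf562_an (helper31): equivalent forms of Klee's problem.
-/

set_option autoImplicit false

open Topology Set Pointwise

namespace Pool.Agent.H31.AD

universe u v

/-- Products of two approximable sets. -/
theorem Approximable.prod {E : Type u} [AddCommGroup E] [Module ℝ E] [TopologicalSpace E]
    {F : Type v} [AddCommGroup F] [Module ℝ F] [TopologicalSpace F]
    {K : Set E} {L : Set F} (h : Approximable K) (h' : Approximable L) :
    Approximable (K ×ˢ L) := by
  intro U hU
  rw [Prod.zero_eq_mk, nhds_prod_eq, Filter.mem_prod_iff] at hU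
  obtain ⟨A, hA, B, hB, hAB⟩ := hU
  obtain ⟨v, h1, h2, h3⟩ := h A hA
  obtain ⟨w, g1, g2, g3⟩ := h' B hB
  refine ⟨fun z => (v z.1, w z.2), ?_, ?_, ?_⟩
  · exact (h1.comp continuous_fst.continuousOn fun z hz => hz.1).prodMk
      (g1.comp continuous_snd.continuousOn fun z hz => hz.2)
  · have h4 : Submodule.span ℝ ((fun z : E × F => (v z.1, w z.2)) '' K ×ˢ L) ≤
        (Submodule.span ℝ (v '' K)).map (LinearMap.inl ℝ E F) ⊔
          (Submodule.span ℝ (w '' L)).map (LinearMap.inr ℝ E F) := by
      rw [Submodule.span_le]
      rintro _ ⟨z, hz, rfl⟩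
      have h5 : (v z.1, w z.2) = LinearMap.inl ℝ E F (v z.1) + LinearMap.inr ℝ E F (w z.2) := by
        simp
      show (v z.1, w z.2) ∈ _
      rw [h5]
      exact Submodule.add_mem_sup
        (Submodule.mem_map_of_mem (Submodule.subset_span ⟨z.1, hz.1, rfl⟩))
        (Submodule.mem_map_of_mem (Submodule.subset_span ⟨z.2, hz.2, rfl⟩))
    exact Submodule.finiteDimensional_of_le h4
  · intro z hz
    exact hAB ⟨h3 _ hz.1, g3 _ hz.2⟩

/-- Approximability in a subspace gives approximability in the space. -/
theorem approximable_of_subspace {E : Type u} [AddCommGroup E] [Module ℝ E] [TopologicalSpace E]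
    {S : Submodule ℝ E} {K : Set S} (h : Approximable K) :
    Approximable (Subtype.val '' K : Set E) := by
  classical
  refine approximable_of_section S.subtype continuous_subtype_val
    (fun x => if hx : x ∈ S then ⟨x, hx⟩ else 0) ?_ ?_ ?_
  · rw [continuousOn_iff_continuous_domRestrict]
    have hm : ∀ x : (Subtype.val '' K : Set E), (x : E) ∈ S := by
      rintro ⟨_, ⟨x, -, rfl⟩⟩
      exact x.2
    have h1 : (Subtype.val '' K : Set E).domRestrict
        (fun x => if hx : x ∈ S then (⟨x, hx⟩ : S) else 0) = fun x => ⟨(x : E), hm x⟩ := by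
      funext x
      simp only [Set.domRestrict_apply, hm x, dif_pos]
    rw [h1]
    exact Continuous.subtype_mk continuous_subtype_val _
  · rintro _ ⟨x, -, rfl⟩
    have h1 : (x : E) ∈ S := x.2
    simp only [h1, dif_pos]
    rfl
  · have h1 : ((fun x => if hx : x ∈ S then (⟨x, hx⟩ : S) else 0) '' (Subtype.val '' K : Set E)) ⊆
        K := by
      rintro _ ⟨_, ⟨x, hxK, rfl⟩, rfl⟩
      have h1 : (x : E) ∈ S := x.2
      simp only [h1, dif_pos]
      exact hxK
    exact h.mono h1

section

variable {E : Type u} [AddCommGroup E] [Module ℝ E] [TopologicalSpace E]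
  [IsTopologicalAddGroup E] [ContinuousSMul ℝ E] [T2Space E]

theorem approximable_range_cantor {α : (ℕ → Bool) → E} (h : Continuous α)
    (hi : Function.Injective α) : Approximable (range α) :=
  approximable_of_totallyDisconnected (isCompact_range h)
    (((h.isClosedEmbedding hi).isEmbedding.isTotallyDisconnected_range).2 inferInstance)

end

end Pool.Agent.H31.AD
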