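import Pool.Agent.H31.AD.PropC

/-!
Project MP_edf562_an (helper31): the simplex property is stable under extensions; approximability
descends along surjections onto Hausdorff spaces with small kernels.
-/

set_option autoImplicit false

open Topology Set

namespace Pool.Agent.H31.AD

universe u v

section Four

variable {E : Type u} [AddCommGroup E] [Module ℝ E] [TopologicalSpace E]
  [IsTopologicalAddGroup E] [ContinuousSMul ℝ E]

theorem exists_balanced4 {U : Set E} (hU : U ∈ 𝓝 (0 : E)) :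
    ∃ W : Set E, IsOpen W ∧ (0 : E) ∈ W ∧ Balanced ℝ W ∧ W ⊆ U ∧
      ∀ a ∈ W, ∀ b ∈ W, ∀ c ∈ W, ∀ d ∈ W, a + b + (c + d) ∈ U := by
  obtain ⟨W1, h1, h2, h3, h4, h5⟩ := exists_balanced hU
  obtain ⟨W2, g1, g2, g3, g4, g5⟩ := exists_balanced (h1.mem_nhds h2)
  exact ⟨W2, g1, g2, g3, g4.trans h4, fun a ha b hb c hc d hd =>
    h5 _ (g5 a ha b hb) _ (g5 c hc d hd)⟩

end Four

/-- **The simplex property has the three-space property.** -/
theorem simplexProp_of_ker {E : Type u} [AddCommGroup E] [Module ℝ E] [TopologicalSpace E]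
    [IsTopologicalAddGroup E] [ContinuousSMul ℝ E] [T2Space E]
    {F : Type v} [AddCommGroup F] [Module ℝ F] [TopologicalSpace F]
    [IsTopologicalAddGroup F] [ContinuousSMul ℝ F] [T2Space F]
    (π : E →ₗ[ℝ] F) (hc : Continuous π) (ho : IsOpenMap π) (hs : Function.Surjective π)
    (hM : SimplexProp (LinearMap.ker π)) (hF : SimplexProp F) : SimplexProp E := by
  classical
  intro U hU
  obtain ⟨U2, hU2o, hU20, hU2b, hU2U, hU2⟩ := exists_balanced4 hU
  have hU2n : U2 ∈ 𝓝 (0 : E) := hU2o.mem_nhds hU20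
  have hUM : (Subtype.val : LinearMap.ker π → E) ⁻¹' U2 ∈ 𝓝 (0 : LinearMap.ker π) :=
    continuous_subtype_val.continuousAt.preimage_mem_nhds (by simpa using hU2n)
  obtain ⟨V1, hV1, hV1φ⟩ := hM _ hUM
  rw [nhds_subtype_eq_comap, Filter.mem_comap] at hV1
  obtain ⟨V', hV', hV'V⟩ := hV1
  obtain ⟨W1, hW1o, hW10, hW1b, hW1I, hW1⟩ := exists_balanced4
    (Filter.inter_mem hU2n (by simpa using hV') : U2 ∩ V' ∈ 𝓝 (0 : E))
  obtain ⟨W, hWo, hW0, hWb, hWW1, hW⟩ := exists_balanced (hW1o.mem_nhds hW10)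
  have hπW : π '' W ∈ 𝓝 (0 : F) := by
    have := ho.image_mem_nhds (hWo.mem_nhds hW0)
    rwa [map_zero] at this
  obtain ⟨VF, hVF, hVFφ⟩ := hF _ hπW
  have hVFp : π ⁻¹' VF ∈ 𝓝 (0 : E) := hc.continuousAt.preimage_mem_nhds (by rwa [map_zero])
  obtain ⟨V, hVo, hV0, hVb, hVI, hV⟩ := exists_balanced
    (Filter.inter_mem (hWo.mem_nhds hW0) hVFp)
  have hVd : ∀ a ∈ V, ∀ b ∈ V, a - b ∈ W ∩ π ⁻¹' VF := fun a ha b hb => by
    rw [sub_eq_add_neg]
    exact hV a ha _ (hVb.neg_mem_iff.2 hb)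
  have hWd : ∀ a ∈ W, ∀ b ∈ W, a - b ∈ W1 := fun a ha b hb => by
    rw [sub_eq_add_neg]
    exact hW a ha _ (hWb.neg_mem_iff.2 hb)
  refine ⟨V, hVo.mem_nhds hV0, ?_⟩
  intro n e
  obtain ⟨v, hv1, hv2, hv3⟩ := hVFφ n (fun i => π (e i))
  obtain ⟨s, hs'⟩ := LinearMap.exists_rightInverse_of_surjective π (LinearMap.range_eq_top.2 hs)
  have hsπ : ∀ z, π (s z) = z := fun z => LinearMap.congr_fun hs' z
  obtain ⟨Fv, hFv⟩ : ∃ Fv, Fv = Submodule.span ℝ (v '' stdSimplex ℝ (Fin n)) := ⟨_, rfl⟩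
  have hfd : FiniteDimensional ℝ Fv := by rw [hFv]; exact hv2
  have hvm : ∀ x ∈ stdSimplex ℝ (Fin n), v x ∈ Fv := fun x hx => by
    rw [hFv]
    exact Submodule.subset_span ⟨x, hx, rfl⟩
  have hKc : CompactSpace (stdSimplex ℝ (Fin n)) :=
    isCompact_iff_compactSpace.1 (isCompact_stdSimplex ℝ (Fin n))
  have hg : Continuous (fun x : stdSimplex ℝ (Fin n) => s (v x.1)) := by
    have h1 : Continuous (fun x : stdSimplex ℝ (Fin n) => (⟨v x.1, hvm x.1 x.2⟩ : Fv)) :=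
      Continuous.subtype_mk (continuousOn_iff_continuous_domRestrict.1 hv1) _
    have h3 : Continuous (s.domRestrict Fv) := LinearMap.continuous_of_finiteDimensional _
    exact h3.comp h1
  -- the finite cover of the simplex
  have hOo : ∀ x : stdSimplex ℝ (Fin n), IsOpen {x' : stdSimplex ℝ (Fin n) |
      s (v x'.1) - s (v x.1) ∈ W ∧ ∀ j, x.1 j ≠ 0 → x'.1 j ≠ 0} := by
    intro x
    refine IsOpen.inter (hWo.preimage (hg.sub continuous_const)) ?_
    have h1 : {x' : stdSimplex ℝ (Fin n) | ∀ j, x.1 j ≠ 0 → x'.1 j ≠ 0} =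
        ⋂ j, {x' : stdSimplex ℝ (Fin n) | x.1 j ≠ 0 → x'.1 j ≠ 0} := by
      ext x'
      simp
    show IsOpen {x' : stdSimplex ℝ (Fin n) | ∀ j, x.1 j ≠ 0 → x'.1 j ≠ 0}
    rw [h1]
    refine isOpen_iInter_of_finite fun j => ?_
    by_cases h2 : x.1 j = 0
    · simp [h2]
    · have h3 : {x' : stdSimplex ℝ (Fin n) | x.1 j ≠ 0 → x'.1 j ≠ 0} =
          {x' : stdSimplex ℝ (Fin n) | x'.1 j ≠ 0} := by
        ext x'
        simp [h2]
      rw [h3]
      exact isOpen_ne_fun ((continuous_apply j).comp continuous_subtype_val) continuous_const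
  obtain ⟨t, ht⟩ := isCompact_univ.elim_finite_subcover _ hOo (fun x _ => by
    rw [mem_iUnion]
    exact ⟨x, by simpa using hW0⟩)
  obtain ⟨N, hN⟩ : ∃ N, N = t.card := ⟨_, rfl⟩
  obtain ⟨en⟩ : Nonempty (Fin N ≃ t) := ⟨hN ▸ t.equivFin.symm⟩
  obtain ⟨pt, hpt⟩ : ∃ pt : Fin N → stdSimplex ℝ (Fin n), ∀ x ∈ t, ∃ i, pt i = x :=
    ⟨fun i => (en i).1, fun x hx => ⟨en.symm ⟨x, hx⟩, by simp⟩⟩
  obtain ⟨f, hf⟩ := PartitionOfUnity.exists_isSubordinate
    (s := (univ : Set (stdSimplex ℝ (Fin n)))) isClosed_univ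
    (fun i : Fin N => {x' : stdSimplex ℝ (Fin n) |
      s (v x'.1) - s (v (pt i).1) ∈ W ∧ ∀ j, (pt i).1 j ≠ 0 → x'.1 j ≠ 0})
    (fun i => hOo (pt i)) (fun x hx => by
      obtain ⟨x0, hx0⟩ := mem_iUnion.1 (ht hx)
      obtain ⟨h1, h2⟩ := mem_iUnion.1 hx0
      obtain ⟨i, rfl⟩ := hpt x0 h1
      exact mem_iUnion.2 ⟨i, h2⟩)
  have hfs : ∀ x : stdSimplex ℝ (Fin n), (fun i => f i x) ∈ stdSimplex ℝ (Fin N) := by
    intro x
    refine ⟨fun i => f.nonneg i x, ?_⟩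
    rw [← f.sum_eq_one (mem_univ x), finsum_eq_sum_of_fintype]
  have hfc : Continuous (fun x : stdSimplex ℝ (Fin n) => (fun i => f i x)) :=
    continuous_pi fun i => (f i).continuous
  -- the points of the kernel
  have hm : ∀ a : stdSimplex ℝ (Fin n), ∃ m : LinearMap.ker π,
      (∃ i, a.1 i ≠ 0 ∧ ∀ j, a.1 j ≠ 0 → π (e j) - π (e i) ∈ VF) →
        ∃ i, a.1 i ≠ 0 ∧ ∃ w ∈ W, (m : E) = w + e i - s (v a.1) := by
    intro a
    by_cases h : ∃ i, a.1 i ≠ 0 ∧ ∀ j, a.1 j ≠ 0 → π (e j) - π (e i) ∈ VF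
    · obtain ⟨i, hi, hij⟩ := h
      obtain ⟨w, hw, hwx⟩ := hv3 a.1 a.2 i hi hij
      refine ⟨⟨w + e i - s (v a.1), ?_⟩, fun _ => ⟨i, hi, w, hw, rfl⟩⟩
      rw [LinearMap.mem_ker, map_sub, map_add, hsπ, hwx]
      abel
    · exact ⟨0, fun h' => (h h').elim⟩
  choose m hm using hm
  obtain ⟨φ, hφc, hφd, hφ⟩ := hV1φ N (fun a => m (pt a))
  have hφT : Continuous (fun x : stdSimplex ℝ (Fin n) => φ (fun i => f i x)) :=
    hφc.comp_continuous hfc hfs
  refine ⟨fun x => if hx : x ∈ stdSimplex ℝ (Fin n) then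
    s (v x) + (φ (fun i => f i ⟨x, hx⟩) : E) else 0, ?_, ?_, ?_⟩
  · rw [continuousOn_iff_continuous_domRestrict]
    have h1 : (stdSimplex ℝ (Fin n)).domRestrict (fun x => if hx : x ∈ stdSimplex ℝ (Fin n) then
        s (v x) + (φ (fun i => f i ⟨x, hx⟩) : E) else 0) =
        fun x : stdSimplex ℝ (Fin n) => s (v x.1) + (φ (fun i => f i x) : E) := by
      funext x
      simp only [Set.domRestrict_apply, x.2, dif_pos]
    rw [h1]
    exact hg.add (continuous_subtype_val.comp hφT)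
  · have h1 : Submodule.span ℝ ((fun x => if hx : x ∈ stdSimplex ℝ (Fin n) then
        s (v x) + (φ (fun i => f i ⟨x, hx⟩) : E) else 0) '' stdSimplex ℝ (Fin n)) ≤
        Fv.map s ⊔ (Submodule.span ℝ (φ '' stdSimplex ℝ (Fin N))).map
          (LinearMap.ker π).subtype := by
      rw [Submodule.span_le]
      rintro _ ⟨x, hx, rfl⟩
      simp only [hx, dif_pos]
      refine Submodule.add_mem_sup (Submodule.mem_map_of_mem (hvm x hx)) ?_
      exact Submodule.mem_map_of_mem (Submodule.subset_span ⟨_, hfs ⟨x, hx⟩, rfl⟩)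
    exact Submodule.finiteDimensional_of_le h1
  · intro x hx i0 hi0 hj0
    simp only [hx, dif_pos]
    -- indices active at x
    have hact : ∀ a, f a ⟨x, hx⟩ ≠ 0 → s (v x) - s (v (pt a).1) ∈ W ∧
        ∃ i, (pt a).1 i ≠ 0 ∧ e i - e i0 ∈ V ∧ ∃ w ∈ W,
          (m (pt a) : E) = w + e i - s (v (pt a).1) := by
      intro a ha
      obtain ⟨h1, h2⟩ := hf a (subset_tsupport _ ha)
      refine ⟨h1, ?_⟩
      have h3 : ∃ i, (pt a).1 i ≠ 0 := by
        by_contra h4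
        push Not at h4
        have h5 := (pt a).2.2
        rw [Finset.sum_eq_zero fun i _ => h4 i] at h5
        exact zero_ne_one h5
      obtain ⟨i, hi⟩ := h3
      obtain ⟨i', hi', w, hw, hmw⟩ := hm (pt a) ⟨i, hi, fun j hj => by
        have h6 := (hVd _ (hj0 j (h2 j hj)) _ (hj0 i (h2 i hi))).2
        have h7 : e j - e i0 - (e i - e i0) = e j - e i := by abel
        rw [h7, mem_preimage, map_sub] at h6
        exact h6⟩
      exact ⟨i', hi', hj0 i' (h2 i' hi'), w, hw, hmw⟩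
    obtain ⟨a0, ha0⟩ := f.exists_pos (mem_univ (⟨x, hx⟩ : stdSimplex ℝ (Fin n)))
    obtain ⟨hA, i1, hi1, hei1, w1, hw1, hmw1⟩ := hact a0 ha0.ne'
    have hmj : ∀ a, f a ⟨x, hx⟩ ≠ 0 → m (pt a) - m (pt a0) ∈ V1 := by
      intro a ha
      apply hV'V
      show ((m (pt a) - m (pt a0) : LinearMap.ker π) : E) ∈ V'
      obtain ⟨hA', i2, hi2, hei2, w2, hw2, hmw2⟩ := hact a ha
      have h2 : ((m (pt a) - m (pt a0) : LinearMap.ker π) : E) =
          ((e i2 - e i0) - (e i1 - e i0)) + ((s (v x) - s (v (pt a).1)) - (s (v x) - s (v (pt a0).1))) +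
            (w2 + -w1) := by
        rw [Submodule.coe_sub, hmw1, hmw2]
        abel
      rw [h2]
      exact (hW1 _ (hWW1 (hVd _ hei2 _ hei1).1) _ (hWd _ hA' _ hA) _ (hWW1 hw2) _
        (hWW1 (hWb.neg_mem_iff.2 hw1))).2
    have h3 : ((φ (fun i => f i ⟨x, hx⟩) - m (pt a0) : LinearMap.ker π) : E) ∈ U2 :=
      hφ _ (hfs _) a0 ha0.ne' hmj
    have hWU2 : W ⊆ U2 := fun a ha => (hW1I (hWW1 ha)).1
    have h4 := hU2 _ (hWU2 hA) _ h3 _ (hWU2 hw1) _ (hWU2 (hVI hei1).1)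
    have h5 : s (v x) + (φ (fun i => f i ⟨x, hx⟩) : E) - e i0 =
        (s (v x) - s (v (pt a0).1)) + ((φ (fun i => f i ⟨x, hx⟩) - m (pt a0) : LinearMap.ker π) : E) +
          (w1 + (e i1 - e i0)) := by
      rw [Submodule.coe_sub, hmw1]
      abel
    rw [h5]
    exact h4

/-- If `E` has, for every neighbourhood `U` of `0`, a continuous linear surjection onto a Hausdorff
space which is approximable on the image of `K` and small enough on its kernel, then `K` is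
approximable. -/
theorem approximable_of_surj {E : Type u} [AddCommGroup E] [Module ℝ E] [TopologicalSpace E]
    [IsTopologicalAddGroup E] [ContinuousSMul ℝ E] {K U : Set E}
    {F : Type v} [AddCommGroup F] [Module ℝ F] [TopologicalSpace F]
    [IsTopologicalAddGroup F] [ContinuousSMul ℝ F] [T2Space F]
    (π : E →ₗ[ℝ] F) (hc : Continuous π) (hs : Function.Surjective π)
    (hπ : ∃ V ∈ 𝓝 (0 : F), π ⁻¹' V ⊆ U) (hK : Approximable (π '' K)) :
    ∃ h : E → E, ContinuousOn h K ∧ FiniteDimensional ℝ (Submodule.span ℝ (h '' K)) ∧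
      ∀ x ∈ K, x - h x ∈ U := by
  obtain ⟨V, hV, hVU⟩ := hπ
  obtain ⟨v, hv1, hv2, hv3⟩ := hK V hV
  obtain ⟨s, hs'⟩ := LinearMap.exists_rightInverse_of_surjective π (LinearMap.range_eq_top.2 hs)
  have hsπ : ∀ z, π (s z) = z := fun z => LinearMap.congr_fun hs' z
  obtain ⟨Fv, hFv⟩ : ∃ Fv, Fv = Submodule.span ℝ (v '' (π '' K)) := ⟨_, rfl⟩
  have hfd : FiniteDimensional ℝ Fv := by rw [hFv]; exact hv2
  have hvm : ∀ x ∈ K, v (π x) ∈ Fv := fun x hx => by
    rw [hFv]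
    exact Submodule.subset_span ⟨π x, ⟨x, hx, rfl⟩, rfl⟩
  refine ⟨fun x => s (v (π x)), ?_, ?_, ?_⟩
  · rw [continuousOn_iff_continuous_domRestrict]
    have h1 : Continuous (fun x : K => (⟨v (π x), hvm x x.2⟩ : Fv)) := by
      refine Continuous.subtype_mk ?_ _
      have h2 : ContinuousOn (fun x => v (π x)) K :=
        hv1.comp hc.continuousOn (fun x hx => ⟨x, hx, rfl⟩)
      exact continuousOn_iff_continuous_domRestrict.1 h2
    have h3 : Continuous (s.domRestrict Fv) := LinearMap.continuous_of_finiteDimensional _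
    exact h3.comp h1
  · have h1 : Submodule.span ℝ ((fun x => s (v (π x))) '' K) ≤ Fv.map s := by
      rw [Submodule.span_le]
      rintro _ ⟨x, hx, rfl⟩
      exact Submodule.mem_map_of_mem (hvm x hx)
    exact Submodule.finiteDimensional_of_le h1
  · intro x hx
    apply hVU
    show π (x - s (v (π x))) ∈ V
    rw [map_sub, hsπ]
    exact hv3 _ ⟨x, hx, rfl⟩

end Pool.Agent.H31.AD
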