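import Pool.Agent.H31.AD.Equiv

/-!
Project MP_edf562_an (helper31): approximability of a compact set is a topological property:
factorization through compact subsets of `ℝⁿ` and through open subsets of admissible spaces.
-/

set_option autoImplicit false

open Topology Set Pointwise

namespace Pool.Agent.H31.AD

universe u v

/-- Compact subsets of the line have property C. -/
theorem propertyC_of_real (Y : Set ℝ) (hY : IsCompact Y) : PropertyC Y := by
  classical
  have hYc : CompactSpace Y := isCompact_iff_compactSpace.1 hY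
  intro 𝒰 h𝒰
  have key : ∀ k, ∃ δ : ℝ, 0 < δ ∧ ∀ x : Y, ∃ u ∈ 𝒰 k, Metric.ball x δ ⊆ u := by
    intro k
    have h1 : (univ : Set Y) ⊆ ⋃₀ 𝒰 k := by rw [(h𝒰 k).2]
    obtain ⟨δ, hδ, h2⟩ := lebesgue_number_lemma_of_metric_sUnion isCompact_univ (h𝒰 k).1 h1
    exact ⟨δ, hδ, fun x => h2 x (mem_univ x)⟩
  choose δ hδ hball using key
  obtain ⟨m, hm⟩ := exists_nat_gt (max (1 / δ 0) (1 / δ 1))
  have hm0 : 1 / δ 0 < m := lt_of_le_of_lt (le_max_left _ _) hm
  have hm1 : 1 / δ 1 < m := lt_of_le_of_lt (le_max_right _ _) hm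
  have hmpos : (0 : ℝ) < m := lt_trans (by have := hδ 0; positivity) hm0
  let A : ℤ → Set Y := fun j => {y | (j : ℝ) < m * (y : ℝ) ∧ m * (y : ℝ) < j + 1}
  let B : ℤ → Set Y := fun j => {y | (j : ℝ) - 1 / 2 < m * (y : ℝ) ∧ m * (y : ℝ) < j + 1 / 2}
  have hc : Continuous (fun y : Y => (m : ℝ) * (y : ℝ)) :=
    continuous_const.mul continuous_subtype_val
  have hA : ∀ j, IsOpen (A j) := fun j =>
    (isOpen_lt continuous_const hc).inter (isOpen_lt hc continuous_const)
  have hB : ∀ j, IsOpen (B j) := fun j =>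
    (isOpen_lt continuous_const hc).inter (isOpen_lt hc continuous_const)
  have small : ∀ k, 1 / δ k < m → ∀ x y : Y, |(m : ℝ) * (x : ℝ) - m * (y : ℝ)| < 1 →
      y ∈ Metric.ball x (δ k) := by
    intro k hk x y hxy
    rw [Metric.mem_ball, Subtype.dist_eq, Real.dist_eq]
    rw [← mul_sub, abs_mul, abs_of_pos hmpos, abs_sub_comm] at hxy
    have h1 : 1 < δ k * m := by
      rw [div_lt_iff₀ (hδ k)] at hk
      linarith
    by_contra hcon
    push Not at hcon
    nlinarith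
  refine ⟨fun k => if k = 0 then {v | v.Nonempty ∧ ∃ j, v = A j} else
    if k = 1 then {v | v.Nonempty ∧ ∃ j, v = B j} else ∅, ?_, ?_⟩
  · intro k
    by_cases h0 : k = 0
    · subst h0
      simp only [if_true]
      refine ⟨?_, ?_⟩
      · rintro v ⟨⟨x, hx⟩, j, rfl⟩
        refine ⟨hA j, ?_⟩
        obtain ⟨u, hu, hxu⟩ := hball 0 x
        refine ⟨u, hu, fun y hy => hxu (small 0 hm0 x y ?_)⟩
        rw [abs_lt]
        constructor <;> linarith [hx.1, hx.2, hy.1, hy.2]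
      · rintro v ⟨-, j, rfl⟩ w ⟨-, j', rfl⟩ hvw
        rw [Function.onFun, Set.disjoint_left]
        intro x hx hx'
        apply hvw
        have h1 : (j : ℝ) < j' + 1 := lt_trans hx.1 hx'.2
        have h2 : (j' : ℝ) < j + 1 := lt_trans hx'.1 hx.2
        have h3 : j < j' + 1 := by exact_mod_cast h1
        have h4 : j' < j + 1 := by exact_mod_cast h2
        have h5 : j = j' := by omega
        rw [h5]
    · by_cases h1 : k = 1
      · subst h1
        simp only [one_ne_zero, if_false, if_true]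
        refine ⟨?_, ?_⟩
        · rintro v ⟨⟨x, hx⟩, j, rfl⟩
          refine ⟨hB j, ?_⟩
          obtain ⟨u, hu, hxu⟩ := hball 1 x
          refine ⟨u, hu, fun y hy => hxu (small 1 hm1 x y ?_)⟩
          rw [abs_lt]
          constructor <;> linarith [hx.1, hx.2, hy.1, hy.2]
        · rintro v ⟨-, j, rfl⟩ w ⟨-, j', rfl⟩ hvw
          rw [Function.onFun, Set.disjoint_left]
          intro x hx hx'
          apply hvw
          have h1 : (j : ℝ) < j' + 1 := by linarith [hx.1, hx'.2]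
          have h2 : (j' : ℝ) < j + 1 := by linarith [hx'.1, hx.2]
          have h3 : j < j' + 1 := by exact_mod_cast h1
          have h4 : j' < j + 1 := by exact_mod_cast h2
          have h5 : j = j' := by omega
          rw [h5]
      · simp only [h0, h1, if_false]
        exact ⟨fun v hv => hv.elim, fun v hv => hv.elim⟩
  · rw [eq_univ_iff_forall]
    intro y
    rw [mem_iUnion]
    by_cases h : (⌊(m : ℝ) * (y : ℝ)⌋ : ℝ) = m * (y : ℝ)
    · refine ⟨1, ?_⟩
      simp only [one_ne_zero, if_false, if_true]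
      have hy : y ∈ B ⌊(m : ℝ) * (y : ℝ)⌋ := by
        show (⌊(m : ℝ) * (y : ℝ)⌋ : ℝ) - 1 / 2 < m * (y : ℝ) ∧
          m * (y : ℝ) < ⌊(m : ℝ) * (y : ℝ)⌋ + 1 / 2
        rw [h]
        constructor <;> linarith
      exact ⟨_, ⟨⟨y, hy⟩, _, rfl⟩, hy⟩
    · refine ⟨0, ?_⟩
      simp only [if_true]
      have hy : y ∈ A ⌊(m : ℝ) * (y : ℝ)⌋ :=
        ⟨lt_of_le_of_ne (Int.floor_le _) h, Int.lt_floor_add_one _⟩
      exact ⟨_, ⟨⟨y, hy⟩, _, rfl⟩, hy⟩


/-- Fibre theorem for property C (metrizable case). -/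
theorem propertyC_of_fibers {X : Type u} [PseudoEMetricSpace X] [CompactSpace X] {Y : Type v}
    [TopologicalSpace Y] [T2Space Y] (hY : PropertyC Y) (f : X → Y) (hf : Continuous f)
    (hfib : ∀ y, PropertyC (f ⁻¹' {y})) : PropertyC X := by
  classical
  intro 𝒰 h𝒰
  obtain ⟨𝒱, h𝒱, hcov⟩ := hY (fun j => {N | IsOpen N ∧ ∃ 𝒱 : ℕ → Set (Set X),
    (∀ i, (∀ v ∈ 𝒱 i, IsOpen v ∧ ∃ u ∈ 𝒰 (Nat.pair j i), v ⊆ u) ∧ (𝒱 i).PairwiseDisjoint id) ∧
      f ⁻¹' N ⊆ ⋃ i, ⋃₀ 𝒱 i}) (fun j => ⟨fun N hN => hN.1, by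
    rw [eq_univ_iff_forall]
    intro y
    obtain ⟨𝒪, h𝒪, hcov⟩ := hfib y (fun i => {w | ∃ u ∈ 𝒰 (Nat.pair j i), w = Subtype.val ⁻¹' u})
      (fun i => ⟨by
        rintro _ ⟨u, hu, rfl⟩
        exact ((h𝒰 _).1 u hu).preimage continuous_subtype_val, by
        rw [eq_univ_iff_forall]
        intro x
        have h1 : (x : X) ∈ ⋃₀ 𝒰 (Nat.pair j i) := by
          rw [(h𝒰 _).2]
          trivial
        obtain ⟨u, hu, hxu⟩ := h1
        exact ⟨_, ⟨u, hu, rfl⟩, hxu⟩⟩)
    have hFc : IsClosed (f ⁻¹' {y}) := isClosed_singleton.preimage hf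
    let Ext : Set (f ⁻¹' {y}) → Set X := fun O =>
      {x | Metric.infEDist x (Subtype.val '' O) < Metric.infEDist x (Subtype.val '' Oᶜ)}
    have hExt : ∀ O, IsOpen (Ext O) := fun O =>
      isOpen_lt Metric.continuous_infEDist Metric.continuous_infEDist
    have hExt1 : ∀ O, IsOpen O → ∀ x ∈ O, (x : X) ∈ Ext O := by
      intro O hO x hx
      have h1 : Metric.infEDist (x : X) (Subtype.val '' O) = 0 :=
        Metric.infEDist_zero_of_mem ⟨x, hx, rfl⟩
      show Metric.infEDist (x : X) (Subtype.val '' O) < Metric.infEDist (x : X) (Subtype.val '' Oᶜ)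
      rw [h1, Metric.infEDist_pos_iff_notMem_closure]
      have h2 : IsClosed (Subtype.val '' Oᶜ : Set X) :=
        hFc.isClosedEmbedding_subtypeVal.isClosedMap _ hO.isClosed_compl
      rw [h2.closure_eq]
      rintro ⟨z, hz, hzx⟩
      exact hz (by rwa [Subtype.ext hzx])
    have hExt2 : ∀ O O', Disjoint O O' → Disjoint (Ext O) (Ext O') := by
      intro O O' hOO
      rw [Set.disjoint_left]
      intro x hx hx'
      have h1 : Metric.infEDist x (Subtype.val '' Oᶜ) ≤ Metric.infEDist x (Subtype.val '' O') :=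
        Metric.infEDist_anti (image_mono fun z hz hz' => Set.disjoint_left.1 hOO hz' hz)
      have h2 : Metric.infEDist x (Subtype.val '' O'ᶜ) ≤ Metric.infEDist x (Subtype.val '' O) :=
        Metric.infEDist_anti (image_mono fun z hz hz' => Set.disjoint_left.1 hOO hz hz')
      exact absurd (lt_of_lt_of_le hx h1) (not_lt.2 (lt_of_lt_of_le hx' h2).le)
    -- the families in `X`
    let 𝒱' : ℕ → Set (Set X) := fun i => {v | ∃ O ∈ 𝒪 i, ∃ u ∈ 𝒰 (Nat.pair j i),
      v = Ext O ∩ u ∧ (∀ x ∈ O, (x : X) ∈ u) ∧ u = Classical.epsilon fun u => u ∈ 𝒰 (Nat.pair j i) ∧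
        ∀ x ∈ O, (x : X) ∈ u}
    have hW : IsOpen (⋃ i, ⋃₀ 𝒱' i) := by
      refine isOpen_iUnion fun i => isOpen_sUnion ?_
      rintro _ ⟨O, hO, u, hu, rfl, -, -⟩
      exact (hExt O).inter ((h𝒰 _).1 u hu)
    have hFW : f ⁻¹' {y} ⊆ ⋃ i, ⋃₀ 𝒱' i := by
      intro x hx
      have h1 : (⟨x, hx⟩ : f ⁻¹' {y}) ∈ ⋃ i, ⋃₀ 𝒪 i := by
        rw [hcov]
        trivial
      rw [mem_iUnion] at h1 ⊢
      obtain ⟨i, O, hO, hxO⟩ := h1
      have h2 : ∃ u, u ∈ 𝒰 (Nat.pair j i) ∧ ∀ x ∈ O, (x : X) ∈ u := by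
        obtain ⟨w, ⟨u, hu, rfl⟩, hOw⟩ := ((h𝒪 i).1 O hO).2
        exact ⟨u, hu, fun x hx => hOw hx⟩
      have h3 := Classical.epsilon_spec h2
      refine ⟨i, _, ⟨O, hO, _, h3.1, rfl, h3.2, rfl⟩, ?_, h3.2 _ hxO⟩
      exact hExt1 O ((h𝒪 i).1 O hO).1 _ hxO
    have hfc : IsClosedMap f := hf.isClosedMap
    refine ⟨(f '' (⋃ i, ⋃₀ 𝒱' i)ᶜ)ᶜ, ⟨(hfc _ hW.isClosed_compl).isOpen_compl, 𝒱', fun i =>
      ⟨?_, ?_⟩, ?_⟩, ?_⟩
    · rintro _ ⟨O, hO, u, hu, rfl, -, -⟩
      exact ⟨(hExt O).inter ((h𝒰 _).1 u hu), u, hu, inter_subset_right⟩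
    · rintro _ ⟨O, hO, u, hu, rfl, -, hu'⟩ _ ⟨O', hO', u', hu'', rfl, -, hu3⟩ hne
      have h1 : O ≠ O' := by
        rintro rfl
        apply hne
        rw [hu', hu3]
      exact (hExt2 O O' ((h𝒪 i).2 hO hO' h1)).mono inter_subset_left inter_subset_left
    · intro x hx
      by_contra hcon
      exact hx ⟨x, hcon, rfl⟩
    · rintro ⟨x, hx, hxy⟩
      exact hx (hFW hxy)⟩)
  have h1 : ∀ (j : ℕ) (N : 𝒱 j), ∃ fam : ℕ → Set (Set X),
      (∀ i, (∀ v ∈ fam i, IsOpen v ∧ ∃ u ∈ 𝒰 (Nat.pair j i), v ⊆ u) ∧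
        (fam i).PairwiseDisjoint id) ∧ f ⁻¹' (N : Set Y) ⊆ ⋃ i, ⋃₀ fam i := by
    intro j N
    obtain ⟨-, W, ⟨-, fam, hfam, hfc⟩, hNW⟩ := (h𝒱 j).1 N N.2
    exact ⟨fam, hfam, (preimage_mono hNW).trans hfc⟩
  choose fam hfam hfc using h1
  refine ⟨fun k => {v | ∃ N : 𝒱 k.unpair.1, ∃ w ∈ fam k.unpair.1 N k.unpair.2,
    v = f ⁻¹' (N : Set Y) ∩ w}, fun k => ⟨?_, ?_⟩, ?_⟩
  · rintro _ ⟨N, w, hw, rfl⟩
    obtain ⟨h2, u, hu, hwu⟩ := (hfam _ N _).1 w hw
    rw [Nat.pair_unpair] at hu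
    exact ⟨(((h𝒱 _).1 N N.2).1.preimage hf).inter h2, u, hu, inter_subset_right.trans hwu⟩
  · rintro _ ⟨N, w, hw, rfl⟩ _ ⟨N', w', hw', rfl⟩ hne
    rw [Function.onFun, id, id, Set.disjoint_left]
    rintro x ⟨hx1, hx2⟩ ⟨hx3, hx4⟩
    apply hne
    have h2 : N = N' := by
      by_contra hcon
      have h3 := (h𝒱 _).2 N.2 N'.2 fun h => hcon (Subtype.ext h)
      exact Set.disjoint_left.1 h3 hx1 hx3
    subst h2
    have h3 : w = w' := by
      by_contra hcon
      exact Set.disjoint_left.1 ((hfam _ N _).2 hw hw' hcon) hx2 hx4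
    rw [h3]
  · rw [eq_univ_iff_forall]
    intro x
    have h2 : f x ∈ ⋃ k, ⋃₀ 𝒱 k := by
      rw [hcov]
      trivial
    rw [mem_iUnion] at h2
    obtain ⟨j, N, hN, hxN⟩ := h2
    have h3 := hfc j ⟨N, hN⟩ hxN
    rw [mem_iUnion] at h3
    obtain ⟨i, w, hw, hxw⟩ := h3
    rw [mem_iUnion]
    refine ⟨Nat.pair j i, f ⁻¹' N ∩ w, ?_, hxN, hxw⟩
    have key : ∀ p : ℕ × ℕ, p = (j, i) → ∃ N' : 𝒱 p.1, ∃ w' ∈ fam p.1 N' p.2,
        f ⁻¹' N ∩ w = f ⁻¹' (N' : Set Y) ∩ w' := by
      rintro _ rfl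
      exact ⟨⟨N, hN⟩, w, hw, rfl⟩
    exact key _ (Nat.unpair_pair j i)

/-- Compact metrizable spaces which embed in `ℝⁿ` have property C. -/
theorem propertyC_of_injective : ∀ (n : ℕ) {X : Type u} [MetricSpace X] [CompactSpace X]
    (f : X → (Fin n → ℝ)), Continuous f → Function.Injective f → PropertyC X
  | 0, X, _, _, f, hf, hi => by
    have h1 : Subsingleton X := ⟨fun x y => hi (Subsingleton.elim _ _)⟩
    exact propertyC_of_totallyDisconnected
  | n + 1, X, _, _, f, hf, hi => by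
    have hf0 : Continuous fun x : X => f x 0 := (continuous_apply 0).comp hf
    have hYc : IsCompact (range fun x : X => f x 0) := isCompact_range hf0
    have hg : Continuous (fun x : X => (⟨f x 0, x, rfl⟩ : range fun x : X => f x 0)) :=
      Continuous.subtype_mk hf0 _
    refine propertyC_of_fibers (propertyC_of_real _ hYc)
      (fun x : X => (⟨f x 0, x, rfl⟩ : range fun x : X => f x 0)) hg fun y => ?_
    have hc : CompactSpace ((fun x : X => (⟨f x 0, x, rfl⟩ : range fun x : X => f x 0)) ⁻¹' {y}) :=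
      isCompact_iff_compactSpace.1 (isClosed_singleton.preimage hg).isCompact
    refine propertyC_of_injective n (fun z j => f z j.succ) ?_ ?_
    · refine continuous_pi fun j => ?_
      exact (continuous_apply j.succ).comp (hf.comp continuous_subtype_val)
    · intro z z' hzz
      have h1 : f z = f z' := by
        funext j
        refine Fin.cases ?_ (fun i => ?_) j
        · have h2 : f z 0 = y := congrArg Subtype.val z.2
          have h3 : f z' 0 = y := congrArg Subtype.val z'.2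
          rw [h2, h3]
        · exact congrFun hzz i
      exact Subtype.ext (hi h1)

section

variable {E : Type u} [AddCommGroup E] [Module ℝ E] [TopologicalSpace E]
  [IsTopologicalAddGroup E] [ContinuousSMul ℝ E] [T2Space E]

/-- A compact Hausdorff space embeds in a cube. -/
theorem exists_cube (K : Type u) [TopologicalSpace K] [CompactSpace K] [T2Space K] :
    Function.Injective (fun (x : K) (φ : C(K, unitInterval)) => φ x) := by
  intro x y hxy
  by_contra hne
  obtain ⟨f, h0, h1, h2⟩ := exists_continuous_zero_one_of_isClosed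
    (isClosed_singleton (x := x)) (isClosed_singleton (x := y))
    (by rwa [Set.disjoint_singleton])
  have h3 := congrFun hxy ⟨fun z => ⟨f z, h2 z⟩, Continuous.subtype_mk f.continuous _⟩
  have h4 : f x = f y := congrArg Subtype.val h3
  have h5 : f x = 0 := h0 (mem_singleton x)
  have h6 : f y = 1 := h1 (mem_singleton y)
  rw [h5, h6] at h4
  exact zero_ne_one h4

/-- Maps from compact Hausdorff spaces with property C are limits of maps of finite rank. -/
theorem exists_finrank_of_propertyC {P : Type u} [TopologicalSpace P] [CompactSpace P] [T2Space P]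
    (hP : PropertyC P) {r : P → E} (hr : Continuous r) {U : Set E} (hU : U ∈ 𝓝 (0 : E)) :
    ∃ g : P → E, Continuous g ∧ FiniteDimensional ℝ (Submodule.span ℝ (range g)) ∧
      ∀ p, r p - g p ∈ U := by
  obtain ⟨ι, hι⟩ : ∃ ι : P → E × (C(P, unitInterval) → ℝ),
    ι = fun p => (r p, fun φ => (φ p : ℝ)) := ⟨_, rfl⟩
  have hc : Continuous ι := by
    rw [hι]
    exact hr.prodMk (continuous_pi fun φ => continuous_subtype_val.comp φ.continuous)
  have hi : Function.Injective ι := by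
    intro p q hpq
    rw [hι] at hpq
    apply exists_cube P
    funext φ
    exact Subtype.ext (congrFun (congrArg Prod.snd hpq) φ)
  have he := (hc.isClosedEmbedding hi).isEmbedding
  have hA : Approximable (range ι) := by
    refine approximable_of_fibers (isCompact_range hc) hP he.toHomeomorph.symm
      he.toHomeomorph.symm.continuous fun y => ?_
    refine (approximable_singleton (ι y)).mono ?_
    rintro _ ⟨z, hz, rfl⟩
    have h1 : he.toHomeomorph.symm z = y := hz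
    have h2 : z = he.toHomeomorph y := by rw [← h1, Homeomorph.apply_symm_apply]
    rw [h2]
    rfl
  obtain ⟨v, h1, h2, h3⟩ := hA (Prod.fst ⁻¹' U) (continuous_fst.continuousAt.preimage_mem_nhds hU)
  refine ⟨fun p => (v (ι p)).1, ?_, ?_, fun p => ?_⟩
  · exact continuous_fst.comp (h1.comp_continuous hc fun p => ⟨p, rfl⟩)
  · have h4 : Submodule.span ℝ (range fun p : P => (v (ι p)).1) ≤
        (Submodule.span ℝ (v '' range ι)).map
          (LinearMap.fst ℝ E (C(P, unitInterval) → ℝ)) := by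
      rw [Submodule.span_le]
      rintro _ ⟨p, rfl⟩
      exact Submodule.mem_map_of_mem (f := LinearMap.fst ℝ E (C(P, unitInterval) → ℝ))
        (Submodule.subset_span ⟨_, ⟨p, rfl⟩, rfl⟩)
    exact Submodule.finiteDimensional_of_le h4
  · have h5 : (ι p).1 - (v (ι p)).1 ∈ U := h3 _ ⟨p, rfl⟩
    rw [hι] at h5 ⊢
    exact h5

omit [Module ℝ E] [ContinuousSMul ℝ E] [T2Space E] in
/-- Uniform continuity near a compact set. -/
theorem exists_unif {F : Type v} [AddCommGroup F] [TopologicalSpace F] [IsTopologicalAddGroup F]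
    {G : Set F} (hG : IsOpen G) {r : G → E} (hr : Continuous r) {L : Set F} (hL : IsCompact L)
    (hLG : L ⊆ G) {U : Set E} (hU : U ∈ 𝓝 (0 : E)) :
    ∃ V ∈ 𝓝 (0 : F), ∀ w ∈ V, ∀ (y : F) (hy : y ∈ L), ∃ h : y + w ∈ G,
      r ⟨y, hLG hy⟩ - r ⟨y + w, h⟩ ∈ U := by
  classical
  have key : ∀ᶠ w in 𝓝 (0 : F), ∀ y ∈ L, ∃ (h : y + w ∈ G) (h' : y ∈ G),
      r ⟨y, h'⟩ - r ⟨y + w, h⟩ ∈ U := by
    refine IsCompact.eventually_forall_of_forall_eventually hL fun y hy => ?_
    have h1 : Filter.Tendsto (fun z : F × F => z.2 + z.1) (𝓝 ((0 : F), y)) (𝓝 y) := by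
      have h2 : Filter.Tendsto (fun z : F × F => z.2 + z.1) (𝓝 ((0 : F), y)) (𝓝 (y + 0)) :=
        (continuous_snd.add continuous_fst).tendsto _
      rwa [add_zero] at h2
    have h1' : Filter.Tendsto (fun z : F × F => z.2) (𝓝 ((0 : F), y)) (𝓝 y) :=
      continuous_snd.tendsto _
    obtain ⟨r', hr'⟩ : ∃ r' : F → E, r' = fun z => if h : z ∈ G then r ⟨z, h⟩ else 0 := ⟨_, rfl⟩
    have hrr : ∀ z (h : z ∈ G), r' z = r ⟨z, h⟩ := fun z h => by
      rw [hr']
      simp only [h, dif_pos]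
    have hc : ContinuousOn r' G := by
      rw [continuousOn_iff_continuous_domRestrict]
      have h4 : G.domRestrict r' = r := by
        funext z
        exact hrr z z.2
      rw [h4]
      exact hr
    have hca : ContinuousAt r' y := hc.continuousAt (hG.mem_nhds (hLG hy))
    have h3 : Filter.Tendsto (fun z : F × F => r' z.2 - r' (z.2 + z.1)) (𝓝 ((0 : F), y))
        (𝓝 (r' y - r' y)) := (hca.tendsto.comp h1').sub (hca.tendsto.comp h1)
    rw [sub_self] at h3
    filter_upwards [h3 hU, h1 (hG.mem_nhds (hLG hy)), h1' (hG.mem_nhds (hLG hy))] with z g1 g2 g3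
    refine ⟨g2, g3, ?_⟩
    have g4 : r' z.2 - r' (z.2 + z.1) ∈ U := g1
    rwa [hrr _ g2, hrr _ g3] at g4
  refine ⟨_, key, fun w hw y hy => ?_⟩
  obtain ⟨h, h', h3⟩ := hw y hy
  exact ⟨h, h3⟩

end

end Pool.Agent.H31.AD
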