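import Pool.Agent.H31.AD.Ext

/-!
Project MP_edf562_an (helper31): approximability of a compact set is a property of its finite subsets.
-/

set_option autoImplicit false

open Topology Set

namespace Pool.Agent.H31.AD

universe u v

/-- The simplex property for points of the set `K`. -/
def SimplexPropOn {M : Type u} [AddCommGroup M] [Module ℝ M] [TopologicalSpace M]
    (K : Set M) : Prop :=
  ∀ U ∈ 𝓝 (0 : M), ∃ V ∈ 𝓝 (0 : M), ∀ (n : ℕ) (m : Fin n → M), (∀ i, m i ∈ K) →
    ∃ φ : (Fin n → ℝ) → M, ContinuousOn φ (stdSimplex ℝ (Fin n)) ∧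
      FiniteDimensional ℝ (Submodule.span ℝ (φ '' stdSimplex ℝ (Fin n))) ∧
      ∀ t ∈ stdSimplex ℝ (Fin n), ∀ i, t i ≠ 0 → (∀ j, t j ≠ 0 → m j - m i ∈ V) → φ t - m i ∈ U

variable {E : Type u} [AddCommGroup E] [Module ℝ E] [TopologicalSpace E]
  [IsTopologicalAddGroup E] [ContinuousSMul ℝ E] [T2Space E]

theorem approximable_of_simplexPropOn {K : Set E} (hK : IsCompact K) (h : SimplexPropOn K) :
    Approximable K := by
  classical
  rw [approximable_iff]
  intro U hU
  obtain ⟨U2, hU2o, hU20, hU2b, -, hU2⟩ := exists_balanced hU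
  obtain ⟨V, hV, hVφ⟩ := h U2 (hU2o.mem_nhds hU20)
  obtain ⟨W, hWo, hW0, hWb, hWI, hW⟩ := exists_balanced
    (Filter.inter_mem (hU2o.mem_nhds hU20) hV)
  have hKc : CompactSpace K := isCompact_iff_compactSpace.1 hK
  have hOo : ∀ x : K, IsOpen {x' : K | (x' : E) - x ∈ W} :=
    fun x => hWo.preimage (continuous_subtype_val.sub continuous_const)
  obtain ⟨t, ht⟩ := isCompact_univ.elim_finite_subcover _ hOo (fun x _ => by
    rw [mem_iUnion]
    exact ⟨x, by simpa using hW0⟩)
  obtain ⟨n, hn⟩ : ∃ n, n = t.card := ⟨_, rfl⟩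
  obtain ⟨e⟩ : Nonempty (Fin n ≃ t) := ⟨hn ▸ t.equivFin.symm⟩
  obtain ⟨pt, hpt⟩ : ∃ pt : Fin n → K, ∀ x ∈ t, ∃ i, pt i = x :=
    ⟨fun i => (e i).1, fun x hx => ⟨e.symm ⟨x, hx⟩, by simp⟩⟩
  obtain ⟨f, hf⟩ := PartitionOfUnity.exists_isSubordinate (s := (univ : Set K)) isClosed_univ
    (fun i : Fin n => {x' : K | (x' : E) - pt i ∈ W})
    (fun i => hOo (pt i)) (fun x hx => by
      obtain ⟨x0, hx0⟩ := mem_iUnion.1 (ht hx)
      obtain ⟨h1, h2⟩ := mem_iUnion.1 hx0
      obtain ⟨i, rfl⟩ := hpt x0 h1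
      exact mem_iUnion.2 ⟨i, h2⟩)
  have hfs : ∀ x : K, (fun i => f i x) ∈ stdSimplex ℝ (Fin n) := by
    intro x
    refine ⟨fun i => f.nonneg i x, ?_⟩
    rw [← f.sum_eq_one (mem_univ x), finsum_eq_sum_of_fintype]
  have hfc : Continuous (fun x : K => (fun i => f i x)) := continuous_pi fun i => (f i).continuous
  obtain ⟨φ, hφc, hφd, hφ⟩ := hVφ n (fun i => (pt i : E)) (fun i => (pt i).2)
  refine ⟨fun x => φ (fun i => f i x), hφc.comp_continuous hfc hfs, ?_, ?_⟩
  · refine Submodule.finiteDimensional_of_le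
      (S₂ := Submodule.span ℝ (φ '' stdSimplex ℝ (Fin n))) (Submodule.span_mono ?_)
    rintro _ ⟨x, rfl⟩
    exact ⟨_, hfs x, rfl⟩
  · intro x
    obtain ⟨i, hi⟩ := f.exists_pos (mem_univ x)
    have hd : ∀ j, f j x ≠ 0 → (x : E) - pt j ∈ W := fun j hj => hf j (subset_tsupport _ hj)
    have h3 : φ (fun i => f i x) - pt i ∈ U2 := by
      refine hφ _ (hfs x) i hi.ne' fun j hj => ?_
      have h1 := (hW _ (hd i hi.ne') _ (hWb.neg_mem_iff.2 (hd j hj))).2
      have h2 : (x : E) - pt i + -((x : E) - pt j) = (pt j : E) - pt i := by abel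
      rwa [h2] at h1
    have h4 := hU2 _ (hWI (hd i hi.ne')).1 _ (hU2b.neg_mem_iff.2 h3)
    have h5 : (x : E) - pt i + -(φ (fun i => f i x) - pt i) = (x : E) - φ (fun i => f i x) := by
      abel
    rwa [h5] at h4

theorem simplexPropOn_of_approximable {K : Set E} (hK : IsCompact K) (h : Approximable K) :
    SimplexPropOn K := by
  classical
  intro U hU
  obtain ⟨W, hWo, hW0, hWb, -, hWU⟩ := exists_balanced hU
  obtain ⟨v, hv1, hv2, hv3⟩ := h W (hWo.mem_nhds hW0)
  obtain ⟨F, hF⟩ : ∃ F, F = Submodule.span ℝ (v '' K) := ⟨_, rfl⟩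
  have hfd : FiniteDimensional ℝ F := by rw [hF]; exact hv2
  have hvm : ∀ x ∈ K, v x ∈ F := fun x hx => by
    rw [hF]
    exact Submodule.subset_span ⟨x, hx, rfl⟩
  -- coordinates
  obtain ⟨d, hd⟩ : ∃ d, d = Module.finrank ℝ F := ⟨_, rfl⟩
  have hfr : Module.finrank ℝ F = Module.finrank ℝ (Fin d → ℝ) := by
    rw [Module.finrank_fin_fun, hd]
  let e : F ≃L[ℝ] (Fin d → ℝ) := ContinuousLinearEquiv.ofFinrankEq hfr
  have h1 : (fun z : Fin d → ℝ => ((e.symm z : F) : E)) ⁻¹' W ∈ 𝓝 (0 : Fin d → ℝ) := by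
    have hc : Continuous (fun z : Fin d → ℝ => ((e.symm z : F) : E)) :=
      continuous_subtype_val.comp e.symm.continuous
    refine hc.continuousAt.preimage_mem_nhds ?_
    have : ((e.symm 0 : F) : E) = 0 := by rw [map_zero]; rfl
    rw [this]
    exact hWo.mem_nhds hW0
  obtain ⟨δ, hδ, hδW⟩ := Metric.mem_nhds_iff.1 h1
  -- uniform continuity
  letI : UniformSpace E := IsTopologicalAddGroup.rightUniformSpace E
  haveI : IsUniformAddGroup E := isUniformAddGroup_of_addCommGroup
  have hgc : ContinuousOn (fun x : E => if hx : x ∈ K then e ⟨v x, hvm x hx⟩ else 0) K := by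
    rw [continuousOn_iff_continuous_domRestrict]
    have h2 : K.domRestrict (fun x : E => if hx : x ∈ K then e ⟨v x, hvm x hx⟩ else 0) =
        fun x : K => e ⟨v x, hvm x x.2⟩ := by
      funext x
      simp only [Set.domRestrict_apply, x.2, dif_pos]
    rw [h2]
    exact e.continuous.comp (Continuous.subtype_mk
      (continuousOn_iff_continuous_domRestrict.1 hv1) _)
  have huc := hK.uniformContinuousOn_of_continuous hgc
  have h3 := huc (Metric.dist_mem_uniformity (half_pos hδ))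
  rw [Filter.mem_map, Filter.mem_inf_principal, uniformity_eq_comap_nhds_zero,
    Filter.mem_comap] at h3
  obtain ⟨V, hV, hVK⟩ := h3
  refine ⟨V, hV, fun n m hm => ⟨fun t => ∑ j, t j • v (m j), ?_, ?_, ?_⟩⟩
  · exact Continuous.continuousOn (by fun_prop)
  · refine Submodule.finiteDimensional_of_le (S₂ := F) ?_
    rw [Submodule.span_le]
    rintro _ ⟨t, -, rfl⟩
    exact Submodule.sum_mem _ fun j _ => Submodule.smul_mem _ _ (hvm _ (hm j))
  · intro t ht i hi hj
    have h4 : ∀ j, t j ≠ 0 → dist (e ⟨v (m j), hvm _ (hm j)⟩) (e ⟨v (m i), hvm _ (hm i)⟩) < δ / 2 := by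
      intro j hj'
      have h5 := @hVK (m i, m j) (hj j hj') ⟨hm i, hm j⟩
      simp only [mem_preimage, Set.mem_ofPred_eq, hm i, hm j, dif_pos] at h5
      rw [dist_comm]
      exact h5
    have h6 : (∑ j, t j • v (m j)) - v (m i) ∈ W := by
      have h7 : (∑ j, t j • (e ⟨v (m j), hvm _ (hm j)⟩ - e ⟨v (m i), hvm _ (hm i)⟩)) ∈
          Metric.ball (0 : Fin d → ℝ) δ := by
        rw [Metric.mem_ball, dist_zero_right]
        refine lt_of_le_of_lt (norm_sum_le _ _) ?_
        have h8 : ∀ j ∈ Finset.univ, ‖t j • (e ⟨v (m j), hvm _ (hm j)⟩ -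
            e ⟨v (m i), hvm _ (hm i)⟩)‖ ≤ t j * (δ / 2) := by
          intro j _
          rw [norm_smul, Real.norm_of_nonneg (ht.1 j)]
          by_cases h9 : t j = 0
          · rw [h9, zero_mul, zero_mul]
          · refine mul_le_mul_of_nonneg_left ?_ (ht.1 j)
            rw [← dist_eq_norm]
            exact (h4 j h9).le
        refine lt_of_le_of_lt (Finset.sum_le_sum h8) ?_
        rw [← Finset.sum_mul, ht.2, one_mul]
        linarith
      have h8 := hδW h7
      have h9 : ((e.symm (∑ j, t j • (e ⟨v (m j), hvm _ (hm j)⟩ -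
          e ⟨v (m i), hvm _ (hm i)⟩)) : F) : E) = (∑ j, t j • v (m j)) - v (m i) := by
        rw [map_sum]
        simp only [map_smul, map_sub, ContinuousLinearEquiv.symm_apply_apply]
        rw [Submodule.coe_sum]
        simp only [Submodule.coe_smul, Submodule.coe_sub, smul_sub, Finset.sum_sub_distrib]
        rw [← Finset.sum_smul, ht.2, one_smul]
      rw [mem_preimage, h9] at h8
      exact h8
    have h7 := hWU _ h6 _ (hWb.neg_mem_iff.2 (hv3 _ (hm i)))
    have h8 : (∑ j, t j • v (m j)) - v (m i) + -(m i - v (m i)) = (∑ j, t j • v (m j)) - m i := by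
      abel
    rwa [h8] at h7

/-- **Finitary characterization.** -/
theorem approximable_iff_simplexPropOn {K : Set E} (hK : IsCompact K) :
    Approximable K ↔ SimplexPropOn K :=
  ⟨simplexPropOn_of_approximable hK, approximable_of_simplexPropOn hK⟩

omit [IsTopologicalAddGroup E] [ContinuousSMul ℝ E] [T2Space E] in
theorem SimplexProp.on (h : SimplexProp E) (K : Set E) : SimplexPropOn K := by
  intro U hU
  obtain ⟨V, hV, hVφ⟩ := h U hU
  exact ⟨V, hV, fun n m _ => hVφ n m⟩

/-- Spaces with the simplex property are admissible. -/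
theorem SimplexProp.admissible (h : SimplexProp E) : Admissible E :=
  fun _ hK => approximable_of_simplexPropOn hK (h.on _)

end Pool.Agent.H31.AD
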