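import Pool.Agent.H31.AD.Core

/-!
Project MP_edf562_an (helper31): the approximable compact sets of a topological vector space form a
σ-ideal.
-/

set_option autoImplicit false

open Topology Set

namespace Pool.Agent.H31.AD

universe u

section Defs

variable {E : Type u} [AddCommGroup E] [Module ℝ E] [TopologicalSpace E]

theorem Approximable.mono {K L : Set E} (h : Approximable K) (hL : L ⊆ K) : Approximable L := by
  intro U hU
  obtain ⟨f, h1, h2, h3⟩ := h U hU
  exact ⟨f, h1.mono hL, Submodule.finiteDimensional_of_le (Submodule.span_mono (image_mono hL)),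
    fun x hx => h3 x (hL hx)⟩

theorem approximable_empty : Approximable (∅ : Set E) := by
  intro U hU
  refine ⟨fun _ => 0, continuousOn_empty _, ?_, fun x hx => hx.elim⟩
  rw [image_empty, Submodule.span_empty]
  infer_instance

theorem approximable_iff {K : Set E} : Approximable K ↔ ∀ U ∈ 𝓝 (0 : E), ∃ g : K → E,
    Continuous g ∧ FiniteDimensional ℝ (Submodule.span ℝ (range g)) ∧ ∀ x : K, (x : E) - g x ∈ U := by
  classical
  constructor
  · intro h U hU
    obtain ⟨f, h1, h2, h3⟩ := h U hU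
    refine ⟨fun x => f x, continuousOn_iff_continuous_domRestrict.1 h1, ?_, fun x => h3 x x.2⟩
    have : range (fun x : K => f x) = f '' K := by
      ext y
      simp
    rw [this]
    exact h2
  · intro h U hU
    obtain ⟨g, h1, h2, h3⟩ := h U hU
    refine ⟨fun x => if hx : x ∈ K then g ⟨x, hx⟩ else 0, ?_, ?_, ?_⟩
    · rw [continuousOn_iff_continuous_domRestrict]
      have h4 : K.domRestrict (fun x => if hx : x ∈ K then g ⟨x, hx⟩ else 0) = g := by
        funext x
        simp only [Set.domRestrict_apply, x.2, dif_pos]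
      rw [h4]
      exact h1
    · refine Submodule.finiteDimensional_of_le (S₂ := Submodule.span ℝ (range g))
        (Submodule.span_mono ?_)
      rintro _ ⟨x, hx, rfl⟩
      simp only [hx, dif_pos]
      exact ⟨_, rfl⟩
    · intro x hx
      simp only [hx, dif_pos]
      exact h3 ⟨x, hx⟩

end Defs

variable {E : Type u} [AddCommGroup E] [Module ℝ E] [TopologicalSpace E]
  [IsTopologicalAddGroup E] [ContinuousSMul ℝ E] [T2Space E]

omit [T2Space E] in
/-- Small balanced neighbourhoods. -/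
theorem exists_balanced {U : Set E} (hU : U ∈ 𝓝 (0 : E)) :
    ∃ W : Set E, IsOpen W ∧ (0 : E) ∈ W ∧ Balanced ℝ W ∧ W ⊆ U ∧ ∀ a ∈ W, ∀ b ∈ W, a + b ∈ U := by
  obtain ⟨W1, h1, h2, h3, -, h4, -⟩ := exists_nhds_add_sub hU
  have h5 := (nhds_basis_balanced ℝ E).mem_iff.1 (h1.mem_nhds h2)
  obtain ⟨B, ⟨hB, hBb⟩, hBW⟩ := h5
  refine ⟨interior B, isOpen_interior, mem_interior_iff_mem_nhds.2 hB, ?_, ?_, ?_⟩
  · exact hBb.interior (mem_interior_iff_mem_nhds.2 hB)
  · exact fun a ha => h3 (hBW (interior_subset ha))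
  · exact fun a ha b hb => h4 a (hBW (interior_subset ha)) b (hBW (interior_subset hb))

omit [TopologicalSpace E] [IsTopologicalAddGroup E] [ContinuousSMul ℝ E] [T2Space E] in
theorem balanced_smul {W : Set E} (hW : Balanced ℝ W) {c : ℝ} (h0 : 0 ≤ c) (h1 : c ≤ 1) {a : E}
    (ha : a ∈ W) : c • a ∈ W :=
  hW.smul_mem (by rwa [Real.norm_of_nonneg h0]) ha

/-- An approximation on a closed subset extends to a continuous map of finite rank. -/
theorem Approximable.extend {K L : Set E} (hK : IsCompact K) (hL : IsCompact L)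
    (h : Approximable L) {W : Set E} (hW : W ∈ 𝓝 (0 : E)) :
    ∃ g : K → E, Continuous g ∧ FiniteDimensional ℝ (Submodule.span ℝ (range g)) ∧
      ∀ x : K, (x : E) ∈ L → (x : E) - g x ∈ W := by
  obtain ⟨f, h1, h2, h3⟩ := h W hW
  obtain ⟨F, hF⟩ : ∃ F, F = Submodule.span ℝ (f '' L) := ⟨_, rfl⟩
  have hfd : FiniteDimensional ℝ F := by rw [hF]; exact h2
  have hfm : ∀ x ∈ L, f x ∈ F := fun x hx => by
    rw [hF]
    exact Submodule.subset_span ⟨x, hx, rfl⟩
  have hKc : CompactSpace K := isCompact_iff_compactSpace.1 hK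
  have hT : TietzeExtension F := TietzeExtension.of_tvs ℝ
  have hs : IsClosed (Subtype.val ⁻¹' L : Set K) := hL.isClosed.preimage continuous_subtype_val
  have hm : ∀ x : (Subtype.val ⁻¹' L : Set K), ((x : K) : E) ∈ L := fun x => x.2
  have hc : Continuous (fun x : (Subtype.val ⁻¹' L : Set K) => (⟨f (x : K), hfm _ (hm x)⟩ : F)) := by
    refine Continuous.subtype_mk ?_ _
    have h4 : Continuous (fun x : L => f x) := continuousOn_iff_continuous_domRestrict.1 h1
    exact h4.comp (f := fun x : (Subtype.val ⁻¹' L : Set K) => (⟨((x : K) : E), hm x⟩ : L))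
      (Continuous.subtype_mk (continuous_subtype_val.comp continuous_subtype_val) _)
  obtain ⟨g, hg⟩ := ContinuousMap.exists_restrict_eq hs (⟨_, hc⟩ :
    C((Subtype.val ⁻¹' L : Set K), F))
  refine ⟨fun x => g x, continuous_subtype_val.comp g.continuous, ?_, ?_⟩
  · refine Submodule.finiteDimensional_of_le (S₂ := F) ?_
    rw [Submodule.span_le]
    rintro _ ⟨x, rfl⟩
    exact (g x).2
  · intro x hx
    have h5 := DFunLike.congr_fun hg (⟨x, hx⟩ : (Subtype.val ⁻¹' L : Set K))
    have h6 : (g x : E) = f x := by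
      have := congrArg (Subtype.val) h5
      simpa using this
    show (x : E) - (g x : E) ∈ W
    rw [h6]
    exact h3 x hx

/-- Gluing two finite-rank maps. -/
theorem exists_glue {K : Set E} (hK : IsCompact K) {U W : Set E} (hWo : IsOpen W) (hW0 : (0 : E) ∈ W)
    (hWb : Balanced ℝ W) (hWU : ∀ a ∈ W, ∀ b ∈ W, a + b ∈ U) {g g' : K → E} (hg : Continuous g)
    (hg' : Continuous g') (hgd : FiniteDimensional ℝ (Submodule.span ℝ (range g)))
    (hgd' : FiniteDimensional ℝ (Submodule.span ℝ (range g')))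
    (hcov : ∀ x : K, (x : E) - g x ∈ W ∨ (x : E) - g' x ∈ W) :
    ∃ h : K → E, Continuous h ∧ FiniteDimensional ℝ (Submodule.span ℝ (range h)) ∧
      ∀ x : K, (x : E) - h x ∈ U := by
  have hKc : CompactSpace K := isCompact_iff_compactSpace.1 hK
  have ho1 : IsOpen {x : K | (x : E) - g x ∈ W} := hWo.preimage (continuous_subtype_val.sub hg)
  have ho2 : IsOpen {x : K | (x : E) - g' x ∈ W} := hWo.preimage (continuous_subtype_val.sub hg')
  obtain ⟨l, hl0, hl1, hl⟩ := exists_continuous_zero_one_of_isClosed ho1.isClosed_compl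
    ho2.isClosed_compl (by
      rw [Set.disjoint_left]
      intro x hx hx'
      exact (hcov x).elim hx hx')
  refine ⟨fun x => l x • g x + (1 - l x) • g' x, ?_, ?_, ?_⟩
  · exact (l.continuous.smul hg).add ((continuous_const.sub l.continuous).smul hg')
  · refine Submodule.finiteDimensional_of_le
      (S₂ := Submodule.span ℝ (range g) ⊔ Submodule.span ℝ (range g')) ?_
    rw [Submodule.span_le]
    rintro _ ⟨x, rfl⟩
    exact Submodule.add_mem_sup (Submodule.smul_mem _ _ (Submodule.subset_span ⟨x, rfl⟩))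
      (Submodule.smul_mem _ _ (Submodule.subset_span ⟨x, rfl⟩))
  · intro x
    have h1 : (x : E) - (l x • g x + (1 - l x) • g' x) =
        l x • ((x : E) - g x) + (1 - l x) • ((x : E) - g' x) := by
      module
    show (x : E) - (l x • g x + (1 - l x) • g' x) ∈ U
    rw [h1]
    refine hWU _ ?_ _ ?_
    · by_cases hx : (x : E) - g x ∈ W
      · exact balanced_smul hWb (hl x).1 (hl x).2 hx
      · have : l x = 0 := hl0 hx
        rw [this, zero_smul]
        exact hW0
    · by_cases hx : (x : E) - g' x ∈ W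
      · exact balanced_smul hWb (by linarith [(hl x).2]) (by linarith [(hl x).1]) hx
      · have : l x = 1 := hl1 hx
        rw [this, sub_self, zero_smul]
        exact hW0

/-- Finite unions. -/
theorem Approximable.union {K L : Set E} (hK : IsCompact K) (hL : IsCompact L)
    (h : Approximable K) (h' : Approximable L) : Approximable (K ∪ L) := by
  rw [approximable_iff]
  intro U hU
  obtain ⟨W, hWo, hW0, hWb, -, hWU⟩ := exists_balanced hU
  obtain ⟨g, hg, hgd, hgW⟩ := h.extend (hK.union hL) hK (hWo.mem_nhds hW0)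
  obtain ⟨g', hg', hgd', hgW'⟩ := h'.extend (hK.union hL) hL (hWo.mem_nhds hW0)
  refine exists_glue (hK.union hL) hWo hW0 hWb hWU hg hg' hgd hgd' fun x => ?_
  exact x.2.elim (fun hx => Or.inl (hgW x hx)) (fun hx => Or.inr (hgW' x hx))

/-- If a closed subset and all closed sets off it are approximable, so is the whole set. -/
theorem approximable_of_rel {K L : Set E} (hK : IsCompact K) (hL : IsCompact L)
    (h : Approximable L) (hd : ∀ C : Set E, IsCompact C → C ⊆ K → Disjoint C L → Approximable C) :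
    Approximable K := by
  rw [approximable_iff]
  intro U hU
  obtain ⟨W, hWo, hW0, hWb, -, hWU⟩ := exists_balanced hU
  obtain ⟨g, hg, hgd, hgW⟩ := h.extend hK hL (hWo.mem_nhds hW0)
  have hKc : CompactSpace K := isCompact_iff_compactSpace.1 hK
  have ho1 : IsOpen {x : K | (x : E) - g x ∈ W} := hWo.preimage (continuous_subtype_val.sub hg)
  have hC : IsCompact ((↑) '' {x : K | (x : E) - g x ∈ W}ᶜ : Set E) :=
    (ho1.isClosed_compl.isCompact).image continuous_subtype_val
  have hCK : ((↑) '' {x : K | (x : E) - g x ∈ W}ᶜ : Set E) ⊆ K := by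
    rintro _ ⟨x, -, rfl⟩
    exact x.2
  have hCL : Disjoint ((↑) '' {x : K | (x : E) - g x ∈ W}ᶜ : Set E) L := by
    rw [Set.disjoint_left]
    rintro _ ⟨x, hx, rfl⟩ hxL
    exact hx (hgW x hxL)
  obtain ⟨g', hg', hgd', hgW'⟩ := (hd _ hC hCK hCL).extend hK hC (hWo.mem_nhds hW0)
  refine exists_glue hK hWo hW0 hWb hWU hg hg' hgd hgd' fun x => ?_
  by_cases hx : (x : E) - g x ∈ W
  · exact Or.inl hx
  · exact Or.inr (hgW' x ⟨x, hx, rfl⟩)

/-- Approximability is a local property of compact sets. -/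
theorem approximable_of_local {K : Set E} (hK : IsCompact K)
    (h : ∀ x ∈ K, ∃ C ∈ 𝓝[K] x, IsCompact C ∧ Approximable C) : Approximable K := by
  have key : ∃ C : Set E, IsCompact C ∧ K ⊆ C ∧ Approximable C := by
    refine hK.induction_on (p := fun s => ∃ C : Set E, IsCompact C ∧ s ⊆ C ∧ Approximable C)
      ⟨∅, isCompact_empty, subset_rfl, approximable_empty⟩ ?_ ?_ ?_
    · rintro s t hst ⟨C, h1, h2, h3⟩
      exact ⟨C, h1, hst.trans h2, h3⟩
    · rintro s t ⟨C, h1, h2, h3⟩ ⟨C', h1', h2', h3'⟩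
      exact ⟨C ∪ C', h1.union h1', union_subset_union h2 h2', h3.union h1 h1' h3'⟩
    · intro x hx
      obtain ⟨C, hC, h1, h2⟩ := h x hx
      exact ⟨C, hC, C, h1, subset_rfl, h2⟩
  obtain ⟨C, -, h2, h3⟩ := key
  exact h3.mono h2

/-- **The approximable compact sets form a σ-ideal.** -/
theorem approximable_of_iUnion {K : Set E} (hK : IsCompact K) {S : ℕ → Set E}
    (hS : ∀ n, IsCompact (S n)) (hSa : ∀ n, Approximable (S n)) (hKS : K ⊆ ⋃ n, S n) :
    Approximable K := by
  apply approximable_of_local hK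
  by_contra hcon
  push Not at hcon
  -- the set of bad points
  obtain ⟨O, hO⟩ : ∃ O : Set E, O = {x | ∃ C : Set E, C ∈ 𝓝[K] x ∧ IsCompact C ∧
    Approximable C} := ⟨_, rfl⟩
  have hOo : IsOpen O := by
    rw [isOpen_iff_mem_nhds]
    intro x hx
    rw [hO] at hx
    obtain ⟨C, h1, h2, h3⟩ := hx
    obtain ⟨G, hG, hGx, hGC⟩ := mem_nhdsWithin.1 h1
    refine Filter.mem_of_superset (hG.mem_nhds hGx) fun y hy => ?_
    rw [hO]
    exact ⟨C, mem_nhdsWithin.2 ⟨G, hG, hy, hGC⟩, h2, h3⟩
  obtain ⟨L, hLdef⟩ : ∃ L : Set E, L = K \ O := ⟨_, rfl⟩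
  have hL : IsCompact L := hLdef ▸ hK.diff hOo
  have hLK : ∀ y ∈ L, y ∈ K \ O := fun y hy => by rw [← hLdef]; exact hy
  have hLne : L.Nonempty := by
    obtain ⟨x, hx, hx'⟩ := hcon
    refine ⟨x, ?_⟩
    rw [hLdef]
    refine ⟨hx, fun hxO => ?_⟩
    rw [hO] at hxO
    obtain ⟨C, h1, h2, h3⟩ := hxO
    exact hx' C h1 h2 h3
  have hLc : CompactSpace L := isCompact_iff_compactSpace.1 hL
  have hLn : Nonempty L := hLne.to_subtype
  obtain ⟨n, x, hx⟩ := nonempty_interior_of_iUnion_of_closed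
    (f := fun n => ((↑) ⁻¹' S n : Set L))
    (fun n => (hS n).isClosed.preimage continuous_subtype_val) (by
      rw [eq_univ_iff_forall]
      intro x
      have h1 : (x : E) ∈ K := (hLK x x.2).1
      obtain ⟨n, hn⟩ := mem_iUnion.1 (hKS h1)
      exact mem_iUnion.2 ⟨n, hn⟩)
  obtain ⟨V, hVS, hVo, hxV⟩ := mem_interior.1 hx
  obtain ⟨G, hG, hGV⟩ := isOpen_induced_iff.1 hVo
  have hxG : (x : E) ∈ G := by
    have : x ∈ (Subtype.val ⁻¹' G : Set L) := by rw [hGV]; exact hxV
    exact this
  obtain ⟨D, hD, hDc, hDG⟩ := exists_mem_nhds_isClosed_subset (hG.mem_nhds hxG)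
  have hxK : (x : E) ∈ K \ O := hLK x x.2
  apply hxK.2
  rw [hO]
  have hKD : IsCompact (K ∩ D) := hK.inter_right hDc
  refine ⟨K ∩ D, Filter.inter_mem self_mem_nhdsWithin (mem_nhdsWithin_of_mem_nhds hD), hKD, ?_⟩
  refine approximable_of_rel (L := (K ∩ D) ∩ L) hKD (hKD.inter hL) ((hSa n).mono ?_) ?_
  · rintro y ⟨hy1, hy2⟩
    have h1 : (⟨y, hy2⟩ : L) ∈ V := by
      rw [← hGV]
      exact hDG hy1.2
    exact hVS h1
  · intro C hC hCK hCL
    apply approximable_of_local hC
    intro y hy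
    have hyO : y ∈ O := by
      by_contra h1
      refine Set.disjoint_left.1 hCL hy ⟨hCK hy, ?_⟩
      rw [hLdef]
      exact ⟨(hCK hy).1, h1⟩
    rw [hO] at hyO
    obtain ⟨C', h1, h2, h3⟩ := hyO
    exact ⟨C', nhdsWithin_mono y (fun z hz => (hCK hz).1) h1, h2, h3⟩

end Pool.Agent.H31.AD
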