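import Pool.Agent.H31.AD.Equiv

/-!
Project MP_edf562_an (helper31): sums of a Cantor set and a Cantor set in a line.
-/

set_option autoImplicit false

open Topology Set Pointwise

namespace Pool.Agent.H31.AD

universe u

/-- In the product with a line every compact set is part of the sum of a Cantor set and a copy of
the ternary set in the line. -/
theorem approximable_of_lineSums {E : Type u} [AddCommGroup E] [Module ℝ E] [TopologicalSpace E]
    [TopologicalSpace.MetrizableSpace E] {K : Set E} (hK : IsCompact K)
    (h : ∀ (β : (ℕ → Bool) → E × ℝ) (e : E × ℝ), Continuous β → Function.Injective β →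
      Approximable (range β + (fun r : ℝ => r • e) '' cantorSet)) : Approximable K := by
  rcases K.eq_empty_or_nonempty with rfl | hne
  · exact approximable_empty
  obtain ⟨f, hf, hfK⟩ := exists_cantor hK hne
  refine approximable_of_prod' (0 : ℝ) ((h (fun c => (f c, -io c)) ((0 : E), (1 : ℝ))
    ?_ ?_).mono ?_)
  · exact hf.prodMk io_continuous.neg
  · exact fun c c' hcc => io_injective (neg_injective (congrArg Prod.snd hcc))
  · rintro _ ⟨x, hx, rfl⟩
    rw [← hfK] at hx
    obtain ⟨c, rfl⟩ := hx
    refine ⟨_, ⟨c, rfl⟩, _, ⟨io c, (cantorSetHomeomorphNatToBool.symm c).2, rfl⟩, ?_⟩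
    show (f c, -io c) + io c • ((0 : E), (1 : ℝ)) = (f c, (0 : ℝ))
    simp

/-- Compact subsets of a line are approximable. -/
theorem approximable_line {E : Type u} [AddCommGroup E] [Module ℝ E] [TopologicalSpace E]
    (e : E) (S : Set ℝ) : Approximable ((fun r : ℝ => r • e) '' S) := by
  intro U hU
  refine ⟨id, continuousOn_id, ?_, fun x _ => ?_⟩
  · have h1 : Submodule.span ℝ (id '' ((fun r : ℝ => r • e) '' S)) ≤
        Submodule.span ℝ {e} := by
      rw [image_id, Submodule.span_le]
      rintro _ ⟨r, -, rfl⟩
      exact Submodule.smul_mem _ _ (Submodule.mem_span_singleton_self e)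
    have h2 : FiniteDimensional ℝ (Submodule.span ℝ ({e} : Set E)) :=
      FiniteDimensional.span_of_finite ℝ (Set.finite_singleton e)
    exact Submodule.finiteDimensional_of_le h1
  · rw [id, sub_self]
    exact mem_of_mem_nhds hU

end Pool.Agent.H31.AD
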