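import Pool.Agent.H31.AD.Sum

/-!
Project MP_edf562_an (helper31): Klee's problem is the problem of stars `[0, 1] • A` over Cantor sets
`A` in metrizable spaces.
-/

set_option autoImplicit false

open Topology Set Pointwise

namespace Pool.Agent.H31.AD

universe u v

section String

variable {E : Type u} [AddCommGroup E] [Module ℝ E] [TopologicalSpace E]
  [IsTopologicalAddGroup E] [ContinuousSMul ℝ E]

theorem exists_string {U : Set E} (hU : U ∈ 𝓝 (0 : E)) :
    ∃ W : ℕ → Set E, W 0 ⊆ U ∧ (∀ k, W k ∈ 𝓝 (0 : E)) ∧ (∀ k, Balanced ℝ (W k)) ∧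
      ∀ k, ∀ a ∈ W (k + 1), ∀ b ∈ W (k + 1), a + b ∈ W k := by
  have step : ∀ V : {V : Set E // V ∈ 𝓝 (0 : E)}, ∃ W : {W : Set E // W ∈ 𝓝 (0 : E)},
      (W : Set E) ⊆ V ∧ Balanced ℝ (W : Set E) ∧
        ∀ a ∈ (W : Set E), ∀ b ∈ (W : Set E), a + b ∈ (V : Set E) := by
    intro V
    obtain ⟨W, h1, h2, h3, h5, h4⟩ := exists_balanced V.2
    exact ⟨⟨W, h1.mem_nhds h2⟩, h5, h3, h4⟩
  choose nxt hs hb hadd using step
  let seq : ℕ → {V : Set E // V ∈ 𝓝 (0 : E)} := fun n => Nat.rec (nxt ⟨U, hU⟩) (fun _ V => nxt V) n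
  refine ⟨fun k => (seq k).1, hs ⟨U, hU⟩, fun k => (seq k).2, fun k => ?_, fun k => ?_⟩
  · cases k with
    | zero => exact hb ⟨U, hU⟩
    | succ k => exact hb (seq k)
  · exact hadd (seq k)

/-- A copy of `E` without topology. -/
def Alt (E : Type u) : Type u := E

noncomputable instance : AddCommGroup (Alt E) := inferInstanceAs (AddCommGroup E)
noncomputable instance : Module ℝ (Alt E) := inferInstanceAs (Module ℝ E)

/-- The identity. -/
noncomputable def toAlt : E →ₗ[ℝ] Alt E where
  toFun x := x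
  map_add' _ _ := rfl
  map_smul' _ _ := rfl

omit [TopologicalSpace E] [IsTopologicalAddGroup E] [ContinuousSMul ℝ E] in
theorem toAlt_surjective : Function.Surjective (toAlt : E → Alt E) := fun x => ⟨x, rfl⟩

/-- The linear topology given by a string. -/
noncomputable def altBasis (W : ℕ → Set E) (hW : ∀ k, W k ∈ 𝓝 (0 : E))
    (hb : ∀ k, Balanced ℝ (W k)) (ha : ∀ k, ∀ a ∈ W (k + 1), ∀ b ∈ W (k + 1), a + b ∈ W k) :
    ModuleFilterBasis ℝ (Alt E) where
  sets := {S | ∃ k, S = toAlt '' W k}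
  nonempty := ⟨_, 0, rfl⟩
  inter_sets := by
    have hmono : Antitone W := antitone_nat_of_succ_le fun k x hx => by
      have := ha k x hx 0 (mem_of_mem_nhds (hW (k + 1)))
      rwa [add_zero] at this
    rintro _ _ ⟨k, rfl⟩ ⟨l, rfl⟩
    exact ⟨_, ⟨max k l, rfl⟩, subset_inter (image_mono (hmono (le_max_left _ _)))
      (image_mono (hmono (le_max_right _ _)))⟩
  zero' := by
    rintro _ ⟨k, rfl⟩
    exact ⟨0, mem_of_mem_nhds (hW k), rfl⟩
  add' := by
    rintro _ ⟨k, rfl⟩
    refine ⟨_, ⟨k + 1, rfl⟩, ?_⟩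
    rintro _ ⟨_, ⟨a, haW, rfl⟩, _, ⟨b, hbW, rfl⟩, rfl⟩
    exact ⟨a + b, ha k a haW b hbW, rfl⟩
  neg' := by
    rintro _ ⟨k, rfl⟩
    refine ⟨_, ⟨k, rfl⟩, ?_⟩
    rintro _ ⟨a, haW, rfl⟩
    exact ⟨-a, (hb k).neg_mem_iff.2 haW, rfl⟩
  conj' := by
    rintro x _ ⟨k, rfl⟩
    refine ⟨_, ⟨k, rfl⟩, ?_⟩
    rintro y hy
    show x + y + -x ∈ toAlt '' W k
    rw [add_neg_cancel_comm]
    exact hy
  smul' := by
    rintro _ ⟨k, rfl⟩
    refine ⟨Metric.closedBall 0 1, Metric.closedBall_mem_nhds _ one_pos, _, ⟨k, rfl⟩, ?_⟩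
    rintro _ ⟨c, hc, _, ⟨a, haW, rfl⟩, rfl⟩
    exact ⟨c • a, (hb k).smul_mem (by simpa using hc) haW, rfl⟩
  smul_left' := by
    rintro c _ ⟨k, rfl⟩
    have h2 : ∀ j k, ∀ x ∈ W (k + j), (2 ^ j : ℝ) • x ∈ W k := by
      intro j
      induction j with
      | zero => intro k x hx; simpa using hx
      | succ j ih =>
        intro k x hx
        have h3 := ih k (x + x) (ha (k + j) x hx x hx)
        rwa [← two_smul ℝ x, smul_smul, ← pow_succ] at h3
    obtain ⟨j, hj⟩ := pow_unbounded_of_one_lt |c| (one_lt_two (α := ℝ))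
    refine ⟨_, ⟨k + j, rfl⟩, ?_⟩
    rintro _ ⟨a, haW, rfl⟩
    refine ⟨c • a, ?_, rfl⟩
    have h4 : c • a = (c / 2 ^ j) • ((2 ^ j : ℝ) • a) := by
      rw [smul_smul, div_mul_cancel₀]
      positivity
    rw [h4]
    refine (hb k).smul_mem ?_ (h2 j k a haW)
    rw [Real.norm_eq_abs, abs_div, abs_of_pos (by positivity : (0 : ℝ) < 2 ^ j), div_le_one
      (by positivity)]
    exact hj.le
  smul_right' := by
    rintro x _ ⟨k, rfl⟩
    obtain ⟨x, rfl⟩ := toAlt_surjective x
    have h2 : Continuous (fun c : ℝ => c • x) := continuous_id.smul continuous_const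
    have h3 : (fun c : ℝ => c • x) ⁻¹' W k ∈ 𝓝 (0 : ℝ) :=
      h2.continuousAt.preimage_mem_nhds (by rw [zero_smul]; exact hW k)
    filter_upwards [h3] with c hc
    exact ⟨c • x, hc, rfl⟩

/-- For every neighbourhood `U` of `0` there is a continuous linear surjection onto a metrizable
space, such that the preimage of some neighbourhood of `0` lies in `U`. -/
theorem exists_metrizable {U : Set E} (hU : U ∈ 𝓝 (0 : E)) :
    ∃ (F : Type u) (_ : AddCommGroup F) (_ : Module ℝ F) (_ : TopologicalSpace F)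
      (_ : IsTopologicalAddGroup F) (_ : ContinuousSMul ℝ F)
      (_ : TopologicalSpace.MetrizableSpace F) (π : E →ₗ[ℝ] F),
      Continuous π ∧ Function.Surjective π ∧ ∃ V ∈ 𝓝 (0 : F), π ⁻¹' V ⊆ U := by
  obtain ⟨W, hWU, hW, hb, ha⟩ := exists_string hU
  letI t : TopologicalSpace (Alt E) := (altBasis W hW hb ha).topology
  haveI : IsTopologicalAddGroup (Alt E) :=
    (altBasis W hW hb ha).toAddGroupFilterBasis.isTopologicalAddGroup
  haveI : ContinuousSMul ℝ (Alt E) := (altBasis W hW hb ha).continuousSMul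
  have hbas : (𝓝 (0 : Alt E)).HasBasis (fun _ : ℕ => True) (fun k => toAlt '' W k) := by
    refine ⟨fun S => ?_⟩
    rw [(altBasis W hW hb ha).toAddGroupFilterBasis.nhds_zero_hasBasis.mem_iff]
    constructor
    · rintro ⟨V, ⟨k, rfl⟩, hV⟩
      exact ⟨k, trivial, hV⟩
    · rintro ⟨k, -, hV⟩
      exact ⟨_, ⟨k, rfl⟩, hV⟩
  haveI hcg : (𝓝 (0 : Alt E)).IsCountablyGenerated := hbas.isCountablyGenerated
  have hcg' : (𝓝 (0 : SeparationQuotient (Alt E))).IsCountablyGenerated := by
    have h1 : 𝓝 (0 : SeparationQuotient (Alt E)) =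
        Filter.map SeparationQuotient.mk (𝓝 (0 : Alt E)) :=
      SeparationQuotient.map_mk_nhds.symm
    rw [h1]
    infer_instance
  have hmet : TopologicalSpace.MetrizableSpace (SeparationQuotient (Alt E)) := by
    letI : UniformSpace (SeparationQuotient (Alt E)) := IsTopologicalAddGroup.rightUniformSpace _
    haveI : IsUniformAddGroup (SeparationQuotient (Alt E)) := isUniformAddGroup_of_addCommGroup
    haveI : (uniformity (SeparationQuotient (Alt E))).IsCountablyGenerated :=
      IsUniformAddGroup.uniformity_countably_generated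
    exact UniformSpace.metrizableSpace
  let π : E →ₗ[ℝ] SeparationQuotient (Alt E) :=
    { toFun := fun x => SeparationQuotient.mk (toAlt x)
      map_add' := fun _ _ => rfl
      map_smul' := fun _ _ => rfl }
  refine ⟨SeparationQuotient (Alt E), inferInstance, inferInstance, inferInstance, inferInstance,
    inferInstance, hmet, π, ?_, ?_, ?_⟩
  · have h1 : Continuous (toAlt : E → Alt E) := by
      refine continuous_of_continuousAt_zero (toAlt : E →ₗ[ℝ] Alt E) ?_
      rw [ContinuousAt, map_zero, hbas.tendsto_right_iff]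
      intro k _
      filter_upwards [hW k] with x hx
      exact ⟨x, hx, rfl⟩
    exact SeparationQuotient.continuous_mk.comp h1
  · exact SeparationQuotient.surjective_mk.comp toAlt_surjective
  · have h1 : toAlt '' W 0 ∈ 𝓝 (0 : Alt E) := hbas.mem_of_mem trivial
    rw [← SeparationQuotient.comap_mk_nhds_mk] at h1
    obtain ⟨V, hV, hVW⟩ := Filter.mem_comap.1 h1
    refine ⟨V, hV, fun x hx => ?_⟩
    obtain ⟨y, hy, hyx⟩ := hVW (show toAlt x ∈ SeparationQuotient.mk ⁻¹' V from hx)
    have : y = x := hyx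
    exact hWU (this ▸ hy)

end String

/-- Approximability of `K × {g}` gives approximability of `K`. -/
theorem approximable_of_prod' {E : Type u} [AddCommGroup E] [Module ℝ E] [TopologicalSpace E]
    {G : Type v} [AddCommGroup G] [Module ℝ G] [TopologicalSpace G] (g : G)
    {K : Set E} (h : Approximable ((fun x : E => (x, g)) '' K)) : Approximable K := by
  intro U hU
  have h1 : Prod.fst ⁻¹' U ∈ 𝓝 (0 : E × G) :=
    continuous_fst.continuousAt.preimage_mem_nhds hU
  obtain ⟨v, hv1, hv2, hv3⟩ := h _ h1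
  refine ⟨fun x => (v (x, g)).1, ?_, ?_, ?_⟩
  · refine continuous_fst.comp_continuousOn (hv1.comp ?_ fun x hx => ⟨x, hx, rfl⟩)
    exact (continuous_id.prodMk continuous_const).continuousOn
  · have h2 : Submodule.span ℝ ((fun x : E => (v (x, g)).1) '' K) ≤
        (Submodule.span ℝ (v '' ((fun x : E => (x, g)) '' K))).map
          (LinearMap.fst ℝ E G) := by
      rw [Submodule.span_le]
      rintro _ ⟨x, hx, rfl⟩
      exact Submodule.mem_map_of_mem (f := LinearMap.fst ℝ E G)
        (Submodule.subset_span ⟨_, ⟨x, hx, rfl⟩, rfl⟩)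
    exact Submodule.finiteDimensional_of_le h2
  · intro x hx
    exact hv3 _ ⟨x, hx, rfl⟩

/-- The Cantor set in `[0, 1]`. -/
noncomputable def io (c : ℕ → Bool) : ℝ := (cantorSetHomeomorphNatToBool.symm c : ℝ)

theorem io_continuous : Continuous io :=
  continuous_subtype_val.comp cantorSetHomeomorphNatToBool.symm.continuous

theorem io_injective : Function.Injective io :=
  Subtype.val_injective.comp cantorSetHomeomorphNatToBool.symm.injective

theorem io_nonneg (c : ℕ → Bool) : 0 ≤ io c :=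
  (cantorSet_subset_unitInterval (cantorSetHomeomorphNatToBool.symm c).2).1

section Metrizable

variable {E : Type u} [AddCommGroup E] [Module ℝ E] [TopologicalSpace E]
  [IsTopologicalAddGroup E] [ContinuousSMul ℝ E] [TopologicalSpace.MetrizableSpace E]

omit [AddCommGroup E] [Module ℝ E] [IsTopologicalAddGroup E] [ContinuousSMul ℝ E] in
theorem exists_cantor {K : Set E} (hK : IsCompact K) (hne : K.Nonempty) :
    ∃ f : (ℕ → Bool) → E, Continuous f ∧ range f = K := by
  have hKc : CompactSpace K := isCompact_iff_compactSpace.1 hK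
  have hKn : Nonempty K := hne.to_subtype
  letI : MetricSpace K := TopologicalSpace.metrizableSpaceMetric K
  obtain ⟨f, hf, hfs⟩ := exists_nat_bool_continuous_surjective_of_compact K
  refine ⟨fun c => f c, continuous_subtype_val.comp hf, ?_⟩
  ext x
  constructor
  · rintro ⟨c, rfl⟩
    exact (f c).2
  · intro hx
    obtain ⟨c, hc⟩ := hfs ⟨x, hx⟩
    refine ⟨c, ?_⟩
    show ((f c : K) : E) = x
    rw [hc]

theorem approximable_of_stars {K : Set E} (hK : IsCompact K)
    (h : ∀ α : (ℕ → Bool) → E × ℝ, Continuous α → Function.Injective α →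
      Approximable (Icc (0 : ℝ) 1 • range α)) : Approximable K := by
  rcases K.eq_empty_or_nonempty with rfl | hne
  · exact approximable_empty
  obtain ⟨f, hf, hfK⟩ := exists_cantor hK hne
  refine approximable_of_prod' (1 : ℝ) ((h (fun c => (1 + io c) • (f c, (1 : ℝ))) ?_ ?_).mono ?_)
  · exact (continuous_const.add io_continuous).smul (hf.prodMk continuous_const)
  · intro c c' hcc
    have h1 : (1 + io c) • (1 : ℝ) = (1 + io c') • (1 : ℝ) := congrArg Prod.snd hcc
    apply io_injective
    simpa using h1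
  · rintro _ ⟨x, hx, rfl⟩
    rw [← hfK] at hx
    obtain ⟨c, rfl⟩ := hx
    have h0 := io_nonneg c
    refine ⟨(1 + io c)⁻¹, ⟨by positivity, inv_le_one_of_one_le₀ (by linarith)⟩, _, ⟨c, rfl⟩, ?_⟩
    show (1 + io c)⁻¹ • ((1 + io c) • (f c, (1 : ℝ))) = (f c, (1 : ℝ))
    rw [smul_smul, inv_mul_cancel₀ (by positivity), one_smul]

theorem approximable_of_cantorSums {K : Set E} (hK : IsCompact K)
    (h : ∀ α β : (ℕ → Bool) → E × ℝ, Continuous α → Function.Injective α → Continuous β →
      Function.Injective β → Approximable (range α + range β)) : Approximable K := by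
  rcases K.eq_empty_or_nonempty with rfl | hne
  · exact approximable_empty
  obtain ⟨f, hf, hfK⟩ := exists_cantor hK hne
  refine approximable_of_prod' (0 : ℝ) ((h (fun c => ((0 : E), io c)) (fun c => (f c, -io c))
    ?_ ?_ ?_ ?_).mono ?_)
  · exact continuous_const.prodMk io_continuous
  · exact fun c c' hcc => io_injective (congrArg Prod.snd hcc)
  · exact hf.prodMk io_continuous.neg
  · exact fun c c' hcc => io_injective (neg_injective (congrArg Prod.snd hcc))
  · rintro _ ⟨x, hx, rfl⟩
    rw [← hfK] at hx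
    obtain ⟨c, rfl⟩ := hx
    refine ⟨_, ⟨c, rfl⟩, _, ⟨c, rfl⟩, ?_⟩
    show ((0 : E) + f c, io c + -io c) = (f c, (0 : ℝ))
    rw [zero_add, add_neg_cancel]

end Metrizable

/-- It is enough to know Klee's property for metrizable spaces. -/
theorem admissible_of_metrizable
    (h : ∀ (F : Type u) [AddCommGroup F] [Module ℝ F] [TopologicalSpace F]
      [IsTopologicalAddGroup F] [ContinuousSMul ℝ F] [TopologicalSpace.MetrizableSpace F],
      Admissible F)
    (E : Type u) [AddCommGroup E] [Module ℝ E] [TopologicalSpace E]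
    [IsTopologicalAddGroup E] [ContinuousSMul ℝ E] : Admissible E := by
  intro K hK U hU
  obtain ⟨F, _, _, _, _, _, _, π, hc, hs, hV⟩ := exists_metrizable hU
  exact approximable_of_surj π hc hs hV (h F _ (hK.image hc))

end Pool.Agent.H31.AD
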