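import Pool.Agent.H31.AD.Fin

/-!
Project MP_edf562_an (helper31): the space `Per Z` of periodic `Z`-valued sequences, with the topology
of convergence in density.
-/

set_option autoImplicit false

open Topology Set Pointwise

namespace Pool.Agent.H31.AD

universe u

open Classical in
/-- The number of `x < n` with `p x`. -/
noncomputable def cnt (p : ℕ → Prop) (n : ℕ) : ℕ := ((Finset.range n).filter p).card

theorem cnt_mono {p q : ℕ → Prop} {n : ℕ} (h : ∀ x < n, p x → q x) : cnt p n ≤ cnt q n := by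
  classical
  refine Finset.card_le_card fun x hx => ?_
  rw [Finset.mem_filter] at hx ⊢
  exact ⟨hx.1, h x (Finset.mem_range.1 hx.1) hx.2⟩

theorem cnt_congr {p q : ℕ → Prop} {n : ℕ} (h : ∀ x < n, p x ↔ q x) : cnt p n = cnt q n :=
  le_antisymm (cnt_mono fun x hx => (h x hx).1) (cnt_mono fun x hx => (h x hx).2)

theorem cnt_le_add {r p q : ℕ → Prop} {n : ℕ} (h : ∀ x < n, r x → p x ∨ q x) :
    cnt r n ≤ cnt p n + cnt q n := by
  classical
  unfold cnt
  refine le_trans (Finset.card_le_card fun x hx => ?_) (Finset.card_union_le _ _)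
  rw [Finset.mem_filter] at hx
  rw [Finset.mem_union, Finset.mem_filter, Finset.mem_filter]
  exact (h x (Finset.mem_range.1 hx.1) hx.2).imp (fun h => ⟨hx.1, h⟩) (fun h => ⟨hx.1, h⟩)

theorem cnt_le (p : ℕ → Prop) (n : ℕ) : cnt p n ≤ n := by
  classical
  refine (Finset.card_filter_le _ _).trans ?_
  rw [Finset.card_range]

theorem cnt_eq_zero {p : ℕ → Prop} {n : ℕ} : cnt p n = 0 ↔ ∀ x < n, ¬ p x := by
  classical
  unfold cnt
  rw [Finset.card_eq_zero, Finset.filter_eq_empty_iff]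
  simp

theorem cnt_add (p : ℕ → Prop) (a b : ℕ) : cnt p (a + b) = cnt p a + cnt (fun y => p (a + y)) b := by
  classical
  have h := Nat.count_add (p := p) a b
  rw [Nat.count_eq_card_filter_range, Nat.count_eq_card_filter_range,
    Nat.count_eq_card_filter_range] at h
  unfold cnt
  convert h

theorem cnt_cells (p : ℕ → Prop) (P N : ℕ) :
    cnt p (P * N) = ∑ c ∈ Finset.range N, cnt (fun y => p (P * c + y)) P := by
  induction N with
  | zero => simp [cnt]
  | succ N ih => rw [Finset.sum_range_succ, Nat.mul_succ, cnt_add, ih]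

theorem cnt_periodic {p : ℕ → Prop} {P : ℕ} (h : ∀ x, p (x + P) ↔ p x) (N : ℕ) :
    cnt p (P * N) = N * cnt p P := by
  have h1 : ∀ c y, p (P * c + y) ↔ p y := by
    intro c
    induction c with
    | zero => intro y; simp
    | succ c ih =>
      intro y
      rw [Nat.mul_succ, show P * c + P + y = P * c + (y + P) by ring, ih, h]
  rw [cnt_cells, Finset.sum_congr rfl fun c _ => cnt_congr fun y _ => h1 c y, Finset.sum_const,
    Finset.card_range, smul_eq_mul]

section Alg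

variable (Z : Type u) [AddCommGroup Z] [Module ℝ Z]

/-- Periodic sequences. -/
def PerSub : Submodule ℝ (ℕ → Z) where
  carrier := {f | ∃ P, 0 < P ∧ Function.Periodic f P}
  add_mem' := by
    rintro f g ⟨P, hP, hf⟩ ⟨Q, hQ, hg⟩
    refine ⟨P * Q, Nat.mul_pos hP hQ, fun x => ?_⟩
    have h1 : Function.Periodic f (P * Q) := by rw [mul_comm]; exact hf.nat_mul Q
    have h2 : Function.Periodic g (P * Q) := hg.nat_mul P
    rw [Pi.add_apply, Pi.add_apply, h1 x, h2 x]
  zero_mem' := ⟨1, one_pos, fun _ => rfl⟩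
  smul_mem' := by
    rintro c f ⟨P, hP, hf⟩
    exact ⟨P, hP, fun x => by rw [Pi.smul_apply, Pi.smul_apply, hf x]⟩

/-- The space of periodic sequences (a type synonym, to be given its own topology). -/
def Per : Type u := PerSub Z

noncomputable instance : AddCommGroup (Per Z) := inferInstanceAs (AddCommGroup (PerSub Z))
noncomputable instance : Module ℝ (Per Z) := inferInstanceAs (Module ℝ (PerSub Z))

variable {Z}

/-- The sequence underlying an element of `Per Z`. -/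
noncomputable def fn : Per Z →ₗ[ℝ] (ℕ → Z) := (PerSub Z).subtype

theorem fn_injective : Function.Injective (fn : Per Z →ₗ[ℝ] (ℕ → Z)) :=
  (PerSub Z).injective_subtype

theorem exists_period (f : Per Z) : ∃ P, 0 < P ∧ Function.Periodic (fn f) P := f.2

/-- Elements of `Per Z` from periodic sequences. -/
def mk (f : ℕ → Z) (P : ℕ) (hP : 0 < P) (hf : Function.Periodic f P) : Per Z := ⟨f, P, hP, hf⟩

theorem fn_mk (f : ℕ → Z) (P : ℕ) (hP : 0 < P) (hf : Function.Periodic f P) :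
    fn (mk f P hP hf) = f := rfl

/-- Sequences whose values are in `U` except on a set of density less than `ε`. -/
def PB (U : Set Z) (ε : ℝ) : Set (Per Z) :=
  {f | ∃ P, 0 < P ∧ Function.Periodic (fn f) P ∧ (cnt (fun x => fn f x ∉ U) P : ℝ) < ε * P}

theorem mem_PB_iff {U : Set Z} {ε : ℝ} {f : Per Z} {P : ℕ} (hP : 0 < P)
    (hf : Function.Periodic (fn f) P) :
    f ∈ PB U ε ↔ (cnt (fun x => fn f x ∉ U) P : ℝ) < ε * P := by
  refine ⟨?_, fun h => ⟨P, hP, hf, h⟩⟩
  rintro ⟨Q, hQ, hg, h⟩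
  have h1 : cnt (fun x => fn f x ∉ U) (P * Q) = Q * cnt (fun x => fn f x ∉ U) P :=
    cnt_periodic (fun x => by rw [hf x]) Q
  have h2 : cnt (fun x => fn f x ∉ U) (Q * P) = P * cnt (fun x => fn f x ∉ U) Q :=
    cnt_periodic (fun x => by rw [hg x]) P
  rw [mul_comm Q P, h1] at h2
  have h3 : (Q : ℝ) * cnt (fun x => fn f x ∉ U) P = P * cnt (fun x => fn f x ∉ U) Q := by
    exact_mod_cast h2
  have hP' : (0 : ℝ) < P := by exact_mod_cast hP
  have hQ' : (0 : ℝ) < Q := by exact_mod_cast hQ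
  have h4 : (Q : ℝ) * cnt (fun x => fn f x ∉ U) P < Q * (ε * P) := by
    rw [h3]
    calc (P : ℝ) * cnt (fun x => fn f x ∉ U) Q < P * (ε * Q) := by
          exact mul_lt_mul_of_pos_left h hP'
      _ = Q * (ε * P) := by ring
  exact lt_of_mul_lt_mul_left h4 hQ'.le

theorem PB_mono {U V : Set Z} {ε δ : ℝ} (hUV : U ⊆ V) (h : ε ≤ δ) : PB U ε ⊆ PB V δ := by
  rintro f ⟨P, hP, hf, hc⟩
  refine ⟨P, hP, hf, ?_⟩
  have hP' : (0 : ℝ) < P := by exact_mod_cast hP
  have h1 : cnt (fun x => fn f x ∉ V) P ≤ cnt (fun x => fn f x ∉ U) P :=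
    cnt_mono fun x _ hx hx' => hx (hUV hx')
  calc (cnt (fun x => fn f x ∉ V) P : ℝ) ≤ cnt (fun x => fn f x ∉ U) P := by exact_mod_cast h1
    _ < ε * P := hc
    _ ≤ δ * P := mul_le_mul_of_nonneg_right h hP'.le

end Alg

section Top

variable (Z : Type u) [AddCommGroup Z] [Module ℝ Z] [TopologicalSpace Z]
  [IsTopologicalAddGroup Z] [ContinuousSMul ℝ Z]

/-- The neighbourhood basis of convergence in density. -/
noncomputable def perBasis : ModuleFilterBasis ℝ (Per Z) where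
  sets := {S | ∃ U ∈ 𝓝 (0 : Z), ∃ ε : ℝ, 0 < ε ∧ S = PB U ε}
  nonempty := ⟨PB univ 1, univ, Filter.univ_mem, 1, one_pos, rfl⟩
  inter_sets := by
    rintro _ _ ⟨U, hU, ε, hε, rfl⟩ ⟨V, hV, δ, hδ, rfl⟩
    refine ⟨PB (U ∩ V) (min ε δ), ⟨U ∩ V, Filter.inter_mem hU hV, _, lt_min hε hδ, rfl⟩, ?_⟩
    exact subset_inter (PB_mono inter_subset_left (min_le_left _ _))
      (PB_mono inter_subset_right (min_le_right _ _))
  zero' := by
    rintro _ ⟨U, hU, ε, hε, rfl⟩
    refine ⟨1, one_pos, fun _ => rfl, ?_⟩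
    have h1 : cnt (fun x => fn (0 : Per Z) x ∉ U) 1 = 0 := cnt_eq_zero.2 fun x _ h => by
      rw [map_zero, Pi.zero_apply] at h
      exact h (mem_of_mem_nhds hU)
    rw [h1]
    simpa using hε
  add' := by
    rintro _ ⟨U, hU, ε, hε, rfl⟩
    obtain ⟨W, hWo, hW0, -, -, hW⟩ := exists_balanced hU
    refine ⟨PB W (ε / 2), ⟨W, hWo.mem_nhds hW0, _, half_pos hε, rfl⟩, ?_⟩
    rintro _ ⟨f, hf, g, hg, rfl⟩
    obtain ⟨P, hP, hfP⟩ := exists_period f
    obtain ⟨Q, hQ, hgQ⟩ := exists_period g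
    have h1 : Function.Periodic (fn f) (P * Q) := by rw [mul_comm]; exact hfP.nat_mul Q
    have h2 : Function.Periodic (fn g) (P * Q) := hgQ.nat_mul P
    have hPQ : 0 < P * Q := Nat.mul_pos hP hQ
    rw [mem_PB_iff hPQ h1] at hf
    rw [mem_PB_iff hPQ h2] at hg
    refine ⟨P * Q, hPQ, ?_, ?_⟩
    · intro x
      show fn (f + g) (x + P * Q) = fn (f + g) x
      rw [map_add, Pi.add_apply, Pi.add_apply, h1 x, h2 x]
    · have h3 : cnt (fun x => fn (f + g) x ∉ U) (P * Q) ≤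
          cnt (fun x => fn f x ∉ W) (P * Q) + cnt (fun x => fn g x ∉ W) (P * Q) := by
        refine cnt_le_add fun x _ hx => ?_
        by_contra h4
        push Not at h4
        apply hx
        rw [map_add, Pi.add_apply]
        exact hW _ h4.1 _ h4.2
      have h4 : (cnt (fun x => fn (f + g) x ∉ U) (P * Q) : ℝ) ≤
          cnt (fun x => fn f x ∉ W) (P * Q) + cnt (fun x => fn g x ∉ W) (P * Q) := by
        exact_mod_cast h3
      show (cnt (fun x => fn (f + g) x ∉ U) (P * Q) : ℝ) < ε * ((P * Q : ℕ) : ℝ)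
      linarith
  neg' := by
    rintro _ ⟨U, hU, ε, hε, rfl⟩
    refine ⟨PB (-U) ε, ⟨-U, neg_mem_nhds_zero Z hU, ε, hε, rfl⟩, ?_⟩
    rintro f ⟨P, hP, hf, hc⟩
    refine ⟨P, hP, ?_, ?_⟩
    · intro x
      rw [map_neg, Pi.neg_apply, Pi.neg_apply, hf x]
    · refine lt_of_le_of_lt ?_ hc
      have h1 : cnt (fun x => fn (-f) x ∉ U) P ≤ cnt (fun x => fn f x ∉ -U) P :=
        cnt_mono fun x _ hx hx' => hx (by
          rw [map_neg, Pi.neg_apply]
          exact hx')
      exact_mod_cast h1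
  conj' := by
    rintro f _ ⟨U, hU, ε, hε, rfl⟩
    refine ⟨PB U ε, ⟨U, hU, ε, hε, rfl⟩, fun g hg => ?_⟩
    show f + g + -f ∈ PB U ε
    rw [add_neg_cancel_comm]
    exact hg
  smul' := by
    rintro _ ⟨U, hU, ε, hε, rfl⟩
    obtain ⟨W, hWo, hW0, hWb, hWU, -⟩ := exists_balanced hU
    refine ⟨Metric.closedBall 0 1, Metric.closedBall_mem_nhds _ one_pos, PB W ε,
      ⟨W, hWo.mem_nhds hW0, ε, hε, rfl⟩, ?_⟩
    rintro _ ⟨c, hc, f, ⟨P, hP, hf, hcf⟩, rfl⟩
    refine ⟨P, hP, ?_, ?_⟩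
    · intro x
      show fn (c • f) (x + P) = fn (c • f) x
      rw [map_smul, Pi.smul_apply, Pi.smul_apply, hf x]
    · refine lt_of_le_of_lt ?_ hcf
      have h1 : cnt (fun x => fn (c • f) x ∉ U) P ≤ cnt (fun x => fn f x ∉ W) P :=
        cnt_mono fun x _ hx hx' => hx (by
          rw [map_smul, Pi.smul_apply]
          exact hWU (hWb.smul_mem (by simpa using hc) hx'))
      exact_mod_cast h1
  smul_left' := by
    rintro c _ ⟨U, hU, ε, hε, rfl⟩
    have hV : (fun z : Z => c • z) ⁻¹' U ∈ 𝓝 (0 : Z) :=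
      (continuous_const_smul c).continuousAt.preimage_mem_nhds (by rwa [smul_zero])
    refine ⟨PB _ ε, ⟨_, hV, ε, hε, rfl⟩, ?_⟩
    rintro f ⟨P, hP, hf, hcf⟩
    refine ⟨P, hP, ?_, ?_⟩
    · intro x
      show fn (c • f) (x + P) = fn (c • f) x
      rw [map_smul, Pi.smul_apply, Pi.smul_apply, hf x]
    · refine lt_of_le_of_lt ?_ hcf
      have h1 : cnt (fun x => fn (c • f) x ∉ U) P ≤
          cnt (fun x => fn f x ∉ (fun z : Z => c • z) ⁻¹' U) P :=
        cnt_mono fun x _ hx hx' => hx (by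
          rw [map_smul, Pi.smul_apply]
          exact hx')
      exact_mod_cast h1
  smul_right' := by
    rintro f _ ⟨U, hU, ε, hε, rfl⟩
    obtain ⟨P, hP, hf⟩ := exists_period f
    have h1 : ∀ x ∈ Finset.range P, ∀ᶠ c in 𝓝 (0 : ℝ), c • fn f x ∈ U := by
      intro x _
      have h2 : Continuous (fun c : ℝ => c • fn f x) := continuous_id.smul continuous_const
      exact h2.continuousAt.preimage_mem_nhds (by rwa [zero_smul])
    have h2 : ∀ᶠ c in 𝓝 (0 : ℝ), ∀ x ∈ Finset.range P, c • fn f x ∈ U :=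
      (Finset.range P).eventually_all.2 h1
    filter_upwards [h2] with c hc
    refine ⟨P, hP, ?_, ?_⟩
    · intro x
      rw [map_smul, Pi.smul_apply, Pi.smul_apply, hf x]
    · have h3 : cnt (fun x => fn (c • f) x ∉ U) P = 0 := cnt_eq_zero.2 fun x hx h => by
        apply h
        rw [map_smul, Pi.smul_apply]
        exact hc x (Finset.mem_range.2 hx)
      rw [h3]
      have hP' : (0 : ℝ) < P := by exact_mod_cast hP
      simpa using mul_pos hε hP'

noncomputable instance : TopologicalSpace (Per Z) := (perBasis Z).topology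

instance : IsTopologicalAddGroup (Per Z) :=
  (perBasis Z).toAddGroupFilterBasis.isTopologicalAddGroup

instance : ContinuousSMul ℝ (Per Z) := (perBasis Z).continuousSMul

variable {Z}

theorem mem_nhds_zero_per {S : Set (Per Z)} :
    S ∈ 𝓝 (0 : Per Z) ↔ ∃ U ∈ 𝓝 (0 : Z), ∃ ε : ℝ, 0 < ε ∧ PB U ε ⊆ S := by
  rw [(perBasis Z).toAddGroupFilterBasis.nhds_zero_hasBasis.mem_iff]
  constructor
  · rintro ⟨V, ⟨U, hU, ε, hε, rfl⟩, hV⟩
    exact ⟨U, hU, ε, hε, hV⟩
  · rintro ⟨U, hU, ε, hε, hV⟩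
    exact ⟨_, ⟨U, hU, ε, hε, rfl⟩, hV⟩

theorem PB_mem {U : Set Z} (hU : U ∈ 𝓝 (0 : Z)) {ε : ℝ} (hε : 0 < ε) : PB U ε ∈ 𝓝 (0 : Per Z) :=
  mem_nhds_zero_per.2 ⟨U, hU, ε, hε, subset_rfl⟩

omit [TopologicalSpace Z] [IsTopologicalAddGroup Z] [ContinuousSMul ℝ Z] in
theorem fn_eq_of_small {U : Set Z} {P : ℕ} {f : Per Z} (hP : 0 < P)
    (hf : Function.Periodic (fn f) P) (h : f ∈ PB U (1 / (P : ℝ))) : ∀ x, fn f x ∈ U := by
  rw [mem_PB_iff hP hf] at h
  have hP' : (0 : ℝ) < P := by exact_mod_cast hP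
  rw [one_div, inv_mul_cancel₀ hP'.ne'] at h
  have h1 : cnt (fun x => fn f x ∉ U) P = 0 := by
    have : cnt (fun x => fn f x ∉ U) P < 1 := by exact_mod_cast h
    omega
  intro x
  have h2 := cnt_eq_zero.1 h1 (x % P) (Nat.mod_lt _ hP)
  rw [not_not] at h2
  have h3 : fn f (x % P) = fn f x := hf.map_mod_nat x
  rwa [h3] at h2

instance [T2Space Z] : T2Space (Per Z) := by
  rw [(perBasis Z).toAddGroupFilterBasis.t2Space_iff_sInter_subset rfl]
  intro f hf
  rw [mem_singleton_iff]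
  apply fn_injective
  rw [map_zero]
  funext x
  by_contra h
  have h1 : ({fn f x}ᶜ : Set Z) ∈ 𝓝 (0 : Z) := isOpen_compl_singleton.mem_nhds (Ne.symm h)
  obtain ⟨P, hP, hfP⟩ := exists_period f
  have hP' : (0 : ℝ) < 1 / (P : ℝ) := by positivity
  have h2 : f ∈ PB ({fn f x}ᶜ : Set Z) (1 / (P : ℝ)) := hf _ ⟨_, h1, _, hP', rfl⟩
  exact fn_eq_of_small hP hfP h2 x rfl

/-- Constant sequences. -/
noncomputable def cst : Z →ₗ[ℝ] Per Z where
  toFun z := mk (fun _ => z) 1 one_pos (fun _ => rfl)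
  map_add' _ _ := rfl
  map_smul' _ _ := rfl

omit [TopologicalSpace Z] [IsTopologicalAddGroup Z] [ContinuousSMul ℝ Z] in
theorem fn_cst (z : Z) : fn (cst z) = fun _ => z := rfl

omit [TopologicalSpace Z] [IsTopologicalAddGroup Z] [ContinuousSMul ℝ Z] in
theorem cst_mem_PB {U : Set Z} {ε : ℝ} (hε : ε ≤ 1) (hε0 : 0 < ε) {z : Z} :
    cst z ∈ PB U ε ↔ z ∈ U := by
  rw [mem_PB_iff one_pos (fun _ => rfl)]
  by_cases h : z ∈ U
  · have h1 : cnt (fun x => fn (cst z) x ∉ U) 1 = 0 := cnt_eq_zero.2 fun x _ hx => hx h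
    rw [h1]
    simpa [h] using hε0
  · have h1 : cnt (fun x => fn (cst z) x ∉ U) 1 ≠ 0 := fun h2 => cnt_eq_zero.1 h2 0 one_pos h
    have h2 : (1 : ℝ) ≤ cnt (fun x => fn (cst z) x ∉ U) 1 := by
      exact_mod_cast Nat.one_le_iff_ne_zero.2 h1
    simp only [h, iff_false, not_lt]
    push_cast
    linarith

theorem cst_isClosedEmbedding [T2Space Z] : IsClosedEmbedding (cst : Z → Per Z) := by
  have hinj : Function.Injective (cst : Z → Per Z) := fun a b h => by
    have := congrFun (congrArg fn h) 0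
    exact this
  have hind : IsInducing (cst : Z → Per Z) := by
    rw [IsTopologicalAddGroup.isInducing_iff_nhds_zero]
    ext S
    rw [Filter.mem_comap]
    constructor
    · intro hS
      exact ⟨PB S 1, PB_mem hS one_pos, fun z hz => (cst_mem_PB le_rfl one_pos).1 hz⟩
    · rintro ⟨T, hT, hTS⟩
      obtain ⟨U, hU, ε, hε, hUT⟩ := mem_nhds_zero_per.1 hT
      refine Filter.mem_of_superset hU fun z hz => hTS (hUT ?_)
      exact PB_mono subset_rfl (min_le_left ε 1)
        ((cst_mem_PB (min_le_right ε 1) (lt_min hε one_pos)).2 hz)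
  refine ⟨⟨hind, hinj⟩, ?_⟩
  rw [← isOpen_compl_iff, isOpen_iff_mem_nhds]
  intro f hf
  obtain ⟨P, hP, hfP⟩ := exists_period f
  obtain ⟨x, hx⟩ : ∃ x, fn f x ≠ fn f 0 := by
    by_contra h
    push Not at h
    exact hf ⟨fn f 0, fn_injective (by rw [fn_cst]; funext x; exact (h x).symm)⟩
  have h1 : ({fn f x - fn f 0}ᶜ : Set Z) ∈ 𝓝 (0 : Z) :=
    isOpen_compl_singleton.mem_nhds (Ne.symm (sub_ne_zero.2 hx))
  obtain ⟨W, hWo, hW0, hWb, -, hW⟩ := exists_balanced h1
  have hP' : (0 : ℝ) < 1 / (P : ℝ) := by positivity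
  have h2 : (fun g : Per Z => g - f) ⁻¹' PB W (1 / (P : ℝ)) ∈ 𝓝 f := by
    have hc : Continuous (fun g : Per Z => g - f) := continuous_id.sub continuous_const
    refine hc.continuousAt.preimage_mem_nhds ?_
    rw [sub_self]
    exact PB_mem (hWo.mem_nhds hW0) hP'
  filter_upwards [h2]
  rintro g hg ⟨z, rfl⟩
  have h3 : Function.Periodic (fn (cst z - f)) P := by
    intro y
    rw [map_sub, Pi.sub_apply, Pi.sub_apply, hfP y, fn_cst]
  have h4 := fn_eq_of_small hP h3 hg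
  have h5 := h4 0
  have h6 := h4 x
  rw [map_sub, Pi.sub_apply, fn_cst] at h5 h6
  have h7 := hW _ h5 _ (hWb.neg_mem_iff.2 h6)
  apply h7
  rw [mem_singleton_iff]
  abel

end Top

end Pool.Agent.H31.AD
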