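import Pool.Agent.H31.AD.Per

/-!
Project MP_edf562_an (helper31): the space `Per Z` has the simplex property.
-/

set_option autoImplicit false

open Topology Set Pointwise

namespace Pool.Agent.H31.AD

universe u

/-- The function which is `0` left of the cell `[c / N, (c + 1) / N]`, `1` right of it. -/
noncomputable def clampF (N c : ℕ) (s : ℝ) : ℝ := max 0 (min 1 (N * s - c))

theorem clampF_mono (N c : ℕ) {s s' : ℝ} (h : s ≤ s') : clampF N c s ≤ clampF N c s' := by
  unfold clampF
  have h1 : (N : ℝ) * s ≤ N * s' := mul_le_mul_of_nonneg_left h (Nat.cast_nonneg N)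
  exact max_le_max le_rfl (min_le_min le_rfl (by linarith))

theorem clampF_zero (N c : ℕ) : clampF N c 0 = 0 := by
  unfold clampF
  have h1 : (0 : ℝ) ≤ c := Nat.cast_nonneg c
  rw [max_eq_left]
  exact (min_le_right _ _).trans (by linarith)

theorem clampF_one {N c : ℕ} (h : c < N) : clampF N c 1 = 1 := by
  unfold clampF
  have h1 : (c : ℝ) + 1 ≤ N := by exact_mod_cast h
  rw [min_eq_left (by linarith), max_eq_right zero_le_one]

theorem clampF_broken {N c : ℕ} {s : ℝ} (h0 : clampF N c s ≠ 0) (h1 : clampF N c s ≠ 1) :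
    ⌊(N : ℝ) * s⌋₊ = c := by
  unfold clampF at h0 h1
  have h2 : 0 < (N : ℝ) * s - c := by
    by_contra h
    push Not at h
    exact h0 (max_eq_left ((min_le_right _ _).trans h))
  have h3 : (N : ℝ) * s - c < 1 := by
    by_contra h
    push Not at h
    rw [min_eq_left h, max_eq_right zero_le_one] at h1
    exact h1 rfl
  have hc : (0 : ℝ) ≤ c := Nat.cast_nonneg c
  rw [Nat.floor_eq_iff (by linarith)]
  constructor <;> linarith

theorem clampF_continuous (N c : ℕ) : Continuous (clampF N c) := by
  unfold clampF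
  fun_prop

/-- Partial sums of a point of `ℝ^n`. -/
noncomputable def psum {n : ℕ} (t : Fin n → ℝ) (k : ℕ) : ℝ :=
  ∑ i ∈ Finset.range k, if h : i < n then t ⟨i, h⟩ else 0

theorem psum_zero {n : ℕ} (t : Fin n → ℝ) : psum t 0 = 0 := by simp [psum]

theorem psum_succ {n : ℕ} (t : Fin n → ℝ) (j : Fin n) :
    psum t ((j : ℕ) + 1) = psum t j + t j := by
  unfold psum
  rw [Finset.sum_range_succ]
  simp

theorem psum_last {n : ℕ} (t : Fin n → ℝ) : psum t n = ∑ i, t i := by
  unfold psum
  rw [Finset.sum_range]
  simp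

theorem psum_continuous {n : ℕ} (k : ℕ) : Continuous (fun t : Fin n → ℝ => psum t k) := by
  unfold psum
  refine continuous_finsetSum _ fun i _ => ?_
  by_cases h : i < n
  · simp only [h, dif_pos]
    exact continuous_apply _
  · simp only [h, dif_neg, not_false_iff]
    exact continuous_const

/-- The part of the cell `c` lying in the `j`-th interval. -/
noncomputable def coef {n : ℕ} (N c : ℕ) (t : Fin n → ℝ) (j : Fin n) : ℝ :=
  clampF N c (psum t ((j : ℕ) + 1)) - clampF N c (psum t j)

theorem coef_nonneg {n N c : ℕ} {t : Fin n → ℝ} (ht : ∀ i, 0 ≤ t i) (j : Fin n) :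
    0 ≤ coef N c t j := by
  unfold coef
  rw [sub_nonneg]
  apply clampF_mono
  rw [psum_succ]
  linarith [ht j]

theorem coef_eq_zero {n N c : ℕ} {t : Fin n → ℝ} {j : Fin n} (h : t j = 0) :
    coef N c t j = 0 := by
  unfold coef
  rw [psum_succ, h, add_zero, sub_self]

theorem sum_coef {n N c : ℕ} {t : Fin n → ℝ} (ht : ∑ i, t i = 1) (hc : c < N) :
    ∑ j, coef N c t j = 1 := by
  have h1 : ∑ j : Fin n, coef N c t j =
      ∑ k ∈ Finset.range n, (clampF N c (psum t (k + 1)) - clampF N c (psum t k)) := by
    rw [Finset.sum_range]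
    rfl
  rw [h1, Finset.sum_range_sub (fun k => clampF N c (psum t k)), psum_zero, psum_last, ht,
    clampF_zero, clampF_one hc, sub_zero]

theorem coef_continuous {n : ℕ} (N c : ℕ) (j : Fin n) :
    Continuous (fun t : Fin n → ℝ => coef N c t j) := by
  unfold coef
  exact ((clampF_continuous N c).comp (psum_continuous _)).sub
    ((clampF_continuous N c).comp (psum_continuous _))

/-- The cell `c` contains an end point of an interval in its interior. -/
def Broken {n : ℕ} (N c : ℕ) (t : Fin n → ℝ) : Prop :=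
  ∃ k ≤ n, clampF N c (psum t k) ≠ 0 ∧ clampF N c (psum t k) ≠ 1

theorem exists_coef_eq_one {n N c : ℕ} {t : Fin n → ℝ} (ht : ∑ i, t i = 1) (hc : c < N)
    (hb : ¬ Broken N c t) : ∃ j, coef N c t j = 1 := by
  classical
  have hb' : ∀ k ≤ n, clampF N c (psum t k) ≠ 1 → clampF N c (psum t k) = 0 := by
    intro k hk h1
    by_contra h0
    exact hb ⟨k, hk, h0, h1⟩
  have hex : ∃ k, k ≤ n ∧ clampF N c (psum t k) = 1 :=
    ⟨n, le_rfl, by rw [psum_last, ht, clampF_one hc]⟩
  obtain ⟨h1, h2⟩ := Nat.find_spec hex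
  have h3 : Nat.find hex ≠ 0 := by
    intro h
    rw [h, psum_zero, clampF_zero] at h2
    exact zero_ne_one h2
  obtain ⟨k, hk⟩ := Nat.exists_eq_succ_of_ne_zero h3
  have hkn : k < n := by omega
  have h4 : clampF N c (psum t k) ≠ 1 := fun h =>
    Nat.find_min hex (m := k) (by omega) ⟨hkn.le, h⟩
  refine ⟨⟨k, hkn⟩, ?_⟩
  unfold coef
  rw [hk] at h2
  show clampF N c (psum t (k + 1)) - clampF N c (psum t k) = 1
  rw [h2, hb' k hkn.le h4, sub_zero]

open Classical in
theorem card_broken {n : ℕ} (N : ℕ) (t : Fin n → ℝ) :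
    ((Finset.range N).filter (fun c => Broken N c t)).card ≤ n + 1 := by
  have h1 : (Finset.range N).filter (fun c => Broken N c t) ⊆
      (Finset.range (n + 1)).image (fun k => ⌊(N : ℝ) * psum t k⌋₊) := by
    intro c hc
    obtain ⟨k, hk, h0, h1⟩ := (Finset.mem_filter.1 hc).2
    exact Finset.mem_image.2 ⟨k, Finset.mem_range.2 (by omega), clampF_broken h0 h1⟩
  refine (Finset.card_le_card h1).trans (Finset.card_image_le.trans ?_)
  rw [Finset.card_range]

section SP

variable {Z : Type u} [AddCommGroup Z] [Module ℝ Z]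

theorem exists_common_period {n : ℕ} (m : Fin n → Per Z) :
    ∃ P, 0 < P ∧ ∀ i, Function.Periodic (fn (m i)) P := by
  choose Q hQ hQm using fun i => exists_period (m i)
  refine ⟨∏ i, Q i, Finset.prod_pos fun i _ => hQ i, fun i => ?_⟩
  obtain ⟨k, hk⟩ := Finset.dvd_prod_of_mem Q (Finset.mem_univ i)
  rw [hk, mul_comm]
  exact (hQm i).nat_mul k

theorem periodic_mul {f : ℕ → Z} {P : ℕ} (hf : Function.Periodic f P) (c y : ℕ) :
    f (P * c + y) = f y := by
  have h := hf.nat_mul c
  have h2 := h y
  rw [← h2]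
  congr 1
  push_cast
  ring

/-- The function `f` on the `c`-th cells, `0` off them. -/
noncomputable def cellFn (P N : ℕ) (hP : 0 < P) (hN : 0 < N) (f : Per Z)
    (hf : Function.Periodic (fn f) P) (c : ℕ) : Per Z :=
  mk (fun x => if (x / P) % N = c then fn f x else 0) (P * N) (Nat.mul_pos hP hN) (by
    intro x
    have h1 : (x + P * N) / P = x / P + N := Nat.add_mul_div_left x N hP
    have h2 : fn f (x + P * N) = fn f x := by
      rw [mul_comm]
      exact hf.nat_mul N x
    show (if (x + P * N) / P % N = c then fn f (x + P * N) else 0) =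
      if x / P % N = c then fn f x else 0
    rw [h1, h2, Nat.add_mod_right])

theorem fn_cellFn (P N : ℕ) (hP : 0 < P) (hN : 0 < N) (f : Per Z)
    (hf : Function.Periodic (fn f) P) (c : ℕ) {c' y : ℕ} (hc' : c' < N) (hy : y < P) :
    fn (cellFn P N hP hN f hf c) (P * c' + y) = if c' = c then fn f y else 0 := by
  show (if (P * c' + y) / P % N = c then fn f (P * c' + y) else 0) = _
  rw [Nat.mul_add_div hP, Nat.div_eq_of_lt hy, add_zero, Nat.mod_eq_of_lt hc', periodic_mul hf]

end SP

/-- **The space of periodic `Z`-valued sequences has the simplex property.** -/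
theorem simplexProp_per {Z : Type u} [AddCommGroup Z] [Module ℝ Z] [TopologicalSpace Z]
    [IsTopologicalAddGroup Z] [ContinuousSMul ℝ Z] : SimplexProp (Per Z) := by
  classical
  intro S hS
  obtain ⟨U, hU, ε, hε, hUS⟩ := mem_nhds_zero_per.1 hS
  refine ⟨PB U (ε / 2), PB_mem hU (half_pos hε), fun n m => ?_⟩
  obtain ⟨P, hP, hmP⟩ := exists_common_period m
  obtain ⟨N, hN⟩ := exists_nat_gt (2 * (n + 1) / ε)
  have hN0' : (0 : ℝ) < N := lt_of_le_of_lt (by positivity) hN
  have hN0 : 0 < N := by exact_mod_cast hN0'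
  have hP' : (0 : ℝ) < P := by exact_mod_cast hP
  refine ⟨fun t => ∑ j, ∑ c ∈ Finset.range N, coef N c t j •
    cellFn P N hP hN0 (m j) (hmP j) c, ?_, ?_, ?_⟩
  · refine Continuous.continuousOn ?_
    exact continuous_finsetSum _ fun j _ => continuous_finsetSum _ fun c _ =>
      (coef_continuous N c j).smul continuous_const
  · have h1 : Submodule.span ℝ ((fun t : Fin n → ℝ => ∑ j, ∑ c ∈ Finset.range N, coef N c t j •
        cellFn P N hP hN0 (m j) (hmP j) c) '' stdSimplex ℝ (Fin n)) ≤
        Submodule.span ℝ (range fun p : Fin n × Fin N =>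
          cellFn P N hP hN0 (m p.1) (hmP p.1) p.2) := by
      rw [Submodule.span_le]
      rintro _ ⟨t, -, rfl⟩
      refine Submodule.sum_mem _ fun j _ => Submodule.sum_mem _ fun c hc =>
        Submodule.smul_mem _ _ (Submodule.subset_span ⟨(j, ⟨c, Finset.mem_range.1 hc⟩), rfl⟩)
    have h2 : FiniteDimensional ℝ (Submodule.span ℝ (range fun p : Fin n × Fin N =>
        cellFn P N hP hN0 (m p.1) (hmP p.1) p.2)) :=
      FiniteDimensional.span_of_finite ℝ (Set.finite_range _)
    exact Submodule.finiteDimensional_of_le h1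
  · intro t ht i hi hj
    obtain ⟨Φ, hΦ⟩ : ∃ Φ, Φ = ∑ j, ∑ c ∈ Finset.range N, coef N c t j •
        cellFn P N hP hN0 (m j) (hmP j) c := ⟨_, rfl⟩
    show (∑ j, ∑ c ∈ Finset.range N, coef N c t j •
        cellFn P N hP hN0 (m j) (hmP j) c) - m i ∈ S
    rw [← hΦ]
    apply hUS
    have hval : ∀ c < N, ∀ y < P, fn Φ (P * c + y) = ∑ j, coef N c t j • fn (m j) y := by
      intro c hc y hy
      rw [hΦ, map_sum, Finset.sum_apply]
      refine Finset.sum_congr rfl fun j _ => ?_
      rw [map_sum, Finset.sum_apply]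
      rw [Finset.sum_eq_single_of_mem c (Finset.mem_range.2 hc)]
      · rw [map_smul, Pi.smul_apply, fn_cellFn P N hP hN0 (m j) (hmP j) c hc hy, if_pos rfl]
      · intro c' _ hcc
        rw [map_smul, Pi.smul_apply, fn_cellFn P N hP hN0 (m j) (hmP j) c' hc hy,
          if_neg (Ne.symm hcc), smul_zero]
    have hper : Function.Periodic (fn (Φ - m i)) (P * N) := by
      have h1 : ∀ c j, Function.Periodic (fn (cellFn P N hP hN0 (m j) (hmP j) c)) (P * N) := by
        intro c j x
        have h2 : (x + P * N) / P = x / P + N := Nat.add_mul_div_left x N hP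
        have h3 : fn (m j) (x + P * N) = fn (m j) x := by
          rw [mul_comm]
          exact (hmP j).nat_mul N x
        show (if (x + P * N) / P % N = c then fn (m j) (x + P * N) else 0) =
          if x / P % N = c then fn (m j) x else 0
        rw [h2, h3, Nat.add_mod_right]
      intro x
      rw [map_sub, Pi.sub_apply, Pi.sub_apply]
      congr 1
      · rw [hΦ, map_sum, Finset.sum_apply, Finset.sum_apply]
        refine Finset.sum_congr rfl fun j _ => ?_
        rw [map_sum, Finset.sum_apply, Finset.sum_apply]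
        refine Finset.sum_congr rfl fun c _ => ?_
        rw [map_smul, Pi.smul_apply, Pi.smul_apply, h1 c j x]
      · rw [mul_comm]
        exact (hmP i).nat_mul N x
    rw [mem_PB_iff (Nat.mul_pos hP hN0) hper, cnt_cells]
    -- cell by cell
    have hcell : ∀ c ∈ Finset.range N, (cnt (fun y => fn (Φ - m i) (P * c + y) ∉ U) P : ℝ) ≤
        (if Broken N c t then (P : ℝ) else 0) + ε / 2 * P := by
      intro c hc
      rw [Finset.mem_range] at hc
      by_cases hb : Broken N c t
      · rw [if_pos hb]
        have h1 : (cnt (fun y => fn (Φ - m i) (P * c + y) ∉ U) P : ℝ) ≤ P := by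
          exact_mod_cast cnt_le _ _
        have h2 : 0 ≤ ε / 2 * P := by positivity
        linarith
      · rw [if_neg hb, zero_add]
        obtain ⟨j, hj1⟩ := exists_coef_eq_one ht.2 hc hb
        have htj : t j ≠ 0 := fun h => by
          rw [coef_eq_zero h] at hj1
          exact zero_ne_one hj1
        have hother : ∀ k, k ≠ j → coef N c t k = 0 := by
          intro k hk
          have h1 := sum_coef ht.2 hc
          rw [← Finset.add_sum_erase _ _ (Finset.mem_univ j), hj1] at h1
          have h2 : ∑ x ∈ Finset.univ.erase j, coef N c t x = 0 := by linarith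
          exact (Finset.sum_eq_zero_iff_of_nonneg fun x _ => coef_nonneg ht.1 x).1 h2 k
            (Finset.mem_erase.2 ⟨hk, Finset.mem_univ k⟩)
        have hpm : Function.Periodic (fn (m j - m i)) P := by
          intro x
          rw [map_sub, Pi.sub_apply, Pi.sub_apply, hmP j x, hmP i x]
        have h1 := (mem_PB_iff hP hpm).1 (hj j htj)
        refine le_trans ?_ h1.le
        have h2 : cnt (fun y => fn (Φ - m i) (P * c + y) ∉ U) P ≤
            cnt (fun x => fn (m j - m i) x ∉ U) P := by
          refine cnt_mono fun y hy h3 h4 => h3 ?_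
          have h5 : fn (Φ - m i) (P * c + y) = fn (m j - m i) y := by
            rw [map_sub, Pi.sub_apply, hval c hc y hy, map_sub, Pi.sub_apply,
              periodic_mul (hmP i)]
            congr 1
            rw [Finset.sum_eq_single_of_mem j (Finset.mem_univ j) fun k _ hk => by
              rw [hother k hk, zero_smul], hj1, one_smul]
          rw [h5]
          exact h4
        exact_mod_cast h2
    rw [Nat.cast_sum]
    refine lt_of_le_of_lt (Finset.sum_le_sum hcell) ?_
    rw [Finset.sum_add_distrib, Finset.sum_const, Finset.card_range, ← Finset.sum_filter,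
      Finset.sum_const, nsmul_eq_mul, nsmul_eq_mul]
    have h1 : (((Finset.range N).filter (fun c => Broken N c t)).card : ℝ) ≤ n + 1 := by
      have := card_broken N t
      exact_mod_cast this
    have h2 : (((Finset.range N).filter (fun c => Broken N c t)).card : ℝ) * P ≤ (n + 1) * P :=
      mul_le_mul_of_nonneg_right h1 hP'.le
    have h3 : 2 * ((n : ℝ) + 1) < N * ε := by
      rwa [div_lt_iff₀ hε] at hN
    have h4 : ((n : ℝ) + 1) * P < N * (ε / 2) * P := by
      apply mul_lt_mul_of_pos_right _ hP'
      linarith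
    push_cast
    nlinarith

end Pool.Agent.H31.AD
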