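import Pool.Agent.H31.AD.Equiv

set_option autoImplicit false

open Topology Set Pointwise

namespace Pool.Agent.H31.AD

universe u v w

/-- The simplex property passes to spaces with enough maps onto spaces with the simplex property. -/
theorem simplexProp_of_surj {E : Type u} [AddCommGroup E] [Module ℝ E] [TopologicalSpace E]
    [IsTopologicalAddGroup E] [ContinuousSMul ℝ E] {ι : Type w} {F : ι → Type v}
    [∀ i, AddCommGroup (F i)] [∀ i, Module ℝ (F i)] [∀ i, TopologicalSpace (F i)]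
    [∀ i, IsTopologicalAddGroup (F i)] [∀ i, ContinuousSMul ℝ (F i)] [∀ i, T2Space (F i)]
    (π : ∀ i, E →ₗ[ℝ] F i) (hc : ∀ i, Continuous (π i)) (hs : ∀ i, Function.Surjective (π i))
    (hU : ∀ U ∈ 𝓝 (0 : E), ∃ i, ∃ V ∈ 𝓝 (0 : F i), π i ⁻¹' V ⊆ U)
    (h : ∀ i, SimplexProp (F i)) : SimplexProp E := by
  intro U hU'
  obtain ⟨i, T, hT, hTU⟩ := hU U hU'
  obtain ⟨V, hV, hVφ⟩ := h i T hT
  refine ⟨π i ⁻¹' V, (hc i).continuousAt.preimage_mem_nhds (by rwa [map_zero]), fun n m => ?_⟩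
  obtain ⟨φ, h1, h2, h3⟩ := hVφ n (fun k => π i (m k))
  obtain ⟨s, hs'⟩ := LinearMap.exists_rightInverse_of_surjective (π i)
    (LinearMap.range_eq_top.2 (hs i))
  have hsπ : ∀ z, π i (s z) = z := fun z => LinearMap.congr_fun hs' z
  obtain ⟨Fv, hFv⟩ : ∃ Fv, Fv = Submodule.span ℝ (φ '' stdSimplex ℝ (Fin n)) := ⟨_, rfl⟩
  have hfd : FiniteDimensional ℝ Fv := by rw [hFv]; exact h2
  have hvm : ∀ x ∈ stdSimplex ℝ (Fin n), φ x ∈ Fv := fun x hx => by
    rw [hFv]
    exact Submodule.subset_span ⟨x, hx, rfl⟩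
  refine ⟨fun x => s (φ x), ?_, ?_, ?_⟩
  · rw [continuousOn_iff_continuous_domRestrict]
    have h5 : Continuous (fun x : stdSimplex ℝ (Fin n) => (⟨φ x.1, hvm x.1 x.2⟩ : Fv)) :=
      Continuous.subtype_mk (continuousOn_iff_continuous_domRestrict.1 h1) _
    have h6 : Continuous (s.domRestrict Fv) := LinearMap.continuous_of_finiteDimensional _
    exact h6.comp h5
  · have h5 : Submodule.span ℝ ((fun x => s (φ x)) '' stdSimplex ℝ (Fin n)) ≤ Fv.map s := by
      rw [Submodule.span_le]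
      rintro _ ⟨x, hx, rfl⟩
      exact Submodule.mem_map_of_mem (hvm x hx)
    exact Submodule.finiteDimensional_of_le h5
  · intro t ht k hk hj
    apply hTU
    show π i (s (φ t) - m k) ∈ T
    rw [map_sub, hsπ]
    refine h3 t ht k hk fun j hj' => ?_
    have h5 := hj j hj'
    rw [mem_preimage, map_sub] at h5
    exact h5

end Pool.Agent.H31.AD
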