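import Pool.Agent.H31.AD.Glue

/-!
Project MP_edf562_an (helper31): compact sets with property C are approximable.
-/

set_option autoImplicit false

open Topology Set

namespace Pool.Agent.H31.AD

universe u v

/-- Property C of Haver and Addis-Gresham: for every sequence of open covers `𝒰 k` there are
pairwise disjoint families `𝒱 k` of open sets, `𝒱 k` refining `𝒰 k`, which together cover the space. -/
def PropertyC (X : Type u) [TopologicalSpace X] : Prop :=
  ∀ 𝒰 : ℕ → Set (Set X), (∀ k, (∀ u ∈ 𝒰 k, IsOpen u) ∧ ⋃₀ 𝒰 k = univ) →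
    ∃ 𝒱 : ℕ → Set (Set X), (∀ k, (∀ v ∈ 𝒱 k, IsOpen v ∧ ∃ u ∈ 𝒰 k, v ⊆ u) ∧
      (𝒱 k).PairwiseDisjoint id) ∧ ⋃ k, ⋃₀ 𝒱 k = univ

variable {E : Type u} [AddCommGroup E] [Module ℝ E] [TopologicalSpace E]
  [IsTopologicalAddGroup E] [ContinuousSMul ℝ E] [T2Space E]

omit [T2Space E] in
theorem exists_seq {U : Set E} (hU : U ∈ 𝓝 (0 : E)) :
    ∃ W : ℕ → Set E, (∀ k, IsOpen (W k)) ∧ (∀ k, (0 : E) ∈ W k) ∧ (∀ k, Balanced ℝ (W k)) ∧
      ∀ (n : ℕ) (b : ℕ → E), (∀ k, b k ∈ W k) → ∑ k ∈ Finset.range n, b k ∈ U := by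
  have step : ∀ V : {V : Set E // V ∈ 𝓝 (0 : E)}, ∃ W : {W : Set E // W ∈ 𝓝 (0 : E)},
      IsOpen (W : Set E) ∧ Balanced ℝ (W : Set E) ∧
        ∀ a ∈ (W : Set E), ∀ b ∈ (W : Set E), a + b ∈ (V : Set E) := by
    intro V
    obtain ⟨W, h1, h2, h3, -, h4⟩ := exists_balanced V.2
    exact ⟨⟨W, h1.mem_nhds h2⟩, h1, h3, h4⟩
  choose nxt ho hb hadd using step
  let seq : ℕ → {V : Set E // V ∈ 𝓝 (0 : E)} := fun n => Nat.rec ⟨U, hU⟩ (fun _ V => nxt V) n
  have hseq : ∀ n, seq (n + 1) = nxt (seq n) := fun n => rfl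
  have key : ∀ (n m : ℕ) (b : ℕ → E), (∀ k, b k ∈ (seq (m + k + 1)).1) →
      ∑ k ∈ Finset.range n, b k ∈ (seq m).1 := by
    intro n
    induction n with
    | zero =>
      intro m b _
      simpa using mem_of_mem_nhds (seq m).2
    | succ n ih =>
      intro m b hb'
      rw [Finset.sum_range_succ']
      have h1 : ∑ k ∈ Finset.range n, b (k + 1) ∈ (seq (m + 1)).1 := by
        refine ih (m + 1) (fun k => b (k + 1)) fun k => ?_
        have h2 := hb' (k + 1)
        rw [show m + (k + 1) + 1 = m + 1 + k + 1 by ring] at h2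
        exact h2
      have h3 : b 0 ∈ (seq (m + 1)).1 := hb' 0
      rw [hseq] at h1 h3
      exact hadd _ _ h1 _ h3
  refine ⟨fun k => (seq (k + 1)).1, fun k => ho (seq k),
    fun k => mem_of_mem_nhds (seq (k + 1)).2, fun k => hb (seq k), ?_⟩
  intro n b hb'
  have h4 := key n 0 b (fun k => by rw [zero_add]; exact hb' k)
  exact h4

/-- **Fibre theorem.** A compact set which maps continuously to a compact Hausdorff space with
property C, with approximable fibres, is approximable. -/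
theorem approximable_of_fibers {K : Set E} (hK : IsCompact K) {Y : Type v} [TopologicalSpace Y]
    [T2Space Y] [CompactSpace Y] (hY : PropertyC Y) (f : K → Y) (hf : Continuous f)
    (hfib : ∀ y, Approximable (Subtype.val '' (f ⁻¹' {y}) : Set E)) : Approximable K := by
  classical
  have hKc : CompactSpace K := isCompact_iff_compactSpace.1 hK
  rw [approximable_iff]
  intro U hU
  obtain ⟨W, hWo, hW0, hWb, hWU⟩ := exists_seq hU
  obtain ⟨𝒱, h𝒱, hcov⟩ := hY
    (fun k => {u : Set Y | IsOpen u ∧ ∃ g : K → E, Continuous g ∧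
      FiniteDimensional ℝ (Submodule.span ℝ (range g)) ∧
      ∀ x : K, f x ∈ u → (x : E) - g x ∈ W k}) (by
      intro k
      refine ⟨fun u hu => hu.1, ?_⟩
      rw [eq_univ_iff_forall]
      intro y
      have hc1 : IsCompact (Subtype.val '' (f ⁻¹' {y}) : Set E) :=
        ((isClosed_singleton.preimage hf).isCompact).image continuous_subtype_val
      obtain ⟨g, hg, hgd, hgW⟩ := (hfib y).extend hK hc1 ((hWo k).mem_nhds (hW0 k))
      have hOo : IsOpen {x : K | (x : E) - g x ∈ W k} :=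
        (hWo k).preimage (continuous_subtype_val.sub hg)
      have hcl : IsClosed (f '' {x : K | (x : E) - g x ∈ W k}ᶜ) :=
        hf.isClosedMap _ hOo.isClosed_compl
      refine ⟨(f '' {x : K | (x : E) - g x ∈ W k}ᶜ)ᶜ, ⟨hcl.isOpen_compl, g, hg, hgd, ?_⟩, ?_⟩
      · intro x hx
        by_contra h1
        exact hx ⟨x, h1, rfl⟩
      · rintro ⟨x, hx, hxy⟩
        exact hx (hgW x ⟨x, hxy, rfl⟩))
  obtain ⟨t, ht⟩ := isCompact_univ.elim_finite_subcover
    (fun p : {p : ℕ × Set Y // p.2 ∈ 𝒱 p.1} => p.1.2) (fun p => ((h𝒱 p.1.1).1 _ p.2).1) (by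
      intro x _
      have h1 : x ∈ ⋃ k, ⋃₀ 𝒱 k := by rw [hcov]; exact mem_univ x
      obtain ⟨k, hk⟩ := mem_iUnion.1 h1
      obtain ⟨v, hv, hxv⟩ := hk
      exact mem_iUnion.2 ⟨⟨(k, v), hv⟩, hxv⟩)
  obtain ⟨ρ, hρ⟩ := PartitionOfUnity.exists_isSubordinate (s := (univ : Set Y)) isClosed_univ
    (fun p : t => p.1.1.2) (fun p => ((h𝒱 p.1.1.1).1 _ p.1.2).1) (fun x hx => by
      obtain ⟨p, hp⟩ := mem_iUnion.1 (ht hx)
      obtain ⟨h1, h2⟩ := mem_iUnion.1 hp
      exact mem_iUnion.2 ⟨⟨p, h1⟩, h2⟩)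
  have hpt : ∀ p : t, ∃ g : K → E, Continuous g ∧
      FiniteDimensional ℝ (Submodule.span ℝ (range g)) ∧
      ∀ x : K, f x ∈ p.1.1.2 → (x : E) - g x ∈ W p.1.1.1 := by
    intro p
    obtain ⟨u, ⟨-, g, hg, hgd, hgu⟩, hvu⟩ := ((h𝒱 p.1.1.1).1 _ p.1.2).2
    exact ⟨g, hg, hgd, fun x hx => hgu x (hvu hx)⟩
  choose g hg hgd hgW using hpt
  have hsum : ∀ x : K, ∑ p : t, ρ p (f x) = 1 := by
    intro x
    rw [← finsum_eq_sum_of_fintype]
    exact ρ.sum_eq_one (mem_univ (f x))
  refine ⟨fun x => ∑ p : t, ρ p (f x) • g p x, ?_, ?_, ?_⟩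
  · exact continuous_finsetSum _ fun p _ => ((ρ p).continuous.comp hf).smul (hg p)
  · have h2 : FiniteDimensional ℝ (⨆ p : t, Submodule.span ℝ (range (g p)) : Submodule ℝ E) :=
      Submodule.finiteDimensional_iSup _
    refine Submodule.finiteDimensional_of_le
      (S₂ := ⨆ p : t, Submodule.span ℝ (range (g p))) ?_
    rw [Submodule.span_le]
    rintro _ ⟨x, rfl⟩
    exact Submodule.sum_mem _ fun p _ => Submodule.smul_mem _ _
      (Submodule.mem_iSup_of_mem p (Submodule.subset_span ⟨x, rfl⟩))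
  · intro x
    have h1 : (x : E) - ∑ p : t, ρ p (f x) • g p x = ∑ p : t, ρ p (f x) • ((x : E) - g p x) := by
      simp only [smul_sub, Finset.sum_sub_distrib]
      rw [← Finset.sum_smul, hsum x, one_smul]
    obtain ⟨N, hN⟩ : ∃ N : ℕ, ∀ p : t, p.1.1.1 < N := by
      refine ⟨(Finset.univ.sup fun p : t => p.1.1.1) + 1, fun p => Nat.lt_succ_of_le ?_⟩
      exact Finset.le_sup (f := fun p : t => p.1.1.1) (Finset.mem_univ p)
    have h2 : ∑ k ∈ Finset.range N, ∑ p ∈ Finset.univ.filter (fun p : t => p.1.1.1 = k),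
        ρ p (f x) • ((x : E) - g p x) = ∑ p : t, ρ p (f x) • ((x : E) - g p x) :=
      Finset.sum_fiberwise_of_maps_to (fun p _ => Finset.mem_range.2 (hN p)) _
    show (x : E) - ∑ p : t, ρ p (f x) • g p x ∈ U
    rw [h1, ← h2]
    apply hWU N
    intro k
    have hmem : ∀ p : t, ρ p (f x) ≠ 0 → f x ∈ p.1.1.2 := fun p hp =>
      hρ p (subset_tsupport _ hp)
    by_cases h3 : ∃ p0 : t, p0.1.1.1 = k ∧ ρ p0 (f x) ≠ 0
    · obtain ⟨p0, hp0, hp0x⟩ := h3
      have h4 : ∑ p ∈ Finset.univ.filter (fun p : t => p.1.1.1 = k),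
          ρ p (f x) • ((x : E) - g p x) = ρ p0 (f x) • ((x : E) - g p0 x) := by
        refine Finset.sum_eq_single_of_mem p0 (Finset.mem_filter.2 ⟨Finset.mem_univ _, hp0⟩) ?_
        intro p hp hpp
        rw [Finset.mem_filter] at hp
        by_cases h5 : ρ p (f x) = 0
        · rw [h5, zero_smul]
        · exfalso
          apply hpp
          have h6 : p.1.1.1 = p0.1.1.1 := hp.2.trans hp0.symm
          have h7 : p.1.1.2 ∈ 𝒱 p0.1.1.1 := h6 ▸ p.1.2
          have h8 : p.1.1.2 = p0.1.1.2 := by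
            by_contra hne'
            have := (h𝒱 p0.1.1.1).2 h7 p0.1.2 hne'
            exact Set.disjoint_left.1 this (hmem p h5) (hmem p0 hp0x)
          exact Subtype.ext (Subtype.ext (Prod.ext h6 h8))
      rw [h4]
      refine balanced_smul (hWb k) (ρ.nonneg p0 (f x)) (ρ.le_one p0 (f x)) ?_
      have h9 := hgW p0 x (hmem p0 hp0x)
      rwa [hp0] at h9
    · push Not at h3
      have h4 : ∑ p ∈ Finset.univ.filter (fun p : t => p.1.1.1 = k),
          ρ p (f x) • ((x : E) - g p x) = 0 := by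
        refine Finset.sum_eq_zero fun p hp => ?_
        rw [h3 p (Finset.mem_filter.1 hp).2, zero_smul]
      rw [h4]
      exact hW0 k

omit [IsTopologicalAddGroup E] [ContinuousSMul ℝ E] [T2Space E] in
theorem approximable_singleton (x : E) : Approximable ({x} : Set E) := by
  intro U hU
  refine ⟨fun _ => x, continuousOn_const, ?_, ?_⟩
  · rw [image_singleton]
    exact FiniteDimensional.span_of_finite ℝ (Set.finite_singleton x)
  · rintro y rfl
    rw [sub_self]
    exact mem_of_mem_nhds hU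

/-- **Compact sets with property C are approximable.** -/
theorem approximable_of_propertyC {K : Set E} (hK : IsCompact K) (hC : PropertyC K) :
    Approximable K := by
  have hKc : CompactSpace K := isCompact_iff_compactSpace.1 hK
  refine approximable_of_fibers hK hC id continuous_id fun y => ?_
  have : (Subtype.val '' (id ⁻¹' {y}) : Set E) = {(y : E)} := by simp
  rw [this]
  exact approximable_singleton _

end Pool.Agent.H31.AD
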