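import Pool.Agent.H31.AD.Pro

/-!
Project MP_edf562_an (helper31): soft spaces.
-/

set_option autoImplicit false

open Topology Set Pointwise

namespace Pool.Agent.H31.AD

universe u v

/-- Products. -/
theorem simplexProp_pi {ι : Type u} {M : ι → Type v} [∀ i, AddCommGroup (M i)]
    [∀ i, Module ℝ (M i)] [∀ i, TopologicalSpace (M i)] (h : ∀ i, SimplexProp (M i)) :
    SimplexProp (∀ i, M i) := by
  classical
  intro U hU
  rw [nhds_pi, Filter.mem_pi] at hU
  obtain ⟨I, hI, t, ht, htU⟩ := hU
  choose V hV hVφ using fun i => h i (t i) (ht i)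
  refine ⟨I.pi V, set_pi_mem_nhds hI fun i _ => hV i, fun n m => ?_⟩
  choose φ h1 h2 h3 using fun i => hVφ i n (fun k => m k i)
  refine ⟨fun x i => if i ∈ I then φ i x else 0, ?_, ?_, ?_⟩
  · rw [continuousOn_pi]
    intro i
    by_cases hi : i ∈ I
    · simp only [hi, if_true]
      exact h1 i
    · simp only [hi, if_false]
      exact continuousOn_const
  · have h4 : Submodule.span ℝ ((fun x i => if i ∈ I then φ i x else 0) ''
        stdSimplex ℝ (Fin n)) ≤ ⨆ i : hI.toFinset,
          (Submodule.span ℝ (φ i '' stdSimplex ℝ (Fin n))).map (LinearMap.single ℝ M (i : ι)) := by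
      rw [Submodule.span_le]
      rintro _ ⟨x, hx, rfl⟩
      have h5 : (fun i => if i ∈ I then φ i x else 0) =
          ∑ i : hI.toFinset, LinearMap.single ℝ M (i : ι) (φ i x) := by
        funext j
        rw [Finset.sum_apply]
        have h6 : ∑ i : hI.toFinset, (LinearMap.single ℝ M (i : ι)) (φ i x) j =
            ∑ i ∈ hI.toFinset, (Pi.single i (φ i x) : ∀ i, M i) j :=
          Finset.sum_coe_sort hI.toFinset (fun i => (Pi.single i (φ i x) : ∀ i, M i) j)
        rw [h6]
        by_cases hj : j ∈ I
        · rw [if_pos hj, Finset.sum_eq_single_of_mem j (hI.mem_toFinset.2 hj)]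
          · rw [Pi.single_eq_same]
          · intro i _ hij
            rw [Pi.single_eq_of_ne hij.symm]
        · rw [if_neg hj]
          refine (Finset.sum_eq_zero fun i hi => ?_).symm
          have hij : i ≠ j := fun hij => hj (hij ▸ hI.mem_toFinset.1 hi)
          rw [Pi.single_eq_of_ne hij.symm]
      show (fun i => if i ∈ I then φ i x else 0) ∈ _
      rw [h5]
      exact Submodule.sum_mem _ fun i _ => Submodule.mem_iSup_of_mem i
        (Submodule.mem_map_of_mem (Submodule.subset_span ⟨x, hx, rfl⟩))
    have h5 : ∀ i : hI.toFinset, FiniteDimensional ℝ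
        ((Submodule.span ℝ (φ i '' stdSimplex ℝ (Fin n))).map
          (LinearMap.single ℝ M (i : ι))) := by
      intro i
      have := h2 i
      infer_instance
    have h6 : FiniteDimensional ℝ (⨆ i : hI.toFinset,
        (Submodule.span ℝ (φ i '' stdSimplex ℝ (Fin n))).map (LinearMap.single ℝ M (i : ι)) :
          Submodule ℝ (∀ i, M i)) := Submodule.finiteDimensional_iSup _
    exact Submodule.finiteDimensional_of_le h4
  · intro x hx k hk hj
    apply htU
    intro i hi
    show (if i ∈ I then φ i x else 0) - m k i ∈ t i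
    rw [if_pos hi]
    exact h3 i x hx k hk fun j hj' => hj j hj' i hi

/-- Soft spaces: the smallest class of Hausdorff real topological vector spaces which contains the
locally convex spaces and the spaces with the simplex property and is closed under extensions,
products, dense subspaces, spaces containing them densely, and projective limits (in the sense
of spaces with enough continuous linear surjections onto members of the class). -/
inductive Soft : ∀ (M : Type u) [AddCommGroup M] [Module ℝ M] [TopologicalSpace M]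
    [IsTopologicalAddGroup M] [ContinuousSMul ℝ M] [T2Space M], Prop
  | simplexProp (M : Type u) [AddCommGroup M] [Module ℝ M] [TopologicalSpace M]
      [IsTopologicalAddGroup M] [ContinuousSMul ℝ M] [T2Space M] (h : SimplexProp M) : Soft M
  | locallyConvex (M : Type u) [AddCommGroup M] [Module ℝ M] [TopologicalSpace M]
      [IsTopologicalAddGroup M] [ContinuousSMul ℝ M] [T2Space M] (h : LocallyConvexSpace ℝ M) :
      Soft M
  | extension (E F : Type u) [AddCommGroup E] [Module ℝ E] [TopologicalSpace E]
      [IsTopologicalAddGroup E] [ContinuousSMul ℝ E] [T2Space E]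
      [AddCommGroup F] [Module ℝ F] [TopologicalSpace F]
      [IsTopologicalAddGroup F] [ContinuousSMul ℝ F] [T2Space F]
      (π : E →ₗ[ℝ] F) (hc : Continuous π) (ho : IsOpenMap π) (hs : Function.Surjective π)
      (hM : Soft (LinearMap.ker π)) (hF : Soft F) : Soft E
  | product (ι : Type u) (M : ι → Type u) [∀ i, AddCommGroup (M i)] [∀ i, Module ℝ (M i)]
      [∀ i, TopologicalSpace (M i)] [∀ i, IsTopologicalAddGroup (M i)]
      [∀ i, ContinuousSMul ℝ (M i)] [∀ i, T2Space (M i)] (h : ∀ i, Soft (M i)) :
      Soft (∀ i, M i)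
  | dense (E : Type u) [AddCommGroup E] [Module ℝ E] [TopologicalSpace E]
      [IsTopologicalAddGroup E] [ContinuousSMul ℝ E] [T2Space E] (D : Submodule ℝ E)
      (hD : Dense (D : Set E)) (h : Soft E) : Soft D
  | projective (E : Type u) [AddCommGroup E] [Module ℝ E] [TopologicalSpace E]
      [IsTopologicalAddGroup E] [ContinuousSMul ℝ E] [T2Space E] (ι : Type u) (F : ι → Type u)
      [∀ i, AddCommGroup (F i)] [∀ i, Module ℝ (F i)] [∀ i, TopologicalSpace (F i)]
      [∀ i, IsTopologicalAddGroup (F i)] [∀ i, ContinuousSMul ℝ (F i)] [∀ i, T2Space (F i)]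
      (π : ∀ i, E →ₗ[ℝ] F i) (hc : ∀ i, Continuous (π i)) (hs : ∀ i, Function.Surjective (π i))
      (hU : ∀ U ∈ 𝓝 (0 : E), ∃ i, ∃ V ∈ 𝓝 (0 : F i), π i ⁻¹' V ⊆ U) (h : ∀ i, Soft (F i)) :
      Soft E
  | ofDense (E : Type u) [AddCommGroup E] [Module ℝ E] [TopologicalSpace E]
      [IsTopologicalAddGroup E] [ContinuousSMul ℝ E] [T2Space E] (D : Submodule ℝ E)
      (hD : Dense (D : Set E)) (h : Soft D) : Soft E

theorem simplexProp_of_soft {M : Type u} [i1 : AddCommGroup M] [i2 : Module ℝ M]
    [i3 : TopologicalSpace M] [i4 : IsTopologicalAddGroup M] [i5 : ContinuousSMul ℝ M]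
    [i6 : T2Space M] (h : Soft M) : SimplexProp M := by
  induction h with
  | simplexProp M h => exact h
  | locallyConvex M h => exact simplexProp_of_locallyConvex
  | extension E F π hc ho hs hM hF ih1 ih2 => exact simplexProp_of_ker π hc ho hs ih1 ih2
  | product ι M h ih => exact simplexProp_pi ih
  | dense E D hD h ih => exact ih.to_dense hD
  | projective E ι F π hc hs hU h ih => exact simplexProp_of_surj π hc hs hU ih
  | ofDense E D hD h ih => exact ih.of_dense hD

end Pool.Agent.H31.AD
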