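import Pool.Agent.H31.AD.Div

/-!
Project MP_edf562_an (helper31): step functions on `[0, 1)` with values in a vector space.
-/

set_option autoImplicit false

open Topology Set Pointwise

namespace Pool.Agent.H31.AD

universe u v

section

variable (Z : Type u) [AddCommGroup Z] [Module ℝ Z]

/-- The functions constant on the intervals `[k / N, (k + 1) / N)`, `k` an integer. -/
def Lev (N : ℕ) : Submodule ℝ (ℝ → Z) where
  carrier := {f | ∀ x y : ℝ, ⌊(N : ℝ) * x⌋ = ⌊(N : ℝ) * y⌋ → f x = f y}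
  add_mem' := by
    intro f g hf hg x y h
    show f x + g x = f y + g y
    rw [hf x y h, hg x y h]
  zero_mem' := fun x y _ => rfl
  smul_mem' := by
    intro r f hf x y h
    show r • f x = r • f y
    rw [hf x y h]

variable {Z}

theorem floor_mul (M N : ℕ) (hN : 0 < N) (x : ℝ) :
    ⌊(M : ℝ) * x⌋ = ⌊((M * N : ℕ) : ℝ) * x⌋ / (N : ℤ) := by
  have h1 : (0 : ℝ) < N := by exact_mod_cast hN
  rw [← Int.floor_div_natCast]
  congr 1
  push_cast
  field_simp

theorem Lev.mul_right {M N : ℕ} (hN : 0 < N) {f : ℝ → Z} (hf : f ∈ Lev Z M) :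
    f ∈ Lev Z (M * N) := by
  intro x y h
  apply hf
  rw [floor_mul M N hN x, floor_mul M N hN y, h]

theorem Lev.mul_left {M N : ℕ} (hN : 0 < N) {f : ℝ → Z} (hf : f ∈ Lev Z M) :
    f ∈ Lev Z (N * M) := by
  rw [mul_comm]
  exact Lev.mul_right hN hf

variable (Z)

/-- Step functions `ℝ → Z`: constant on the intervals `[k / N, (k + 1) / N)` for some `N ≥ 1`. -/
def StepFun : Submodule ℝ (ℝ → Z) where
  carrier := {f | ∃ N : ℕ, 0 < N ∧ ∀ x y : ℝ, ⌊(N : ℝ) * x⌋ = ⌊(N : ℝ) * y⌋ → f x = f y}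
  add_mem' := by
    rintro f g ⟨M, hM, hf⟩ ⟨N, hN, hg⟩
    exact ⟨M * N, Nat.mul_pos hM hN, (Lev Z (M * N)).add_mem (Lev.mul_right hN hf)
      (Lev.mul_left hM hg)⟩
  zero_mem' := ⟨1, Nat.one_pos, fun x y _ => rfl⟩
  smul_mem' := by
    rintro r f ⟨M, hM, hf⟩
    exact ⟨M, hM, (Lev Z M).smul_mem r hf⟩

variable {Z}

theorem exists_common_level {n : ℕ} (m : Fin n → StepFun Z) :
    ∃ M : ℕ, 0 < M ∧ ∀ i, ((m i : StepFun Z) : ℝ → Z) ∈ Lev Z M := by
  choose Q hQ hQm using fun i => (m i).2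
  refine ⟨∏ i, Q i, Finset.prod_pos fun i _ => hQ i, fun i => ?_⟩
  obtain ⟨k, hk⟩ := Finset.dvd_prod_of_mem Q (Finset.mem_univ i)
  have hk0 : 0 < k := by
    rcases Nat.eq_zero_or_pos k with h | h
    · rw [h, mul_zero] at hk
      have := Finset.prod_pos fun i (_ : i ∈ Finset.univ) => hQ i
      omega
    · exact h
  rw [hk]
  exact Lev.mul_right hk0 (hQm i)

/-- Cut out the cells with number `c` modulo `N`, on the scale `1 / K`. -/
noncomputable def cut (K N : ℕ) (hK : 0 < K) (c : ℕ) : StepFun Z →ₗ[ℝ] StepFun Z where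
  toFun f := ⟨fun x => if ⌊(K : ℝ) * x⌋ % (N : ℤ) = (c : ℤ) then (f : ℝ → Z) x else 0, by
    obtain ⟨L, hL, hf⟩ := f.2
    refine ⟨L * K, Nat.mul_pos hL hK, fun x y h => ?_⟩
    have h1 : ⌊(K : ℝ) * x⌋ = ⌊(K : ℝ) * y⌋ := by
      rw [mul_comm L K] at h
      rw [floor_mul K L hL x, floor_mul K L hL y, h]
    have h2 : (f : ℝ → Z) x = (f : ℝ → Z) y := Lev.mul_right (Z := Z) hK hf x y h
    show (if ⌊(K : ℝ) * x⌋ % (N : ℤ) = (c : ℤ) then (f : ℝ → Z) x else 0) =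
      if ⌊(K : ℝ) * y⌋ % (N : ℤ) = (c : ℤ) then (f : ℝ → Z) y else 0
    rw [h1, h2]⟩
  map_add' f g := by
    apply Subtype.ext
    funext x
    show (if ⌊(K : ℝ) * x⌋ % (N : ℤ) = (c : ℤ) then (f : ℝ → Z) x + (g : ℝ → Z) x else 0) =
      (if ⌊(K : ℝ) * x⌋ % (N : ℤ) = (c : ℤ) then (f : ℝ → Z) x else 0) +
        if ⌊(K : ℝ) * x⌋ % (N : ℤ) = (c : ℤ) then (g : ℝ → Z) x else 0
    split_ifs
    · rfl
    · rw [add_zero]
  map_smul' r f := by
    apply Subtype.ext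
    funext x
    show (if ⌊(K : ℝ) * x⌋ % (N : ℤ) = (c : ℤ) then r • (f : ℝ → Z) x else 0) =
      r • if ⌊(K : ℝ) * x⌋ % (N : ℤ) = (c : ℤ) then (f : ℝ → Z) x else 0
    split_ifs
    · rfl
    · rw [smul_zero]

theorem sum_cut {K N : ℕ} (hK : 0 < K) (hN : 0 < N) (y : ℕ → StepFun Z) (x : ℝ) :
    ((∑ c ∈ Finset.range N, cut K N hK c (y c) : StepFun Z) : ℝ → Z) x =
      (y (⌊(K : ℝ) * x⌋ % (N : ℤ)).toNat : ℝ → Z) x := by
  have hN' : (0 : ℤ) < N := by exact_mod_cast hN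
  have h0 : 0 ≤ ⌊(K : ℝ) * x⌋ % (N : ℤ) := Int.emod_nonneg _ hN'.ne'
  have h1 : ⌊(K : ℝ) * x⌋ % (N : ℤ) < N := Int.emod_lt_of_pos _ hN'
  rw [AddSubmonoidClass.coe_finsetSum, Finset.sum_apply]
  rw [Finset.sum_eq_single_of_mem (⌊(K : ℝ) * x⌋ % (N : ℤ)).toNat
    (Finset.mem_range.2 (by omega))]
  · show (if ⌊(K : ℝ) * x⌋ % (N : ℤ) = ((⌊(K : ℝ) * x⌋ % (N : ℤ)).toNat : ℤ) then _ else _) = _
    rw [if_pos (Int.toNat_of_nonneg h0).symm]
  · intro c _ hc
    show (if ⌊(K : ℝ) * x⌋ % (N : ℤ) = (c : ℤ) then _ else (0 : Z)) = 0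
    rw [if_neg]
    intro h
    apply hc
    omega

open MeasureTheory in
/-- The integral of a function of a step function. -/
theorem integral_step {N : ℕ} (hN : 0 < N) {f : ℝ → Z} (hf : f ∈ Lev Z N) (g : Z → ℝ) :
    ∫ x in (0 : ℝ)..1, g (f x) = (∑ k ∈ Finset.range N, g (f (k / N))) / N := by
  have hN' : (0 : ℝ) < N := by exact_mod_cast hN
  have hstep : ∀ k : ℕ, ((k + 1 : ℕ) : ℝ) / N - (k : ℝ) / N = 1 / N := by
    intro k
    push_cast
    field_simp
    ring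
  have hle : ∀ k : ℕ, (k : ℝ) / N ≤ ((k + 1 : ℕ) : ℝ) / N := by
    intro k
    have := hstep k
    have h2 : (0 : ℝ) < 1 / N := by positivity
    linarith
  have hval : ∀ k : ℕ, ∀ x ∈ Ioo ((k : ℝ) / N) (((k + 1 : ℕ) : ℝ) / N), g (f x) = g (f (k / N)) := by
    intro k x hx
    congr 1
    apply hf
    have h1 : (N : ℝ) * (k / N) = k := by field_simp
    rw [h1, Int.floor_natCast, Int.floor_eq_iff]
    obtain ⟨h2, h3⟩ := hx
    rw [div_lt_iff₀ hN'] at h2
    rw [lt_div_iff₀ hN'] at h3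
    push_cast at h3 ⊢
    constructor <;> linarith
  have hint : ∀ k : ℕ, IntervalIntegrable (fun x => g (f x)) volume ((k : ℝ) / N)
      (((k + 1 : ℕ) : ℝ) / N) := by
    intro k
    rw [intervalIntegrable_iff_integrableOn_Ioc_of_le (hle k), integrableOn_Ioc_iff_integrableOn_Ioo]
    have h1 : IntegrableOn (fun _ : ℝ => g (f (k / N))) (Ioo ((k : ℝ) / N)
        (((k + 1 : ℕ) : ℝ) / N)) := integrableOn_const (by
      rw [Real.volume_Ioo]
      exact ENNReal.ofReal_ne_top)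
    exact h1.congr_fun (fun x hx => (hval k x hx).symm) measurableSet_Ioo
  have hk : ∀ k : ℕ, ∫ x in ((k : ℝ) / N)..(((k + 1 : ℕ) : ℝ) / N), g (f x) = g (f (k / N)) / N := by
    intro k
    rw [intervalIntegral.integral_of_le (hle k), integral_Ioc_eq_integral_Ioo,
      setIntegral_congr_fun measurableSet_Ioo (hval k), setIntegral_const, measureReal_def,
      Real.volume_Ioo, hstep k, ENNReal.toReal_ofReal (by positivity), smul_eq_mul]
    ring
  have h1 := intervalIntegral.sum_integral_adjacent_intervals (f := fun x => g (f x))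
    (μ := volume) (a := fun k : ℕ => (k : ℝ) / N) (n := N) fun k _ => hint k
  rw [div_self hN'.ne'] at h1
  simp only [Nat.cast_zero, zero_div] at h1
  rw [← h1, Finset.sum_div]
  exact Finset.sum_congr rfl fun k _ => (hk k)

theorem sum_range_mul_eq (M N : ℕ) (a : ℕ → ℝ) :
    ∑ q ∈ Finset.range (M * N), a q =
      ∑ k ∈ Finset.range M, ∑ c ∈ Finset.range N, a (k * N + c) := by
  induction M with
  | zero => simp
  | succ M ih => rw [Nat.succ_mul, Finset.sum_range_add, ih, Finset.sum_range_succ]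

/-- Divisibility of the integral. -/
theorem integral_sum_cut {M N : ℕ} (hM : 0 < M) (hN : 0 < N) (y : ℕ → StepFun Z)
    (hy : ∀ c, (y c : ℝ → Z) ∈ Lev Z M) (g : Z → ℝ) :
    N * ∫ x in (0 : ℝ)..1, g (((∑ c ∈ Finset.range N,
      cut (M * N) N (Nat.mul_pos hM hN) c (y c) : StepFun Z) : ℝ → Z) x) =
      ∑ c ∈ Finset.range N, ∫ x in (0 : ℝ)..1, g ((y c : ℝ → Z) x) := by
  have hM' : (0 : ℝ) < M := by exact_mod_cast hM
  have hN' : (0 : ℝ) < N := by exact_mod_cast hN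
  have hlev : ((∑ c ∈ Finset.range N, cut (M * N) N (Nat.mul_pos hM hN) c (y c) : StepFun Z) :
      ℝ → Z) ∈ Lev Z (M * N) := by
    intro x x' h
    rw [sum_cut, sum_cut _ hN, h]
    · exact Lev.mul_right hN (hy _) x x' h
    · exact hN
  rw [integral_step (Nat.mul_pos hM hN) hlev, sum_range_mul_eq]
  have h1 : ∀ k ∈ Finset.range M, ∀ c ∈ Finset.range N,
      ((∑ c ∈ Finset.range N, cut (M * N) N (Nat.mul_pos hM hN) c (y c) : StepFun Z) :
        ℝ → Z) (((k * N + c : ℕ) : ℝ) / ((M * N : ℕ) : ℝ)) = (y c : ℝ → Z) (k / M) := by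
    intro k _ c hc
    rw [Finset.mem_range] at hc
    rw [sum_cut _ hN]
    have h2 : ((M * N : ℕ) : ℝ) * (((k * N + c : ℕ) : ℝ) / ((M * N : ℕ) : ℝ)) =
        ((k * N + c : ℕ) : ℝ) := by
      have : ((M * N : ℕ) : ℝ) ≠ 0 := by positivity
      field_simp
    rw [h2, Int.floor_natCast]
    have h3 : (((k * N + c : ℕ) : ℤ) % (N : ℤ)).toNat = c := by
      rw [← Int.natCast_mod, Int.toNat_natCast, Nat.mul_comm k N, Nat.mul_add_mod,
        Nat.mod_eq_of_lt hc]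
    rw [h3]
    apply hy c
    rw [floor_mul M N hN, h2, Int.floor_natCast]
    have h4 : (M : ℝ) * ((k : ℝ) / M) = k := by field_simp
    rw [h4, Int.floor_natCast]
    have h5 : (k * N + c) / N = k := by
      rw [mul_comm, Nat.mul_add_div hN, Nat.div_eq_of_lt hc, add_zero]
    exact_mod_cast congrArg (Nat.cast (R := ℤ)) h5
  rw [Finset.sum_congr rfl fun k hk => Finset.sum_congr rfl fun c hc => by rw [h1 k hk c hc]]
  rw [Finset.sum_comm]
  rw [Finset.sum_congr rfl fun c _ => integral_step hM (hy c) g]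
  rw [← Finset.sum_div]
  push_cast
  field_simp

/-- **Spaces of `Z`-valued functions.** -/
theorem simplexProp_of_step {A : Type v} (ρ : A → Z → ℝ)
    (hb : ∀ (a : A) (n : ℕ) (z : Fin n → Z), ∃ B : ℝ, ∀ c : Fin n → ℝ,
      (∀ i, c i ∈ Icc (0 : ℝ) 1) → ρ a (∑ i, c i • z i) ≤ B)
    {S : Type u} [AddCommGroup S] [Module ℝ S] [TopologicalSpace S] [IsTopologicalAddGroup S]
    [ContinuousSMul ℝ S] [T2Space S] (j : StepFun Z →ₗ[ℝ] S) (hd : DenseRange j)
    (h1 : ∀ U ∈ 𝓝 (0 : S), ∃ a, ∃ ε > 0, ∀ f : StepFun Z,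
      ∫ x in (0 : ℝ)..1, ρ a ((f : ℝ → Z) x) < ε → j f ∈ U)
    (h2 : ∀ a, ∀ ε > 0, ∃ U ∈ 𝓝 (0 : S), ∀ f : StepFun Z,
      j f ∈ U → ∫ x in (0 : ℝ)..1, ρ a ((f : ℝ → Z) x) < ε) : SimplexProp S := by
  let _ : TopologicalSpace (StepFun Z) := TopologicalSpace.induced j inferInstance
  have _ : IsTopologicalAddGroup (StepFun Z) := topologicalAddGroup_induced j
  have _ : ContinuousSMul ℝ (StepFun Z) := continuousSMul_induced j
  have hj : IsInducing j := ⟨rfl⟩
  refine simplexProp_of_denseRange j hj hd (simplexProp_of_divisible ?_)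
  intro U hU
  rw [hj.nhds_eq_comap, map_zero, Filter.mem_comap] at hU
  obtain ⟨U', hU', hUU⟩ := hU
  obtain ⟨a, ε, hε, ha⟩ := h1 U' hU'
  refine ⟨fun f => ∫ x in (0 : ℝ)..1, ρ a ((f : ℝ → Z) x), ?_, ⟨ε, hε, fun f hf =>
    hUU (ha f hf)⟩, ?_, ?_⟩
  · intro δ hδ
    obtain ⟨V, hV, hVf⟩ := h2 a δ hδ
    rw [hj.nhds_eq_comap, map_zero]
    exact Filter.mem_of_superset (Filter.preimage_mem_comap hV) fun f hf => hVf f hf
  · intro n x
    obtain ⟨M, hM, hMx⟩ := exists_common_level x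
    choose B hB using fun k : ℕ => hb a n (fun i => (x i : ℝ → Z) (k / M))
    refine ⟨(∑ k ∈ Finset.range M, B k) / M, fun c hc => ?_⟩
    have hlev : ((∑ i, c i • x i : StepFun Z) : ℝ → Z) ∈ Lev Z M := by
      rw [AddSubmonoidClass.coe_finsetSum]
      exact Submodule.sum_mem _ fun i _ => Submodule.smul_mem _ _ (hMx i)
    show ∫ t in (0 : ℝ)..1, ρ a (((∑ i, c i • x i : StepFun Z) : ℝ → Z) t) ≤ _
    rw [integral_step hM hlev]
    refine div_le_div_of_nonneg_right (Finset.sum_le_sum fun k _ => ?_) (Nat.cast_nonneg M)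
    have h3 : ((∑ i, c i • x i : StepFun Z) : ℝ → Z) (k / M) =
        ∑ i, c i • (x i : ℝ → Z) (k / M) := by
      rw [AddSubmonoidClass.coe_finsetSum, Finset.sum_apply]
      rfl
    rw [h3]
    exact hB k c hc
  · intro n x N hN
    obtain ⟨M, hM, hMx⟩ := exists_common_level x
    refine ⟨cut (M * N) N (Nat.mul_pos hM hN), fun i => ?_, fun y hy => ?_⟩
    · apply Subtype.ext
      funext t
      rw [sum_cut _ hN (fun _ => x i)]
    · refine (integral_sum_cut hM hN y (fun c => ?_) (ρ a)).le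
      have h3 : Submodule.span ℝ (range x) ≤ (Lev Z M).comap (StepFun Z).subtype := by
        rw [Submodule.span_le]
        rintro _ ⟨i, rfl⟩
        exact hMx i
      exact h3 (hy c)

end

end Pool.Agent.H31.AD
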