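import Pool.Agent.H31.AD.PerSP

/-!
Project MP_edf562_an (helper31): Klee's problem is the problem of sums of two totally disconnected
compact sets.
-/

set_option autoImplicit false

open Topology Set Pointwise

namespace Pool.Agent.H31.AD

universe u v

/-- Compact totally disconnected Hausdorff spaces have property C. -/
theorem propertyC_of_totallyDisconnected {X : Type u} [TopologicalSpace X] [CompactSpace X]
    [T2Space X] [TotallyDisconnectedSpace X] : PropertyC X := by
  classical
  intro 𝒰 h𝒰
  have h1 : ∀ x : X, ∃ C : Set X, IsClopen C ∧ x ∈ C ∧ ∃ u ∈ 𝒰 0, C ⊆ u := by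
    intro x
    have hx : x ∈ ⋃₀ 𝒰 0 := by rw [(h𝒰 0).2]; exact mem_univ x
    obtain ⟨u, hu, hxu⟩ := hx
    obtain ⟨C, hC, hxC, hCu⟩ := compact_exists_isClopen_in_isOpen ((h𝒰 0).1 u hu) hxu
    exact ⟨C, hC, hxC, u, hu, hCu⟩
  choose C hC hxC hCu using h1
  obtain ⟨t, ht⟩ := isCompact_univ.elim_finite_subcover C (fun x => (hC x).isOpen)
    (fun x _ => mem_iUnion.2 ⟨x, hxC x⟩)
  refine ⟨fun k => if k = 0 then range (fun x : X => {y : X | ∀ i ∈ t, (x ∈ C i ↔ y ∈ C i)})
    else ∅, fun k => ?_, ?_⟩
  · by_cases hk : k = 0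
    · subst hk
      simp only [if_true]
      refine ⟨?_, ?_⟩
      · rintro _ ⟨x, rfl⟩
        refine ⟨?_, ?_⟩
        · have h2 : {y : X | ∀ i ∈ t, (x ∈ C i ↔ y ∈ C i)} =
              ⋂ i ∈ t, {y : X | x ∈ C i ↔ y ∈ C i} := by
            ext y
            simp
          show IsOpen {y : X | ∀ i ∈ t, (x ∈ C i ↔ y ∈ C i)}
          rw [h2]
          refine isOpen_biInter_finset fun i _ => ?_
          by_cases h3 : x ∈ C i
          · simp only [h3, true_iff]
            exact (hC i).isOpen
          · simp only [h3, false_iff]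
            exact (hC i).compl.isOpen
        · obtain ⟨i, hi, hxi⟩ := mem_iUnion₂.1 (ht (mem_univ x))
          obtain ⟨u, hu, hCu'⟩ := hCu i
          exact ⟨u, hu, fun y hy => hCu' ((hy i hi).1 hxi)⟩
      · rintro _ ⟨x, rfl⟩ _ ⟨y, rfl⟩ hxy
        show Disjoint {z : X | ∀ i ∈ t, (x ∈ C i ↔ z ∈ C i)} {z : X | ∀ i ∈ t, (y ∈ C i ↔ z ∈ C i)}
        rw [Set.disjoint_left]
        intro z hz hz'
        apply hxy
        ext w
        constructor
        · intro hw i hi
          rw [hz' i hi, ← hz i hi, hw i hi]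
        · intro hw i hi
          rw [hz i hi, ← hz' i hi, hw i hi]
    · simp [hk]
  · rw [eq_univ_iff_forall]
    intro x
    refine mem_iUnion.2 ⟨0, {y : X | ∀ i ∈ t, (x ∈ C i ↔ y ∈ C i)}, ?_, fun i _ => Iff.rfl⟩
    simp only [if_true]
    exact ⟨x, rfl⟩

section

variable {E : Type u} [AddCommGroup E] [Module ℝ E] [TopologicalSpace E]
  [IsTopologicalAddGroup E] [ContinuousSMul ℝ E] [T2Space E]

/-- Totally disconnected compact sets are approximable. -/
theorem approximable_of_totallyDisconnected {K : Set E} (hK : IsCompact K)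
    (h : IsTotallyDisconnected K) : Approximable K := by
  have hKc : CompactSpace K := isCompact_iff_compactSpace.1 hK
  have hKt : TotallyDisconnectedSpace K := totallyDisconnectedSpace_subtype_iff.2 h
  exact approximable_of_propertyC hK propertyC_of_totallyDisconnected

/-- Every compact set `K` becomes part of a sum of two totally disconnected compact sets in
`E × ℝ^(2^K)`. -/
theorem exists_sum {K : Set E} (hK : IsCompact K) : ∃ A B : Set (E × (Set K → ℝ)),
    IsCompact A ∧ IsCompact B ∧ IsTotallyDisconnected A ∧ IsTotallyDisconnected B ∧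
      (fun x : E => (x, (0 : Set K → ℝ))) '' K ⊆ A + B := by
  classical
  have hKc : CompactSpace K := isCompact_iff_compactSpace.1 hK
  let f : Ultrafilter K → K := Ultrafilter.extend id
  have hf : Continuous f := continuous_ultrafilter_extend id
  have hfs : ∀ x : K, f (pure x) = x := fun x => ultrafilter_extend_pure id x
  let ι : Ultrafilter K → (Set K → ℝ) := fun u s => if s ∈ u then 1 else 0
  have hι : Continuous ι := by
    refine continuous_pi fun s => ?_
    have h1 : IsClopen {u : Ultrafilter K | s ∈ u} :=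
      ⟨ultrafilter_isClosed_basic s, ultrafilter_isOpen_basic s⟩
    refine continuous_iff_continuousAt.2 fun u => ?_
    have h2 : ∀ᶠ w in 𝓝 u, (s ∈ w ↔ s ∈ u) := by
      by_cases h : s ∈ u
      · filter_upwards [h1.isOpen.mem_nhds h] with w hw
        exact ⟨fun _ => h, fun _ => hw⟩
      · filter_upwards [h1.compl.isOpen.mem_nhds h] with w hw
        exact ⟨fun h' => (hw h').elim, fun h' => (h h').elim⟩
    have h3 : (fun w : Ultrafilter K => ι w s) =ᶠ[𝓝 u] fun _ => ι u s := by
      filter_upwards [h2] with w hw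
      show (if s ∈ w then (1 : ℝ) else 0) = if s ∈ u then 1 else 0
      simp only [hw]
    exact continuousAt_const.congr h3.symm
  have hιi : Function.Injective ι := by
    intro u w h
    refine Ultrafilter.ext fun s => ?_
    have h1 := congrFun h s
    have h2 : (if s ∈ u then (1 : ℝ) else 0) = if s ∈ w then 1 else 0 := h1
    by_cases hu : s ∈ u
    · by_cases hw : s ∈ w
      · exact ⟨fun _ => hw, fun _ => hu⟩
      · simp [hu, hw] at h2
    · by_cases hw : s ∈ w
      · simp [hu, hw] at h2
      · exact ⟨fun h' => (hu h').elim, fun h' => (hw h').elim⟩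
  have hac : Continuous (fun u : Ultrafilter K => ((0 : E), ι u)) := continuous_const.prodMk hι
  have hai : Function.Injective (fun u : Ultrafilter K => ((0 : E), ι u)) := fun u w h =>
    hιi (congrArg Prod.snd h)
  have hbc : Continuous (fun u : Ultrafilter K => ((f u : E), -ι u)) :=
    (continuous_subtype_val.comp hf).prodMk hι.neg
  have hbi : Function.Injective (fun u : Ultrafilter K => ((f u : E), -ι u)) := fun u w h =>
    hιi (neg_injective (congrArg Prod.snd h))
  refine ⟨range (fun u : Ultrafilter K => ((0 : E), ι u)),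
    range (fun u : Ultrafilter K => ((f u : E), -ι u)), isCompact_range hac, isCompact_range hbc,
    ?_, ?_, ?_⟩
  · exact ((hac.isClosedEmbedding hai).isEmbedding.isTotallyDisconnected_range).2 inferInstance
  · exact ((hbc.isClosedEmbedding hbi).isEmbedding.isTotallyDisconnected_range).2 inferInstance
  · rintro _ ⟨x, hx, rfl⟩
    refine ⟨_, ⟨pure ⟨x, hx⟩, rfl⟩, _, ⟨pure ⟨x, hx⟩, rfl⟩, ?_⟩
    show ((0 : E) + (f (pure ⟨x, hx⟩) : E), ι _ + -ι _) = (x, (0 : Set K → ℝ))
    rw [hfs, zero_add, add_neg_cancel]

/-- Approximability of `K × {0}` gives approximability of `K`. -/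
theorem approximable_of_prod {G : Type v} [AddCommGroup G] [Module ℝ G] [TopologicalSpace G]
    {K : Set E} (h : Approximable ((fun x : E => (x, (0 : G))) '' K)) : Approximable K := by
  intro U hU
  have h1 : Prod.fst ⁻¹' U ∈ 𝓝 (0 : E × G) :=
    continuous_fst.continuousAt.preimage_mem_nhds hU
  obtain ⟨v, hv1, hv2, hv3⟩ := h _ h1
  refine ⟨fun x => (v (x, 0)).1, ?_, ?_, ?_⟩
  · refine continuous_fst.comp_continuousOn (hv1.comp ?_ fun x hx => ⟨x, hx, rfl⟩)
    exact (continuous_id.prodMk continuous_const).continuousOn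
  · have h2 : Submodule.span ℝ ((fun x : E => (v (x, (0 : G))).1) '' K) ≤
        (Submodule.span ℝ (v '' ((fun x : E => (x, (0 : G))) '' K))).map
          (LinearMap.fst ℝ E G) := by
      rw [Submodule.span_le]
      rintro _ ⟨x, hx, rfl⟩
      exact Submodule.mem_map_of_mem (f := LinearMap.fst ℝ E G)
        (Submodule.subset_span ⟨_, ⟨x, hx, rfl⟩, rfl⟩)
    exact Submodule.finiteDimensional_of_le h2
  · intro x hx
    exact hv3 _ ⟨x, hx, rfl⟩

end

/-- If sums of two totally disconnected compact sets are approximable (in all spaces), then all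
spaces are admissible. -/
theorem admissible_of_sums
    (h : ∀ (E : Type u) [AddCommGroup E] [Module ℝ E] [TopologicalSpace E]
      [IsTopologicalAddGroup E] [ContinuousSMul ℝ E] [T2Space E] (A B : Set E),
      IsCompact A → IsCompact B → IsTotallyDisconnected A → IsTotallyDisconnected B →
        Approximable (A + B))
    (E : Type u) [AddCommGroup E] [Module ℝ E] [TopologicalSpace E]
    [IsTopologicalAddGroup E] [ContinuousSMul ℝ E] [T2Space E] : Admissible E := by
  intro K hK
  obtain ⟨A, B, hA, hB, hA', hB', hAB⟩ := exists_sum hK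
  exact approximable_of_prod ((h (E × (Set K → ℝ)) A B hA hB hA' hB').mono hAB)

/-- If closed subspaces of spaces with the simplex property are admissible, then all spaces are
admissible. -/
theorem admissible_of_closed
    (h : ∀ (E : Type u) [AddCommGroup E] [Module ℝ E] [TopologicalSpace E]
      [IsTopologicalAddGroup E] [ContinuousSMul ℝ E] [T2Space E], SimplexProp E →
      ∀ N : Submodule ℝ E, IsClosed (N : Set E) → Admissible N)
    (E : Type u) [AddCommGroup E] [Module ℝ E] [TopologicalSpace E]
    [IsTopologicalAddGroup E] [ContinuousSMul ℝ E] [T2Space E] : Admissible E := by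
  intro K hK U hU
  have hce : IsClosedEmbedding (cst : E → Per E) := cst_isClosedEmbedding
  obtain ⟨N, hN⟩ : ∃ N, N = LinearMap.range (cst : E →ₗ[ℝ] Per E) := ⟨_, rfl⟩
  have hNc : IsClosed (N : Set (Per E)) := by
    rw [hN]
    exact hce.isClosed_range
  have hmem : ∀ z, (cst : E →ₗ[ℝ] Per E) z ∈ N := fun z => by
    rw [hN]
    exact ⟨z, rfl⟩
  have hadm := h (Per E) simplexProp_per N hNc
  let π : E →ₗ[ℝ] N := (cst : E →ₗ[ℝ] Per E).codRestrict N hmem
  have hc : Continuous π := Continuous.subtype_mk hce.continuous _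
  have hs : Function.Surjective π := by
    rintro ⟨y, hy⟩
    have hy' := hy
    rw [hN] at hy'
    obtain ⟨z, rfl⟩ := hy'
    exact ⟨z, rfl⟩
  refine approximable_of_surj π hc hs ?_ (hadm _ (hK.image hc))
  have h1 : U ∈ Filter.comap (cst : E → Per E) (𝓝 (cst 0)) := by
    rw [← hce.isInducing.nhds_eq_comap]
    exact hU
  obtain ⟨T, hT, hTU⟩ := Filter.mem_comap.1 h1
  rw [map_zero] at hT
  refine ⟨Subtype.val ⁻¹' T, continuous_subtype_val.continuousAt.preimage_mem_nhds hT, ?_⟩
  intro z hz
  exact hTU hz

end Pool.Agent.H31.AD
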